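import Pool.Agent.H16.FW.Stm
import Pool.Agent.H16.FV.Ori
import Mathlib.Combinatorics.SimpleGraph.Connectivity.Subgraph

/-!
The graph outside of the hubs is a forest (stub FW-ACY).
-/

set_option autoImplicit false

namespace Pool.Agent.H16.FW

open Finset Pool.Agent.TH362.TF Pool.Agent.TH362.TF.Four Q116.FF Pool.Agent.H16.FV

theorem acy : S_ACY := by
  intro V E _ _ _ s t S x hFb
  classical
  obtain ⟨c, p, r, h1, h2⟩ := Pool.Agent.H16.FV.ori V E s t S (univ.image x) hFb
  intro v0 w hw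
  obtain ⟨v, hv, hmin⟩ := (w.support.toFinset).exists_min_image r
    ⟨v0, by simp⟩
  rw [List.mem_toFinset] at hv
  have h3 := hw.ncard_neighborSet_toSubgraph_eq_two hv
  rw [Set.ncard_eq_two] at h3
  obtain ⟨a, b, hab, h4⟩ := h3
  have ha : w.toSubgraph.Adj v a := by
    have : a ∈ w.toSubgraph.neighborSet v := by rw [h4]; simp
    exact this
  have hb : w.toSubgraph.Adj v b := by
    have : b ∈ w.toSubgraph.neighborSet v := by rw [h4]; simp
    exact this
  have key : ∀ y, w.toSubgraph.Adj v y → ∃ e ∈ S, Ends s t v y e ∧ c e = v ∧ s e ≠ t e ∧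
      s e ∉ univ.image x ∧ t e ∉ univ.image x := by
    intro y hy
    obtain ⟨g1, g2, g3, e, he, k⟩ := hy.adj_sub
    have hys : y ∈ w.support := by
      rw [← SimpleGraph.Walk.mem_verts_toSubgraph]
      exact hy.snd_mem
    have hr := hmin y (by simpa using hys)
    have g2' : v ∉ univ.image x := by
      intro h
      obtain ⟨i, _, hi⟩ := mem_image.1 h
      exact g2 i hi
    have g3' : y ∉ univ.image x := by
      intro h
      obtain ⟨i, _, hi⟩ := mem_image.1 h
      exact g3 i hi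
    have k' := k
    have hne : s e ≠ t e ∧ s e ∉ univ.image x ∧ t e ∉ univ.image x := by
      rcases k with ⟨k1, k2⟩ | ⟨k1, k2⟩
      · rw [k1, k2]; exact ⟨g1, g2', g3'⟩
      · rw [k1, k2]; exact ⟨g1.symm, g3', g2'⟩
    obtain ⟨q1, q2⟩ := h1 e he hne.1 hne.2.1 hne.2.2
    refine ⟨e, he, k', ?_, hne.1, hne.2.1, hne.2.2⟩
    rcases k' with ⟨k1, k2⟩ | ⟨k1, k2⟩ <;> rcases q1 with ⟨q3, q4⟩ | ⟨q3, q4⟩
    · rw [← q3, k1]
    · exfalso
      have e1 : c e = y := by rw [← q4, k2]
      have e2 : p e = v := by rw [← q3, k1]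
      rw [e1, e2] at q2
      omega
    · exfalso
      have e1 : c e = y := by rw [← q3, k1]
      have e2 : p e = v := by rw [← q4, k2]
      rw [e1, e2] at q2
      omega
    · rw [← q4, k2]
  obtain ⟨e, he, k, hc, n1, n2, n3⟩ := key a ha
  obtain ⟨e', he', k', hc', n1', n2', n3'⟩ := key b hb
  have hee := h2 e he n1 n2 n3 e' he' n1' n2' n3' (by rw [hc, hc'])
  subst hee
  have hva : v ≠ a := (ha.adj_sub).1
  have hvb : v ≠ b := (hb.adj_sub).1
  rcases k with ⟨k1, k2⟩ | ⟨k1, k2⟩ <;> rcases k' with ⟨k3, k4⟩ | ⟨k3, k4⟩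
  · exact hab (by rw [← k2, ← k4])
  · exact hvb (by rw [← k1, ← k3])
  · exact hva (by rw [← k1, ← k3])
  · exact hab (by rw [← k1, ← k3])

end Pool.Agent.H16.FW
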