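import Pool.Agent.H16.FW.Stm

set_option autoImplicit false

namespace Pool.Agent.H16.FW

open Finset Pool.Agent.TH362.TF Pool.Agent.TH362.TF.Four Q116.FF Pool.Agent.H16.FV

theorem lor_bit (a b k : ℕ) : (Nat.lor a b).testBit k = (a.testBit k || b.testBit k) :=
  Nat.testBit_or a b k
theorem land_bit (a b k : ℕ) : (Nat.land a b).testBit k = (a.testBit k && b.testBit k) :=
  Nat.testBit_and a b k
theorem xor_bit (a b k : ℕ) : (Nat.xor a b).testBit k = (a.testBit k ^^ b.testBit k) :=
  Nat.testBit_xor a b k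
theorem shl_bit (a d k : ℕ) : (Nat.shiftLeft a d).testBit k = (decide (d ≤ k) && a.testBit (k - d)) :=
  Nat.testBit_shiftLeft a
theorem shr_bit (a d k : ℕ) : (Nat.shiftRight a d).testBit k = a.testBit (d + k) :=
  Nat.testBit_shiftRight a

/-- the general form of the flips -/
theorem wj_bit (m d : ℕ) (h : ∀ k < 64, (m.testBit k = true → k ^^^ d = d + k) ∧
    (m.testBit k = false → d ≤ k ∧ m.testBit (k - d) = true ∧ k ^^^ d = k - d) ∧
    (m.testBit k = true → d ≤ k → m.testBit (k - d) = false)) (b k : ℕ) (hk : k < 64) :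
    (Nat.lor (Nat.shiftLeft (Nat.land b m) d) (Nat.land (Nat.shiftRight b d) m)).testBit k =
      b.testBit (k ^^^ d) := by
  obtain ⟨h1, h2, h3⟩ := h k hk
  rw [lor_bit, shl_bit, land_bit, land_bit, shr_bit]
  cases hm : m.testBit k
  · obtain ⟨h4, h5, h6⟩ := h2 hm
    rw [h5, h6]
    simp [h4]
  · rw [h1 hm]
    by_cases hd : d ≤ k
    · rw [h3 hm hd]; simp
    · simp [hd]

theorem w0_bit (b k : ℕ) (hk : k < 64) : (w0 b).testBit k = b.testBit (k ^^^ 1) :=
  wj_bit _ 1 (by decide) b k hk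
theorem w1_bit (b k : ℕ) (hk : k < 64) : (w1 b).testBit k = b.testBit (k ^^^ 2) :=
  wj_bit _ 2 (by decide) b k hk
theorem w2_bit (b k : ℕ) (hk : k < 64) : (w2 b).testBit k = b.testBit (k ^^^ 4) :=
  wj_bit _ 4 (by decide) b k hk
theorem w3_bit (b k : ℕ) (hk : k < 64) : (w3 b).testBit k = b.testBit (k ^^^ 8) :=
  wj_bit _ 8 (by decide) b k hk
theorem w4_bit (b k : ℕ) (hk : k < 64) : (w4 b).testBit k = b.testBit (k ^^^ 16) :=
  wj_bit _ 16 (by decide) b k hk
theorem w5_bit (b k : ℕ) (hk : k < 64) : (w5 b).testBit k = b.testBit (k ^^^ 32) :=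
  wj_bit _ 32 (by decide) b k hk

theorem s_step (n m : ℕ) (f : ℕ → ℕ → ℕ → ℕ) (w : ℕ → ℕ) (hm : m < 2 ^ n)
    (hn : ∀ i < n, i ^^^ n = n + i) (hn64 : 2 * n ≤ 64)
    (hf : ∀ r a b k : ℕ, a < 2 ^ n → k < 64 → (f r a b).testBit k = true →
      r.testBit k = true ∨ ∃ i < n, a.testBit i = true ∧ b.testBit (i ^^^ k) = true)
    (hw : ∀ b k : ℕ, k < 64 → (w b).testBit k = b.testBit (k ^^^ n)) (r a b k : ℕ)
    (ha : a < 2 ^ (2 * n)) (hk : k < 64)
    (h : (cond (Nat.beq a 0) r (cond (Nat.beq r 0xFFFFFFFFFFFFFFFF) r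
      (f (f r (Nat.land a m) b) (Nat.shiftRight a n) (w b)))).testBit k = true) :
    r.testBit k = true ∨ ∃ i < 2 * n, a.testBit i = true ∧ b.testBit (i ^^^ k) = true := by
  cases h0 : Nat.beq a 0
  · rw [h0, cond_false] at h
    cases h1 : Nat.beq r 0xFFFFFFFFFFFFFFFF
    · rw [h1, cond_false] at h
      have hs : Nat.shiftRight a n < 2 ^ n := by
        have : a >>> n < 2 ^ n := by
          rw [Nat.shiftRight_eq_div_pow]
          apply Nat.div_lt_of_lt_mul
          rwa [← pow_add, ← two_mul]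
        exact this
      rcases hf _ _ _ k hs hk h with h2 | ⟨i, hi, h3, h4⟩
      · have hl : Nat.land a m < 2 ^ n := lt_of_le_of_lt (show a &&& m ≤ m from Nat.and_le_right) hm
        rcases hf _ _ _ k hl hk h2 with h5 | ⟨i, hi, h3, h4⟩
        · exact Or.inl h5
        · rw [land_bit, Bool.and_eq_true] at h3
          exact Or.inr ⟨i, by omega, h3.1, h4⟩
      · rw [shr_bit] at h3
        have hik : i ^^^ k < 64 := by
          have := @Nat.xor_lt_two_pow i k 6 (by norm_num; omega) (by norm_num; omega)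
          simpa using this
        rw [hw b _ hik] at h4
        refine Or.inr ⟨n + i, by omega, h3, ?_⟩
        rw [← hn i hi, Nat.xor_assoc, Nat.xor_comm n k, ← Nat.xor_assoc]
        exact h4
    · rw [h1, cond_true] at h
      exact Or.inl h
  · rw [h0, cond_true] at h
    exact Or.inl h

theorem s0_bit (r a b k : ℕ) (ha : a < 2 ^ 1) (hk : k < 64) (h : (s0 r a b).testBit k = true) :
    r.testBit k = true ∨ ∃ i < 1, a.testBit i = true ∧ b.testBit (i ^^^ k) = true := by
  unfold s0 at h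
  have : a = 0 ∨ a = 1 := by omega
  rcases this with rfl | rfl
  · exact Or.inl h
  · have h' : (Nat.lor r b).testBit k = true := h
    rw [lor_bit, Bool.or_eq_true] at h'
    rcases h' with h' | h'
    · exact Or.inl h'
    · exact Or.inr ⟨0, by norm_num, by decide, by simpa using h'⟩

theorem s1_bit (r a b k : ℕ) (ha : a < 2 ^ 2) (hk : k < 64) (h : (s1 r a b).testBit k = true) :
    r.testBit k = true ∨ ∃ i < 2, a.testBit i = true ∧ b.testBit (i ^^^ k) = true :=
  s_step 1 1 s0 w0 (by norm_num) (by decide) (by norm_num) s0_bit w0_bit r a b k ha hk h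
theorem s2_bit (r a b k : ℕ) (ha : a < 2 ^ 4) (hk : k < 64) (h : (s2 r a b).testBit k = true) :
    r.testBit k = true ∨ ∃ i < 4, a.testBit i = true ∧ b.testBit (i ^^^ k) = true :=
  s_step 2 3 s1 w1 (by norm_num) (by decide) (by norm_num) s1_bit w1_bit r a b k ha hk h
theorem s3_bit (r a b k : ℕ) (ha : a < 2 ^ 8) (hk : k < 64) (h : (s3 r a b).testBit k = true) :
    r.testBit k = true ∨ ∃ i < 8, a.testBit i = true ∧ b.testBit (i ^^^ k) = true :=
  s_step 4 15 s2 w2 (by norm_num) (by decide) (by norm_num) s2_bit w2_bit r a b k ha hk h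
theorem s4_bit (r a b k : ℕ) (ha : a < 2 ^ 16) (hk : k < 64) (h : (s4 r a b).testBit k = true) :
    r.testBit k = true ∨ ∃ i < 16, a.testBit i = true ∧ b.testBit (i ^^^ k) = true :=
  s_step 8 255 s3 w3 (by norm_num) (by decide) (by norm_num) s3_bit w3_bit r a b k ha hk h
theorem s5_bit (r a b k : ℕ) (ha : a < 2 ^ 32) (hk : k < 64) (h : (s5 r a b).testBit k = true) :
    r.testBit k = true ∨ ∃ i < 32, a.testBit i = true ∧ b.testBit (i ^^^ k) = true :=
  s_step 16 65535 s4 w4 (by norm_num) (by decide) (by norm_num) s4_bit w4_bit r a b k ha hk h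

theorem ss : S_SS := fun r a b k ha hk h =>
  s_step 32 4294967295 s5 w5 (by norm_num) (by decide) (by norm_num) s5_bit w5_bit r a b k ha hk h

end Pool.Agent.H16.FW
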