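import Pool.Agent.H16.FW.NUM
import Pool.Agent.H16.FW.SS

set_option autoImplicit false

namespace Pool.Agent.H16.FW

open Finset Pool.Agent.TH362.TF Pool.Agent.TH362.TF.Four Q116.FF Pool.Agent.H16.FV

theorem xor4 (a b m n : ℕ) (ha : a < 4) (hb : b < 4) :
    (a + 4 * m) ^^^ (b + 4 * n) = (a ^^^ b) + 4 * (m ^^^ n) := by
  have hab : a ^^^ b < 2 ^ 2 := Nat.xor_lt_two_pow (by simpa using ha) (by simpa using hb)
  apply Nat.eq_of_testBit_eq
  intro j
  rw [Nat.testBit_xor, add_comm a, add_comm b, add_comm (a ^^^ b)]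
  have h1 := Nat.testBit_two_pow_mul_add m (i := 2) (b := a) (by simpa using ha) j
  have h2 := Nat.testBit_two_pow_mul_add n (i := 2) (b := b) (by simpa using hb) j
  have h3 := Nat.testBit_two_pow_mul_add (m ^^^ n) (i := 2) hab j
  have e : (2 : ℕ) ^ 2 = 4 := by norm_num
  rw [e] at h1 h2 h3
  rw [h1, h2, h3]
  split_ifs
  · rw [Nat.testBit_xor]
  · rw [Nat.testBit_xor]

theorem cd_add : ∀ a b : F, cd (a + b) = cd a ^^^ cd b := by decide

theorem code_add (p q : Fin 4 → F) : code (p + q) = code p ^^^ code q := by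
  have e : ∀ p : Fin 4 → F, code p = cd (p 0) + 4 * (cd (p 1) + 4 * cd (p 2)) := by
    intro p; unfold code; ring
  rw [e, e, e, xor4 _ _ _ _ (cd_lt _) (cd_lt _), xor4 _ _ _ _ (cd_lt _) (cd_lt _),
    Pi.add_apply, Pi.add_apply, Pi.add_apply, cd_add, cd_add, cd_add]

theorem g12_add : ∀ a b : F, g12 (a + b) = g12 a + g12 b := by decide
theorem g13_add : ∀ a b : F, g13 (a + b) = g13 a + g13 b := by decide
theorem g23_add : ∀ a b : F, g23 (a + b) = g23 a + g23 b := by decide
theorem g12_g12 : ∀ a : F, g12 (g12 a) = a := by decide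
theorem g13_g13 : ∀ a : F, g13 (g13 a) = a := by decide
theorem g23_g23 : ∀ a : F, g23 (g23 a) = a := by decide

theorem g12_sum (p : Fin 4 → F) : ∑ i, g12 (p i) = g12 (∑ i, p i) := by
  rw [Fin.sum_univ_four, Fin.sum_univ_four, g12_add, g12_add, g12_add]
theorem g13_sum (p : Fin 4 → F) : ∑ i, g13 (p i) = g13 (∑ i, p i) := by
  rw [Fin.sum_univ_four, Fin.sum_univ_four, g13_add, g13_add, g13_add]
theorem g23_sum (p : Fin 4 → F) : ∑ i, g23 (p i) = g23 (∑ i, p i) := by
  rw [Fin.sum_univ_four, Fin.sum_univ_four, g23_add, g23_add, g23_add]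

theorem sum_ad (p q : Fin 4 → F) : ∑ i, (p + q) i = ∑ i, p i + ∑ i, q i := by
  simp only [Pi.add_apply, sum_add_distrib]

theorem add_ad (p q : Fin 4 → F) : p + q + p = q := by
  funext i
  simp only [Pi.add_apply]
  rw [add_comm (p i) (q i), add_assoc, F_add_self, add_zero]

/-- membership in a sumset -/
theorem s6_mem (hss : S_SS) {r a b : ℕ} (ha : a < 2 ^ 64) (v : Fin 4 → F) (c : F)
    (h : (s6 r a b).testBit (code v) = true) : r.testBit (code v) = true ∨
    ∃ p : Fin 4 → F, ∑ i, p i = c ∧ ∑ i, (p + v) i = c + ∑ i, v i ∧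
      a.testBit (code p) = true ∧ b.testBit (code (p + v)) = true := by
  rcases hss r a b (code v) ha (code_lt v) h with h | ⟨i, hi, h1, h2⟩
  · exact Or.inl h
  · refine Or.inr ⟨vec c i, vec_sum c i, ?_, ?_, ?_⟩
    · rw [sum_ad, vec_sum]
    · rw [vec_code c i hi]; exact h1
    · rw [code_add, vec_code c i hi]; exact h2

theorem att_sound : S_ATT := by
  intro hss htau R R' Q hR hR' hQ H p t h0 h1 ht
  obtain ⟨t12, t13, t23, tb, ts⟩ := htau
  have key0 : ∀ v : Fin 4 → F, ∑ i, v i = 0 → (s6 0 t.q p.q1).testBit (code v) = true → Q 0 v := by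
    intro v hv h
    rcases s6_mem hss ht.1 v (1, 0) h with h | ⟨a, s1, s2, b1, b2⟩
    · simp at h
    · have k1 := ht.2 a s1 b1
      rw [hv, add_zero] at s2
      have k2 := h1.2 (a + v) s2 b2
      have := H (1, 0) (1, 0) (a + v) a (by decide) k2 k1
      rw [add_ad, F_add_self] at this
      exact this
  have keyz : ∀ v : Fin 4 → F, ∑ i, v i = (1, 0) →
      (s6 0 (r12 t.q) (r13 p.q1)).testBit (code v) = true → Q (1, 0) v := by
    intro v hv h
    rcases s6_mem hss (tb t.q ht.1).1 v (0, 1) h with h | ⟨a, s1, s2, b1, b2⟩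
    · simp at h
    · rw [t12] at b1
      rw [t13] at b2
      have k1 := (hR' _ _ (ht.2 (fun i => g12 (a i)) (by rw [g12_sum, s1]; decide) b1)).1
      have k2 := (hR _ _ (h1.2 (fun i => g13 ((a + v) i))
        (by rw [g13_sum, s2, hv]; decide) b2)).2.1
      simp only [g12_g12] at k1
      simp only [g13_g13] at k2
      have := H _ _ (a + v) a (by decide) k2 k1
      rw [add_ad] at this
      have e : g13 (1, 0) + g12 (1, 0) = ((1, 0) : F) := by decide
      rw [e] at this
      exact this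
  have hq1 := h1.1
  have by0 : s6 0 t.q p.q1 < 2 ^ 64 := ts _ _ _ (by norm_num) h1.1
  have bz : s6 0 (r12 t.q) (r13 p.q1) < 2 ^ 64 := ts _ _ _ (by norm_num) (tb _ h1.1).2.1
  refine ⟨⟨?_, ?_⟩, ⟨?_, ?_⟩⟩
  · exact Nat.or_lt_two_pow by0 (Nat.or_lt_two_pow (tb _ by0).1 (tb _ by0).2.1)
  · intro v hv h
    have h' : (Nat.lor (s6 0 t.q p.q1) (Nat.lor (r12 (s6 0 t.q p.q1))
      (r13 (s6 0 t.q p.q1)))).testBit (code v) = true := h
    rw [lor_bit, lor_bit, Bool.or_eq_true, Bool.or_eq_true, t12, t13] at h'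
    rcases h' with h' | h' | h'
    · exact key0 v hv h'
    · have := (hQ _ _ (key0 (fun i => g12 (v i)) (by rw [g12_sum, hv]; decide) h')).1
      simp only [g12_g12] at this
      exact this
    · have := (hQ _ _ (key0 (fun i => g13 (v i)) (by rw [g13_sum, hv]; decide) h')).2.1
      simp only [g13_g13] at this
      exact this
  · exact ts _ _ _ (Nat.or_lt_two_pow bz (tb _ bz).2.2) h0.1
  · intro v hv h
    rcases s6_mem hss ht.1 v (1, 0) h with h | ⟨a, s1, s2, b1, b2⟩
    · have h' : (Nat.lor (s6 0 (r12 t.q) (r13 p.q1))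
        (r23 (s6 0 (r12 t.q) (r13 p.q1)))).testBit (code v) = true := h
      rw [lor_bit, Bool.or_eq_true, t23] at h'
      rcases h' with h' | h'
      · exact keyz v hv h'
      · have := (hQ _ _ (keyz (fun i => g23 (v i)) (by rw [g23_sum, hv]; decide) h')).2.2
        simp only [g23_g23] at this
        exact this
    · have k1 := ht.2 a s1 b1
      rw [hv, F_add_self] at s2
      have k2 := h0.2 (a + v) s2 b2
      have := H 0 (1, 0) (a + v) a (by decide) k2 k1
      rw [add_ad, zero_add] at this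
      exact this

end Pool.Agent.H16.FW
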