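import Mathlib.Tactic.IntervalCases
import Pool.Agent.H16.FW.K.K0
import Pool.Agent.H16.FW.K.K1
import Pool.Agent.H16.FW.K.K2
import Pool.Agent.H16.FW.K.K3
import Pool.Agent.H16.FW.K.K4
import Pool.Agent.H16.FW.K.K5
import Pool.Agent.H16.FW.K.K6
import Pool.Agent.H16.FW.K.K7
import Pool.Agent.H16.FW.K.K8
import Pool.Agent.H16.FW.K.K9
import Pool.Agent.H16.FW.K.K10
import Pool.Agent.H16.FW.K.K11
import Pool.Agent.H16.FW.K.K12
import Pool.Agent.H16.FW.K.K13
import Pool.Agent.H16.FW.K.K14
import Pool.Agent.H16.FW.K.K15
import Pool.Agent.H16.FW.K.K16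

/-!
# PROJECT FW: the kernel check of all sets of labels
-/

set_option autoImplicit false

namespace Pool.Agent.H16.FW

theorem lpn_add (f : P → List T → Bool) (p : P) (m : Nat) : ∀ (n : Nat) (l : List T),
    lpn f p n l = true → lpn f p m (l.drop n) = true → lpn f p (n + m) l = true
  | 0, l, _, h => by
    rw [Nat.zero_add]
    exact h
  | n + 1, [], _, _ => by
    rw [Nat.add_right_comm]
    rfl
  | n + 1, t :: r, h1, h2 => by
    rw [Nat.add_right_comm]
    have h3 : and (cond (cmp p t) (f (att p t) (t :: r)) true) (lpn f p n r) = true := h1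
    rw [Bool.and_eq_true] at h3
    show and (cond (cmp p t) (f (att p t) (t :: r)) true) (lpn f p (n + m) r) = true
    rw [Bool.and_eq_true]
    exact ⟨h3.1, lpn_add f p m n r h3.2 h2⟩

theorem l_0 : lpn (chk TL 504 5) (bas 0) 504 TL = true := by
  have h461 : lpn (chk TL 504 5) (bas 0) 43 (TL.drop 461) = true := k_0_461
  have h427 : lpn (chk TL 504 5) (bas 0) 77 (TL.drop 427) = true := by
    have h := lpn_add (chk TL 504 5) (bas 0) 43 34 (TL.drop 427) k_0_427 (by
      rw [List.drop_drop]; exact h461)
    exact h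
  have h397 : lpn (chk TL 504 5) (bas 0) 107 (TL.drop 397) = true := by
    have h := lpn_add (chk TL 504 5) (bas 0) 77 30 (TL.drop 397) k_0_397 (by
      rw [List.drop_drop]; exact h427)
    exact h
  have h371 : lpn (chk TL 504 5) (bas 0) 133 (TL.drop 371) = true := by
    have h := lpn_add (chk TL 504 5) (bas 0) 107 26 (TL.drop 371) k_0_371 (by
      rw [List.drop_drop]; exact h397)
    exact h
  have h365 : lpn (chk TL 504 5) (bas 0) 139 (TL.drop 365) = true := by
    have h := lpn_add (chk TL 504 5) (bas 0) 133 6 (TL.drop 365) k_0_365 (by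
      rw [List.drop_drop]; exact h371)
    exact h
  have h359 : lpn (chk TL 504 5) (bas 0) 145 (TL.drop 359) = true := by
    have h := lpn_add (chk TL 504 5) (bas 0) 139 6 (TL.drop 359) k_0_359 (by
      rw [List.drop_drop]; exact h365)
    exact h
  have h353 : lpn (chk TL 504 5) (bas 0) 151 (TL.drop 353) = true := by
    have h := lpn_add (chk TL 504 5) (bas 0) 145 6 (TL.drop 353) k_0_353 (by
      rw [List.drop_drop]; exact h359)
    exact h
  have h345 : lpn (chk TL 504 5) (bas 0) 159 (TL.drop 345) = true := by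
    have h := lpn_add (chk TL 504 5) (bas 0) 151 8 (TL.drop 345) k_0_345 (by
      rw [List.drop_drop]; exact h353)
    exact h
  have h333 : lpn (chk TL 504 5) (bas 0) 171 (TL.drop 333) = true := by
    have h := lpn_add (chk TL 504 5) (bas 0) 159 12 (TL.drop 333) k_0_333 (by
      rw [List.drop_drop]; exact h345)
    exact h
  have h323 : lpn (chk TL 504 5) (bas 0) 181 (TL.drop 323) = true := by
    have h := lpn_add (chk TL 504 5) (bas 0) 171 10 (TL.drop 323) k_0_323 (by
      rw [List.drop_drop]; exact h333)
    exact h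
  have h313 : lpn (chk TL 504 5) (bas 0) 191 (TL.drop 313) = true := by
    have h := lpn_add (chk TL 504 5) (bas 0) 181 10 (TL.drop 313) k_0_313 (by
      rw [List.drop_drop]; exact h323)
    exact h
  have h293 : lpn (chk TL 504 5) (bas 0) 211 (TL.drop 293) = true := by
    have h := lpn_add (chk TL 504 5) (bas 0) 191 20 (TL.drop 293) k_0_293 (by
      rw [List.drop_drop]; exact h313)
    exact h
  have h282 : lpn (chk TL 504 5) (bas 0) 222 (TL.drop 282) = true := by
    have h := lpn_add (chk TL 504 5) (bas 0) 211 11 (TL.drop 282) k_0_282 (by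
      rw [List.drop_drop]; exact h293)
    exact h
  have h271 : lpn (chk TL 504 5) (bas 0) 233 (TL.drop 271) = true := by
    have h := lpn_add (chk TL 504 5) (bas 0) 222 11 (TL.drop 271) k_0_271 (by
      rw [List.drop_drop]; exact h282)
    exact h
  have h259 : lpn (chk TL 504 5) (bas 0) 245 (TL.drop 259) = true := by
    have h := lpn_add (chk TL 504 5) (bas 0) 233 12 (TL.drop 259) k_0_259 (by
      rw [List.drop_drop]; exact h271)
    exact h
  have h247 : lpn (chk TL 504 5) (bas 0) 257 (TL.drop 247) = true := by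
    have h := lpn_add (chk TL 504 5) (bas 0) 245 12 (TL.drop 247) k_0_247 (by
      rw [List.drop_drop]; exact h259)
    exact h
  have h235 : lpn (chk TL 504 5) (bas 0) 269 (TL.drop 235) = true := by
    have h := lpn_add (chk TL 504 5) (bas 0) 257 12 (TL.drop 235) k_0_235 (by
      rw [List.drop_drop]; exact h247)
    exact h
  have h226 : lpn (chk TL 504 5) (bas 0) 278 (TL.drop 226) = true := by
    have h := lpn_add (chk TL 504 5) (bas 0) 269 9 (TL.drop 226) k_0_226 (by
      rw [List.drop_drop]; exact h235)
    exact h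
  have h221 : lpn (chk TL 504 5) (bas 0) 283 (TL.drop 221) = true := by
    have h := lpn_add (chk TL 504 5) (bas 0) 278 5 (TL.drop 221) k_0_221 (by
      rw [List.drop_drop]; exact h226)
    exact h
  have h216 : lpn (chk TL 504 5) (bas 0) 288 (TL.drop 216) = true := by
    have h := lpn_add (chk TL 504 5) (bas 0) 283 5 (TL.drop 216) k_0_216 (by
      rw [List.drop_drop]; exact h221)
    exact h
  have h211 : lpn (chk TL 504 5) (bas 0) 293 (TL.drop 211) = true := by
    have h := lpn_add (chk TL 504 5) (bas 0) 288 5 (TL.drop 211) k_0_211 (by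
      rw [List.drop_drop]; exact h216)
    exact h
  have h206 : lpn (chk TL 504 5) (bas 0) 298 (TL.drop 206) = true := by
    have h := lpn_add (chk TL 504 5) (bas 0) 293 5 (TL.drop 206) k_0_206 (by
      rw [List.drop_drop]; exact h211)
    exact h
  have h195 : lpn (chk TL 504 5) (bas 0) 309 (TL.drop 195) = true := by
    have h := lpn_add (chk TL 504 5) (bas 0) 298 11 (TL.drop 195) k_0_195 (by
      rw [List.drop_drop]; exact h206)
    exact h
  have h179 : lpn (chk TL 504 5) (bas 0) 325 (TL.drop 179) = true := by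
    have h := lpn_add (chk TL 504 5) (bas 0) 309 16 (TL.drop 179) k_0_179 (by
      rw [List.drop_drop]; exact h195)
    exact h
  have h170 : lpn (chk TL 504 5) (bas 0) 334 (TL.drop 170) = true := by
    have h := lpn_add (chk TL 504 5) (bas 0) 325 9 (TL.drop 170) k_0_170 (by
      rw [List.drop_drop]; exact h179)
    exact h
  have h151 : lpn (chk TL 504 5) (bas 0) 353 (TL.drop 151) = true := by
    have h := lpn_add (chk TL 504 5) (bas 0) 334 19 (TL.drop 151) k_0_151 (by
      rw [List.drop_drop]; exact h170)
    exact h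
  have h133 : lpn (chk TL 504 5) (bas 0) 371 (TL.drop 133) = true := by
    have h := lpn_add (chk TL 504 5) (bas 0) 353 18 (TL.drop 133) k_0_133 (by
      rw [List.drop_drop]; exact h151)
    exact h
  have h116 : lpn (chk TL 504 5) (bas 0) 388 (TL.drop 116) = true := by
    have h := lpn_add (chk TL 504 5) (bas 0) 371 17 (TL.drop 116) k_0_116 (by
      rw [List.drop_drop]; exact h133)
    exact h
  have h97 : lpn (chk TL 504 5) (bas 0) 407 (TL.drop 97) = true := by
    have h := lpn_add (chk TL 504 5) (bas 0) 388 19 (TL.drop 97) k_0_97 (by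
      rw [List.drop_drop]; exact h116)
    exact h
  have h77 : lpn (chk TL 504 5) (bas 0) 427 (TL.drop 77) = true := by
    have h := lpn_add (chk TL 504 5) (bas 0) 407 20 (TL.drop 77) k_0_77 (by
      rw [List.drop_drop]; exact h97)
    exact h
  have h60 : lpn (chk TL 504 5) (bas 0) 444 (TL.drop 60) = true := by
    have h := lpn_add (chk TL 504 5) (bas 0) 427 17 (TL.drop 60) k_0_60 (by
      rw [List.drop_drop]; exact h77)
    exact h
  have h46 : lpn (chk TL 504 5) (bas 0) 458 (TL.drop 46) = true := by
    have h := lpn_add (chk TL 504 5) (bas 0) 444 14 (TL.drop 46) k_0_46 (by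
      rw [List.drop_drop]; exact h60)
    exact h
  have h32 : lpn (chk TL 504 5) (bas 0) 472 (TL.drop 32) = true := by
    have h := lpn_add (chk TL 504 5) (bas 0) 458 14 (TL.drop 32) k_0_32 (by
      rw [List.drop_drop]; exact h46)
    exact h
  have h17 : lpn (chk TL 504 5) (bas 0) 487 (TL.drop 17) = true := by
    have h := lpn_add (chk TL 504 5) (bas 0) 472 15 (TL.drop 17) k_0_17 (by
      rw [List.drop_drop]; exact h32)
    exact h
  have h0 : lpn (chk TL 504 5) (bas 0) 504 (TL.drop 0) = true := by
    have h := lpn_add (chk TL 504 5) (bas 0) 487 17 (TL.drop 0) k_0_0 (by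
      rw [List.drop_drop]; exact h17)
    exact h
  exact h0

theorem a_0 : chk TL 504 6 (bas 0) TL = true := by
  show and (okc TL (bas 0)) (or (fat (bas 0)) (lpn (chk TL 504 5) (bas 0) 504 TL)) = true
  rw [l_0, Bool.or_true, Bool.and_true]
  decide +kernel

theorem l_1 : lpn (chk TL 504 5) (bas 1) 504 TL = true := by
  have h358 : lpn (chk TL 504 5) (bas 1) 146 (TL.drop 358) = true := k_1_358
  have h243 : lpn (chk TL 504 5) (bas 1) 261 (TL.drop 243) = true := by
    have h := lpn_add (chk TL 504 5) (bas 1) 146 115 (TL.drop 243) k_1_243 (by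
      rw [List.drop_drop]; exact h358)
    exact h
  have h137 : lpn (chk TL 504 5) (bas 1) 367 (TL.drop 137) = true := by
    have h := lpn_add (chk TL 504 5) (bas 1) 261 106 (TL.drop 137) k_1_137 (by
      rw [List.drop_drop]; exact h243)
    exact h
  have h0 : lpn (chk TL 504 5) (bas 1) 504 (TL.drop 0) = true := by
    have h := lpn_add (chk TL 504 5) (bas 1) 367 137 (TL.drop 0) k_1_0 (by
      rw [List.drop_drop]; exact h137)
    exact h
  exact h0

theorem a_1 : chk TL 504 6 (bas 1) TL = true := by
  show and (okc TL (bas 1)) (or (fat (bas 1)) (lpn (chk TL 504 5) (bas 1) 504 TL)) = true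
  rw [l_1, Bool.or_true, Bool.and_true]
  decide +kernel

theorem l_2 : lpn (chk TL 504 5) (bas 2) 504 TL = true := by
  have h352 : lpn (chk TL 504 5) (bas 2) 152 (TL.drop 352) = true := k_2_352
  have h233 : lpn (chk TL 504 5) (bas 2) 271 (TL.drop 233) = true := by
    have h := lpn_add (chk TL 504 5) (bas 2) 152 119 (TL.drop 233) k_2_233 (by
      rw [List.drop_drop]; exact h352)
    exact h
  have h137 : lpn (chk TL 504 5) (bas 2) 367 (TL.drop 137) = true := by
    have h := lpn_add (chk TL 504 5) (bas 2) 271 96 (TL.drop 137) k_2_137 (by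
      rw [List.drop_drop]; exact h233)
    exact h
  have h0 : lpn (chk TL 504 5) (bas 2) 504 (TL.drop 0) = true := by
    have h := lpn_add (chk TL 504 5) (bas 2) 367 137 (TL.drop 0) k_2_0 (by
      rw [List.drop_drop]; exact h137)
    exact h
  exact h0

theorem a_2 : chk TL 504 6 (bas 2) TL = true := by
  show and (okc TL (bas 2)) (or (fat (bas 2)) (lpn (chk TL 504 5) (bas 2) 504 TL)) = true
  rw [l_2, Bool.or_true, Bool.and_true]
  decide +kernel

theorem l_4 : lpn (chk TL 504 5) (bas 4) 504 TL = true := by
  have h350 : lpn (chk TL 504 5) (bas 4) 154 (TL.drop 350) = true := k_4_350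
  have h232 : lpn (chk TL 504 5) (bas 4) 272 (TL.drop 232) = true := by
    have h := lpn_add (chk TL 504 5) (bas 4) 154 118 (TL.drop 232) k_4_232 (by
      rw [List.drop_drop]; exact h350)
    exact h
  have h131 : lpn (chk TL 504 5) (bas 4) 373 (TL.drop 131) = true := by
    have h := lpn_add (chk TL 504 5) (bas 4) 272 101 (TL.drop 131) k_4_131 (by
      rw [List.drop_drop]; exact h232)
    exact h
  have h0 : lpn (chk TL 504 5) (bas 4) 504 (TL.drop 0) = true := by
    have h := lpn_add (chk TL 504 5) (bas 4) 373 131 (TL.drop 0) k_4_0 (by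
      rw [List.drop_drop]; exact h131)
    exact h
  exact h0

theorem a_4 : chk TL 504 6 (bas 4) TL = true := by
  show and (okc TL (bas 4)) (or (fat (bas 4)) (lpn (chk TL 504 5) (bas 4) 504 TL)) = true
  rw [l_4, Bool.or_true, Bool.and_true]
  decide +kernel

theorem l_8 : lpn (chk TL 504 5) (bas 8) 504 TL = true := by
  have h351 : lpn (chk TL 504 5) (bas 8) 153 (TL.drop 351) = true := k_8_351
  have h234 : lpn (chk TL 504 5) (bas 8) 270 (TL.drop 234) = true := by
    have h := lpn_add (chk TL 504 5) (bas 8) 153 117 (TL.drop 234) k_8_234 (by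
      rw [List.drop_drop]; exact h351)
    exact h
  have h131 : lpn (chk TL 504 5) (bas 8) 373 (TL.drop 131) = true := by
    have h := lpn_add (chk TL 504 5) (bas 8) 270 103 (TL.drop 131) k_8_131 (by
      rw [List.drop_drop]; exact h234)
    exact h
  have h0 : lpn (chk TL 504 5) (bas 8) 504 (TL.drop 0) = true := by
    have h := lpn_add (chk TL 504 5) (bas 8) 373 131 (TL.drop 0) k_8_0 (by
      rw [List.drop_drop]; exact h131)
    exact h
  exact h0

theorem a_8 : chk TL 504 6 (bas 8) TL = true := by
  show and (okc TL (bas 8)) (or (fat (bas 8)) (lpn (chk TL 504 5) (bas 8) 504 TL)) = true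
  rw [l_8, Bool.or_true, Bool.and_true]
  decide +kernel

theorem a_3 : chk TL 504 6 (bas 3) TL = true := by decide +kernel

theorem a_5 : chk TL 504 6 (bas 5) TL = true := by decide +kernel

theorem a_6 : chk TL 504 6 (bas 6) TL = true := by decide +kernel

theorem a_7 : chk TL 504 6 (bas 7) TL = true := by decide +kernel

theorem a_9 : chk TL 504 6 (bas 9) TL = true := by decide +kernel

theorem a_10 : chk TL 504 6 (bas 10) TL = true := by decide +kernel

theorem a_11 : chk TL 504 6 (bas 11) TL = true := by decide +kernel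

theorem a_12 : chk TL 504 6 (bas 12) TL = true := by decide +kernel

theorem a_13 : chk TL 504 6 (bas 13) TL = true := by decide +kernel

theorem a_14 : chk TL 504 6 (bas 14) TL = true := by decide +kernel

theorem a_15 : chk TL 504 6 (bas 15) TL = true := by decide +kernel

/-- all checks -/
theorem all : ∀ L < 16, chk TL 504 6 (bas L) TL = true := by
  intro L hL
  interval_cases L
  · exact a_0
  · exact a_1
  · exact a_2
  · exact a_3
  · exact a_4
  · exact a_5
  · exact a_6
  · exact a_7
  · exact a_8
  · exact a_9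
  · exact a_10
  · exact a_11
  · exact a_12
  · exact a_13
  · exact a_14
  · exact a_15

end Pool.Agent.H16.FW
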