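import Pool.Agent.H16.FW.H73

/-!
# PROJECT FW: S_BASE (helper73)
-/

set_option autoImplicit false

namespace Pool.Agent.H16.FW

open Finset Pool.Agent.TH362.TF Pool.Agent.TH362.TF.Four Q116.FF Pool.Agent.H16.FV
open H73

theorem base : S_BASE := by
  classical
  intro V E _ _ _ s t S x hx hpar v c p hxv hLa hsum
  have hA : ∀ i, x i ∉ ({v} : Finset V) := fun i h => hxv i (Finset.mem_singleton.1 h)
  set ψ : E → F := fun e => ∑ i, if Ends s t v (x i) e then p i else 0 with hψ
  -- the value of an edge between `v` and `x i`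
  have hval : ∀ e i, Ends s t v (x i) e → ψ e = p i := by
    intro e i hE
    simp only [hψ]
    rw [Finset.sum_eq_single i]
    · rw [if_pos hE]
    · intro j _ hj
      rw [if_neg]
      intro hE'
      apply hj
      apply hx
      rcases hE with ⟨h1, h2⟩ | ⟨h1, h2⟩
      · rcases hE' with ⟨h3, h4⟩ | ⟨h3, h4⟩
        · exact h4.symm.trans h2
        · exact absurd (h4.symm.trans h2).symm (hxv i)
      · rcases hE' with ⟨h3, h4⟩ | ⟨h3, h4⟩
        · exact absurd (h1.symm.trans h3) (hxv i)
        · exact h3.symm.trans h1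
    · intro h
      exact absurd (Finset.mem_univ i) h
  have hmem : ∀ e ∈ CA s t S x {v}, ∃ i, Ends s t v (x i) e := by
    intro e he
    rw [mem_CA] at he
    obtain ⟨hS, hne, h1, h2, h3⟩ := he
    simp only [Finset.mem_singleton] at h1 h2 h3
    rcases h1 with h1 | h1
    · rcases h3 with h3 | h3
      · exact absurd (h1.trans h3.symm) hne
      · obtain ⟨i, -, hi⟩ := Finset.mem_image.1 h3
        exact ⟨i, Or.inl ⟨h1, hi.symm⟩⟩
    · rcases h2 with h2 | h2
      · exact absurd (h2.trans h1.symm) hne
      · obtain ⟨i, -, hi⟩ := Finset.mem_image.1 h2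
        exact ⟨i, Or.inr ⟨hi.symm, h1⟩⟩
  have hhub : ∀ i, B s t (CA s t S x {v}) ψ (x i) = p i := by
    intro i
    -- the edges of `CA {v}` at `x i` are the edges between `v` and `x i`
    have hat : ∀ e ∈ CA s t S x {v}, (s e = x i ∨ t e = x i) → Ends s t v (x i) e := by
      intro e he hh
      obtain ⟨j, hj⟩ := hmem e he
      have hji : j = i := by
        apply hx
        rcases hj with ⟨h1, h2⟩ | ⟨h1, h2⟩
        · rcases hh with hh | hh
          · exact absurd (hh.symm.trans h1) (hxv i)
          · exact h2.symm.trans hh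
        · rcases hh with hh | hh
          · exact h1.symm.trans hh
          · exact absurd (hh.symm.trans h2) (hxv i)
      rw [← hji]
      exact hj
    by_cases hL : La s t S x v i
    · obtain ⟨e₀, he₀S, he₀⟩ := hL
      have hne : v ≠ x i := (hxv i).symm
      have hxi : x i ∈ univ.image x := Finset.mem_image_of_mem x (Finset.mem_univ i)
      have hvv : v ∈ ({v} : Finset V) := Finset.mem_singleton_self v
      have he₀CA : e₀ ∈ CA s t S x {v} := by
        rw [mem_CA]
        rcases he₀ with ⟨h5, h6⟩ | ⟨h5, h6⟩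
        · rw [h5, h6]
          exact ⟨he₀S, hne, Or.inl hvv, Or.inl hvv, Or.inr hxi⟩
        · rw [h5, h6]
          exact ⟨he₀S, hne.symm, Or.inr hvv, Or.inr hxi, Or.inl hvv⟩
      rw [B_one he₀CA (mem_CA.1 he₀CA).2.1, hval e₀ i he₀]
      · rcases he₀ with ⟨h5, h6⟩ | ⟨h5, h6⟩
        · exact Or.inr h6
        · exact Or.inl h5
      · intro e he hee
        have hno : ¬ (s e = x i ∨ t e = x i) := by
          intro hh
          exact hee (hpar v (x i) e e₀ hne (mem_CA.1 he).1 he₀S (hat e he hh) he₀)
        tauto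
    · have hp : p i = 0 := by
        by_contra h
        exact hL ((hLa i).2 h)
      rw [hp]
      refine B_zero fun e he => ?_
      have hno : ¬ (s e = x i ∨ t e = x i) := fun hh => hL ⟨e, (mem_CA.1 he).1, hat e he hh⟩
      tauto
  refine ⟨ψ, ?_, ?_, hhub⟩
  · intro e he
    obtain ⟨i, hi⟩ := hmem e he
    rw [hval e i hi]
    exact (hLa i).1 ⟨e, (mem_CA.1 he).1, hi⟩
  · intro u hu
    have h := total (s := s) (t := t) (S := S) hx hA ψ
    rw [Finset.sum_singleton, Finset.sum_congr rfl (fun i _ => hhub i), hsum] at h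
    rw [Finset.mem_singleton.1 hu]
    unfold pt
    rw [if_pos rfl]
    exact (F_eq_of_add h).symm

end Pool.Agent.H16.FW
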