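import Pool.Agent.H16.FW.Shp

/-!
FW-BLF: five vertices meet all circuits of the Blanusa snark.
-/

set_option autoImplicit false

namespace Pool.Agent.H16.FW

open Finset Pool.Agent.TH362 Pool.Agent.TH362.TF Pool.Agent.TH362.TF.Four Q116.FF
  Pool.Agent.H16.FV

/-- a leaf -/
theorem blf_leaf (C : Finset (Fin 27)) (hC : ∀ v, Even (dg bls blt C v)) (v : Fin 18) (e : Fin 27)
    (he : bls e = v ∨ blt e = v) (h : ∀ f, (bls f = v ∨ blt f = v) → f ≠ e → f ∉ C) : e ∉ C := by
  intro heC
  have hl : ∀ e, bls e ≠ blt e := by decide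
  have h1 : dg bls blt C v = 1 := by
    unfold dg
    rw [Finset.sum_eq_single_of_mem e heC]
    · rcases he with he | he
      · rw [if_pos he, if_neg (fun h2 => hl e (he.trans h2.symm))]
      · rw [if_pos he, if_neg (fun h2 => hl e (h2.trans he.symm))]
    · intro f hf hfe
      have h2 : ¬ (bls f = v ∨ blt f = v) := fun h3 => h f h3 hfe hf
      rw [if_neg (fun h3 => h2 (Or.inl h3)), if_neg (fun h3 => h2 (Or.inr h3))]
      rfl
  have h2 := hC v
  rw [h1] at h2
  exact absurd h2 (by decide)

theorem blf : S_BLF := by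
  intro C hne hC
  by_contra hno
  push Not at hno
  have hX : ∀ f, (bls f ∈ ({0, 1, 8, 10, 16} : Finset (Fin 18)) ∨
      blt f ∈ ({0, 1, 8, 10, 16} : Finset (Fin 18))) → f ∉ C := by
    rintro f (h | h) hf
    · exact (hno f hf).1 h
    · exact (hno f hf).2 h
  have leaf := blf_leaf C hC
  -- the edges that touch the five vertices
  have x0 := hX 0 (by decide)
  have x2 := hX 2 (by decide)
  have x4 := hX 4 (by decide)
  have x6 := hX 6 (by decide)
  have x8 := hX 8 (by decide)
  have x9 := hX 9 (by decide)
  have x11 := hX 11 (by decide)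
  have x13 := hX 13 (by decide)
  have x16 := hX 16 (by decide)
  have x18 := hX 18 (by decide)
  have x20 := hX 20 (by decide)
  have x21 := hX 21 (by decide)
  have x23 := hX 23 (by decide)
  have x24 := hX 24 (by decide)
  have x25 := hX 25 (by decide)
  have red : ∀ (v : Fin 18) (e f g : Fin 27), (bls e = v ∨ blt e = v) →
      (∀ k, (bls k = v ∨ blt k = v) → k = e ∨ k = f ∨ k = g) → f ∉ C → g ∉ C → e ∉ C := by
    intro v e f g he hk hf hg
    refine leaf v e he fun k hkv hke => ?_
    rcases hk k hkv with rfl | rfl | rfl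
    · exact absurd rfl hke
    · exact hf
    · exact hg
  have x10 := red 2 10 0 25 (by decide) (by decide) x0 x25
  have x3 := red 5 3 6 8 (by decide) (by decide) x6 x8
  have x7 := red 6 7 4 9 (by decide) (by decide) x4 x9
  have x5 := red 7 5 3 10 (by decide) (by decide) x3 x10
  have x12 := red 9 12 5 7 (by decide) (by decide) x5 x7
  have x1 := red 4 1 2 12 (by decide) (by decide) x2 x12
  have x26 := red 3 26 1 11 (by decide) (by decide) x1 x11
  have x14 := red 11 14 13 21 (by decide) (by decide) x13 x21
  have x22 := red 12 22 14 23 (by decide) (by decide) x14 x23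
  have x15 := red 13 15 18 24 (by decide) (by decide) x18 x24
  have x17 := red 15 17 15 20 (by decide) (by decide) x15 x20
  have x19 := red 17 19 17 22 (by decide) (by decide) x17 x22
  obtain ⟨e, he⟩ := hne
  fin_cases e <;> contradiction

end Pool.Agent.H16.FW
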