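import Pool.Agent.H16.FW.Shp

/-!
FW-BLI: the Blanusa snark has no isthmus, by a flow with values in a group of order 2^8.
-/

set_option autoImplicit false

namespace Pool.Agent.H16.FW

open Finset Pool.Agent.TH362 Pool.Agent.TH362.TF Pool.Agent.TH362.TF.Four Q116.FF
  Pool.Agent.H16.FV

/-- labels of the edges of the Blanusa snark: a flow with values in the group of order 2^8 -/
def blab : Fin 27 → ℕ :=
  ![172, 109, 152, 58, 75, 142, 54, 123, 12, 48, 180, 125, 245, 98, 33, 252, 35, 134, 96, 51, 122,
    67, 181, 148, 156, 24, 16]

/-- the bits of the labels -/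
def blb (i : Fin 8) (e : Fin 27) : Bool := (blab e).testBit i

theorem blb_odd : ∀ i, odd bls blt (univ.filter (fun e => blb i e = true)) = ∅ := by
  decide +kernel

/-- a cut of the Blanusa snark contains an even number of edges with the bit `i` -/
theorem blb_cut (x : Fin 18 → Bool) (i : Fin 8) :
    ((cut bls blt univ x).filter (fun e => blb i e = true)).card % 2 = 0 := by
  have h1 := parity bls blt (univ.filter (fun e => blb i e = true)) x
  rw [blb_odd i, Finset.filter_empty, Finset.card_empty] at h1
  have h2 : cut bls blt (univ.filter (fun e => blb i e = true)) x =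
      (cut bls blt univ x).filter (fun e => blb i e = true) := by
    unfold cut
    rw [Finset.filter_filter, Finset.filter_filter]
    refine Finset.filter_congr fun e _ => ?_
    rw [and_comm]
  rw [← h2, ← h1]

theorem bli : S_BLI := by
  intro x hx
  obtain ⟨e, he⟩ := Finset.card_eq_one.1 hx
  have h1 : ∀ e, ∃ i, blb i e = true := by decide
  obtain ⟨i, hi⟩ := h1 e
  have h2 := blb_cut x i
  rw [he, Finset.filter_singleton, if_pos hi, Finset.card_singleton] at h2
  omega

end Pool.Agent.H16.FW
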