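import Pool.Agent.H16.FW.Shp

/-!
FW-BLN: the Blanusa snark has no nowhere-zero 4-flow: it is a dot product of two Petersen graphs.
-/

set_option autoImplicit false

namespace Pool.Agent.H16.FW

open Finset Pool.Agent.TH362 Pool.Agent.TH362.TF Pool.Agent.TH362.TF.Four Q116.FF
  Pool.Agent.H16.FV

theorem bl_loop : ∀ e, bls e ≠ blt e := by decide

/-- conservation at a vertex of the Blanusa snark -/
theorem bl_cons (φ : Fin 27 → F) (h : ∀ v, Cons bls blt univ φ v) (v : Fin 18) (x y z : Fin 27)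
    (hv : univ.filter (fun e => bls e = v ∨ blt e = v) = {x, y, z}) (hxy : x ≠ y) (hxz : x ≠ z)
    (hyz : y ≠ z) : φ x + (φ y + φ z) = 0 := by
  have h1 := h v
  unfold Cons at h1
  have h2 : ∑ e : Fin 27, ((if bls e = v then φ e else 0) + (if blt e = v then φ e else 0)) =
      ∑ e ∈ univ.filter (fun e => bls e = v ∨ blt e = v), φ e := by
    rw [Finset.sum_filter]
    refine Finset.sum_congr rfl fun e _ => ?_
    have h3 := bl_loop e
    by_cases h4 : bls e = v
    · have h5 : blt e ≠ v := fun h5 => h3 (h4.trans h5.symm)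
      rw [if_pos h4, if_neg h5, if_pos (Or.inl h4), add_zero]
    · by_cases h5 : blt e = v
      · rw [if_neg h4, if_pos h5, if_pos (Or.inr h5), zero_add]
      · rw [if_neg h4, if_neg h5, if_neg (by tauto), add_zero]
  rw [h2, hv, Finset.sum_insert (by simp [hxy, hxz]), Finset.sum_insert (by simp [hyz]),
    Finset.sum_singleton] at h1
  exact h1

/-- conservation in the Petersen graph from the ten equations -/
theorem pet_sum (d : Fin 15 → F) (h0 : d 0 + (d 4 + d 10) = 0) (h1 : d 0 + (d 1 + d 11) = 0)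
    (h2 : d 1 + (d 2 + d 12) = 0) (h3 : d 2 + (d 3 + d 13) = 0) (h4 : d 3 + (d 4 + d 14) = 0)
    (h5 : d 5 + (d 8 + d 10) = 0) (h6 : d 6 + (d 9 + d 11) = 0) (h7 : d 5 + (d 7 + d 12) = 0)
    (h8 : d 6 + (d 8 + d 13) = 0) (h9 : d 7 + (d 9 + d 14) = 0) (k : Fin 10) :
    ∑ j ∈ univ.filter (fun j => Bond.pa j = k ∨ Bond.pb j = k), d j = 0 := by
  have g : ∀ (k : Fin 10) (x y z : Fin 15),
      univ.filter (fun j => Bond.pa j = k ∨ Bond.pb j = k) = {x, y, z} → x ≠ y → x ≠ z → y ≠ z →
      d x + (d y + d z) = 0 →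
      ∑ j ∈ univ.filter (fun j => Bond.pa j = k ∨ Bond.pb j = k), d j = 0 := by
    intro k x y z h1 hxy hxz hyz h2
    rw [h1, Finset.sum_insert (by simp [hxy, hxz]), Finset.sum_insert (by simp [hyz]),
      Finset.sum_singleton]
    exact h2
  have hk : k = 0 ∨ k = 1 ∨ k = 2 ∨ k = 3 ∨ k = 4 ∨ k = 5 ∨ k = 6 ∨ k = 7 ∨ k = 8 ∨ k = 9 := by
    revert k; decide
  rcases hk with rfl | rfl | rfl | rfl | rfl | rfl | rfl | rfl | rfl | rfl
  · exact g 0 0 4 10 (by decide) (by decide) (by decide) (by decide) h0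
  · exact g 1 0 1 11 (by decide) (by decide) (by decide) (by decide) h1
  · exact g 2 1 2 12 (by decide) (by decide) (by decide) (by decide) h2
  · exact g 3 2 3 13 (by decide) (by decide) (by decide) (by decide) h3
  · exact g 4 3 4 14 (by decide) (by decide) (by decide) (by decide) h4
  · exact g 5 5 8 10 (by decide) (by decide) (by decide) (by decide) h5
  · exact g 6 6 9 11 (by decide) (by decide) (by decide) (by decide) h6
  · exact g 7 5 7 12 (by decide) (by decide) (by decide) (by decide) h7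
  · exact g 8 6 8 13 (by decide) (by decide) (by decide) (by decide) h8
  · exact g 9 7 9 14 (by decide) (by decide) (by decide) (by decide) h9

theorem bln : S_BLN := by
  rintro ⟨φ, hφ0, hφc⟩
  have h0 : ∀ e, φ e ≠ 0 := fun e => hφ0 e (Finset.mem_univ e)
  have b := bl_cons φ hφc
  -- the vertices
  have v0 := b 0 2 8 23 (by decide) (by decide) (by decide) (by decide)
  have v1 := b 1 0 9 24 (by decide) (by decide) (by decide) (by decide)
  have v2 := b 2 0 10 25 (by decide) (by decide) (by decide) (by decide)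
  have v3 := b 3 1 11 26 (by decide) (by decide) (by decide) (by decide)
  have v4 := b 4 1 2 12 (by decide) (by decide) (by decide) (by decide)
  have v5 := b 5 3 6 8 (by decide) (by decide) (by decide) (by decide)
  have v6 := b 6 4 7 9 (by decide) (by decide) (by decide) (by decide)
  have v7 := b 7 3 5 10 (by decide) (by decide) (by decide) (by decide)
  have v8 := b 8 4 6 11 (by decide) (by decide) (by decide) (by decide)
  have v9 := b 9 5 7 12 (by decide) (by decide) (by decide) (by decide)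
  have v10 := b 10 13 20 25 (by decide) (by decide) (by decide) (by decide)
  have v11 := b 11 13 14 21 (by decide) (by decide) (by decide) (by decide)
  have v12 := b 12 14 22 23 (by decide) (by decide) (by decide) (by decide)
  have v13 := b 13 15 18 24 (by decide) (by decide) (by decide) (by decide)
  have v14 := b 14 16 19 26 (by decide) (by decide) (by decide) (by decide)
  have v15 := b 15 15 17 20 (by decide) (by decide) (by decide) (by decide)
  have v16 := b 16 16 18 21 (by decide) (by decide) (by decide) (by decide)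
  have v17 := b 17 17 19 22 (by decide) (by decide) (by decide) (by decide)
  have hdd : ∀ x : F, x + x = 0 := addF
  -- the four edges of the cut
  have hcut : φ 23 + φ 24 = φ 25 + φ 26 := by
    have h1 : (φ 2 + (φ 8 + φ 23)) + (φ 0 + (φ 9 + φ 24)) + (φ 0 + (φ 10 + φ 25)) +
        (φ 1 + (φ 11 + φ 26)) + (φ 1 + (φ 2 + φ 12)) + (φ 3 + (φ 6 + φ 8)) +
        (φ 4 + (φ 7 + φ 9)) + (φ 3 + (φ 5 + φ 10)) + (φ 4 + (φ 6 + φ 11)) +
        (φ 5 + (φ 7 + φ 12)) = 0 := by
      rw [v0, v1, v2, v3, v4, v5, v6, v7, v8, v9]; rfl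
    have h2 : (φ 23 + φ 24) + (φ 25 + φ 26) = 0 := by
      rw [← h1]
      have := hdd (φ 2 + φ 8 + φ 0 + φ 9 + φ 10 + φ 1 + φ 11 + φ 12 + φ 3 + φ 6 + φ 4 + φ 7 + φ 5)
      calc (φ 23 + φ 24) + (φ 25 + φ 26) = (φ 23 + φ 24) + (φ 25 + φ 26) + 0 := by rw [add_zero]
        _ = (φ 23 + φ 24) + (φ 25 + φ 26) +
          ((φ 2 + φ 8 + φ 0 + φ 9 + φ 10 + φ 1 + φ 11 + φ 12 + φ 3 + φ 6 + φ 4 + φ 7 + φ 5) +
          (φ 2 + φ 8 + φ 0 + φ 9 + φ 10 + φ 1 + φ 11 + φ 12 + φ 3 + φ 6 + φ 4 + φ 7 + φ 5)) := by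
            rw [this]
        _ = _ := by abel
    have h3 := hdd (φ 25 + φ 26)
    exact add_right_cancel (h2.trans h3.symm)
  by_cases hab : φ 23 = φ 24
  · have hcd : φ 25 = φ 26 := by
      rw [hab, hdd] at hcut
      have h3 := hdd (φ 26)
      exact add_right_cancel (hcut.symm.trans h3.symm)
    refine Bond.petersen' ![φ 23, φ 0, φ 25, φ 1, φ 2, φ 3, φ 4, φ 5, φ 6, φ 7, φ 8, φ 9, φ 10,
      φ 11, φ 12] ?_ (pet_sum _ ?_ ?_ ?_ ?_ ?_ ?_ ?_ ?_ ?_ ?_)
    · intro j
      fin_cases j <;> exact h0 _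
    · show φ 23 + (φ 2 + φ 8) = 0
      rw [← v0]; abel
    · show φ 23 + (φ 0 + φ 9) = 0
      rw [hab, ← v1]; abel
    · show φ 0 + (φ 25 + φ 10) = 0
      rw [← v2]; abel
    · show φ 25 + (φ 1 + φ 11) = 0
      rw [hcd, ← v3]; abel
    · exact v4
    · exact v5
    · exact v6
    · exact v7
    · exact v8
    · exact v9
  · have hne : φ 23 + φ 24 ≠ 0 := by
      intro h
      have h3 := hdd (φ 24)
      exact hab (add_right_cancel (h.trans h3.symm))
    refine Bond.petersen' ![φ 13, φ 14, φ 23, φ 23 + φ 24, φ 25, φ 17, φ 18, φ 19, φ 15, φ 16,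
      φ 20, φ 21, φ 22, φ 24, φ 26] ?_ (pet_sum _ ?_ ?_ ?_ ?_ ?_ ?_ ?_ ?_ ?_ ?_)
    · intro j
      fin_cases j <;> first | exact h0 _ | exact hne
    · show φ 13 + (φ 25 + φ 20) = 0
      rw [← v10]; abel
    · exact v11
    · show φ 14 + (φ 23 + φ 22) = 0
      rw [← v12]; abel
    · show φ 23 + ((φ 23 + φ 24) + φ 24) = 0
      have h3 := hdd (φ 23 + φ 24)
      rw [← h3]; abel
    · show (φ 23 + φ 24) + (φ 25 + φ 26) = 0
      rw [hcut, hdd]
    · show φ 17 + (φ 15 + φ 20) = 0
      rw [← v15]; abel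
    · show φ 18 + (φ 16 + φ 21) = 0
      rw [← v16]; abel
    · exact v17
    · show φ 18 + (φ 15 + φ 24) = 0
      rw [← v13]; abel
    · show φ 19 + (φ 16 + φ 26) = 0
      rw [← v14]; abel

end Pool.Agent.H16.FW
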