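import Pool.Agent.H16.FW.BLI

/-!
FW-BLP: the Blanusa snark has no Petersen quotient: the only cuts with three edges are the stars of
the vertices.
-/

set_option autoImplicit false

namespace Pool.Agent.H16.FW

open Finset Pool.Agent.TH362 Pool.Agent.TH362.TF Pool.Agent.TH362.TF.Four Q116.FF
  Pool.Agent.H16.FV

/-- the check of the triples of edges -/
theorem bl_triples : ∀ e f g : Fin 27, e ≠ f → e ≠ g → f ≠ g →
    (∀ i, xor (blb i e) (xor (blb i f) (blb i g)) = false) →
    ∃ v : Fin 18, (bls e = v ∨ blt e = v) ∧ (bls f = v ∨ blt f = v) ∧ (bls g = v ∨ blt g = v) := by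
  decide +kernel

theorem bl_star_card : ∀ v : Fin 18, (univ.filter (fun e => bls e = v ∨ blt e = v)).card = 3 := by
  decide +kernel

/-- the Blanusa snark is connected -/
theorem bl_conn (z : Fin 18 → Bool) (h : ∀ e, z (bls e) = z (blt e)) : ∀ u, z u = z 0 := by
  have h0 : z 1 = z 2 := h 0
  have h1 : z 3 = z 4 := h 1
  have h2 : z 4 = z 0 := h 2
  have h3 : z 5 = z 7 := h 3
  have h4 : z 6 = z 8 := h 4
  have h5 : z 7 = z 9 := h 5
  have h6 : z 8 = z 5 := h 6
  have h8 : z 0 = z 5 := h 8
  have h10 : z 2 = z 7 := h 10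
  have h13 : z 10 = z 11 := h 13
  have h14 : z 11 = z 12 := h 14
  have h17 : z 15 = z 17 := h 17
  have h18 : z 16 = z 13 := h 18
  have h19 : z 17 = z 14 := h 19
  have h20 : z 10 = z 15 := h 20
  have h21 : z 11 = z 16 := h 21
  have h23 : z 0 = z 12 := h 23
  intro u
  have e5 : z 5 = z 0 := h8.symm
  have e8 : z 8 = z 0 := h6.trans e5
  have e6 : z 6 = z 0 := h4.trans e8
  have e7 : z 7 = z 0 := h3.symm.trans e5
  have e9 : z 9 = z 0 := h5.symm.trans e7
  have e2 : z 2 = z 0 := h10.trans e7
  have e1 : z 1 = z 0 := h0.trans e2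
  have e3 : z 3 = z 0 := h1.trans h2
  have e12 : z 12 = z 0 := h23.symm
  have e11 : z 11 = z 0 := h14.trans e12
  have e10 : z 10 = z 0 := h13.trans e11
  have e16 : z 16 = z 0 := h21.symm.trans e11
  have e13 : z 13 = z 0 := h18.symm.trans e16
  have e15 : z 15 = z 0 := h20.symm.trans e10
  have e17 : z 17 = z 0 := h17.symm.trans e15
  have e14 : z 14 = z 0 := h19.symm.trans e17
  fin_cases u <;> first | rfl | assumption

/-- the cuts with three edges -/
theorem bl_cut3 (x : Fin 18 → Bool) (hx : (cut bls blt univ x).card = 3) :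
    ∃ v : Fin 18, ∃ b : Bool, ∀ u, xor (x u) (decide (u = v)) = b := by
  obtain ⟨e, f, g, hef, heg, hfg, hcut⟩ := Finset.card_eq_three.1 hx
  have h1 : ∀ i, xor (blb i e) (xor (blb i f) (blb i g)) = false := by
    intro i
    have h2 := blb_cut x i
    rw [hcut, Finset.card_filter, Finset.sum_insert (by simp [hef, heg]),
      Finset.sum_insert (by simp [hfg]), Finset.sum_singleton] at h2
    revert h2
    cases blb i e <;> cases blb i f <;> cases blb i g <;> decide
  obtain ⟨v, hev, hfv, hgv⟩ := bl_triples e f g hef heg hfg h1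
  have hstar : cut bls blt univ x = univ.filter (fun e => bls e = v ∨ blt e = v) := by
    apply Finset.eq_of_subset_of_card_le
    · rw [hcut]
      intro y hy
      rw [Finset.mem_insert, Finset.mem_insert, Finset.mem_singleton] at hy
      rw [Finset.mem_filter]
      refine ⟨Finset.mem_univ _, ?_⟩
      rcases hy with rfl | rfl | rfl
      · exact hev
      · exact hfv
      · exact hgv
    · rw [bl_star_card, hx]
  refine ⟨v, _, bl_conn (fun u => xor (x u) (decide (u = v))) fun y => ?_⟩
  have h2 : y ∈ cut bls blt univ x ↔ (bls y = v ∨ blt y = v) := by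
    rw [hstar, Finset.mem_filter]; simp
  have h3 : y ∈ cut bls blt univ x ↔ x (bls y) ≠ x (blt y) := by
    unfold cut; rw [Finset.mem_filter]; simp
  rw [h3] at h2
  have hl : bls y ≠ blt y := by
    have : ∀ e, bls e ≠ blt e := by decide
    exact this y
  have h4 : ¬ (bls y = v ∧ blt y = v) := fun h => hl (h.1.trans h.2.symm)
  show xor (x (bls y)) (decide (bls y = v)) = xor (x (blt y)) (decide (blt y = v))
  by_cases h5 : bls y = v
  · have h6 : blt y ≠ v := fun h => h4 ⟨h5, h⟩
    have h7 := h2.2 (Or.inl h5)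
    rw [decide_eq_true h5, decide_eq_false h6]
    revert h7
    cases x (bls y) <;> cases x (blt y) <;> simp
  · by_cases h6 : blt y = v
    · have h7 := h2.2 (Or.inr h6)
      rw [decide_eq_true h6, decide_eq_false h5]
      revert h7
      cases x (bls y) <;> cases x (blt y) <;> simp
    · have h7 : x (bls y) = x (blt y) := by
        by_contra h8
        exact (h2.1 h8).elim h5 h6
      rw [decide_eq_false h6, decide_eq_false h5, h7]

theorem blp : S_BLP := by
  rintro ⟨κ, hκ1, hκ2⟩
  have hcl : ∀ k, ∃ u, κ u = k := by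
    intro k
    obtain ⟨e, _, he⟩ := hκ2 k (nb k 0) (Contr.padj_nb k 0)
    rcases he with ⟨a, _⟩ | ⟨_, a⟩
    · exact ⟨_, a⟩
    · exact ⟨_, a⟩
  have hsing : ∀ k, ∃ v : Fin 18, ∀ u, κ u = k → u = v := by
    intro k
    obtain ⟨v, b, hb⟩ := bl_cut3 _ (hκ1 k)
    refine ⟨v, ?_⟩
    cases b with
    | false =>
      intro u hu
      have h1 := hb u
      rw [decide_eq_true hu] at h1
      by_contra h2
      rw [decide_eq_false h2] at h1
      exact absurd h1 (by decide)
    | true =>
      exfalso
      have h1 : ∀ u, κ u ≠ k → u = v := by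
        intro u hu
        have h1 := hb u
        rw [decide_eq_false hu] at h1
        by_contra h2
        rw [decide_eq_false h2] at h1
        exact absurd h1 (by decide)
      have h2 : ∀ k : Fin 10, ∃ k1 k2 : Fin 10, k1 ≠ k ∧ k2 ≠ k ∧ k1 ≠ k2 := by decide
      obtain ⟨k1, k2, h3, h4, h5⟩ := h2 k
      obtain ⟨u1, hu1⟩ := hcl k1
      obtain ⟨u2, hu2⟩ := hcl k2
      have h6 := h1 u1 (by rw [hu1]; exact h3)
      have h7 := h1 u2 (by rw [hu2]; exact h4)
      exact h5 (by rw [← hu1, ← hu2, h6, h7])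
  have hinj : Function.Injective κ := by
    intro u w huw
    obtain ⟨v, hv⟩ := hsing (κ w)
    rw [hv u huw, hv w rfl]
  have h1 := Fintype.card_le_of_injective κ hinj
  rw [Fintype.card_fin, Fintype.card_fin] at h1
  omega

end Pool.Agent.H16.FW
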