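import Pool.Agent.H16.FW.Msk

/-!
# FW-BS: the states of a single vertex (helper86)
-/

set_option autoImplicit false

namespace Pool.Agent.H16.FW

open Finset Pool.Agent.TH362.TF Pool.Agent.TH362.TF.Four Q116.FF Pool.Agent.H16.FV

namespace BSh

/-- the number with given bits -/
def Lb (b : Fin 4 → Bool) : ℕ :=
  (b 0).toNat + 2 * (b 1).toNat + 4 * (b 2).toNat + 8 * (b 3).toNat

theorem chkA : ∀ b : Fin 4 → Bool, Lb b < 16 ∧ (bas (Lb b)).L < 16 ∧
    (∀ i : Fin 4, (bas (Lb b)).L.testBit i = b i) ∧ (bas (Lb b)).C = 0 ∧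
    (bas (Lb b)).u = (bas (Lb b)).L ∧ (bas (Lb b)).v = 0 ∧ (bas (Lb b)).pm < 65536 ∧
    (∀ i j : Fin 4, i < j → (bas (Lb b)).pm.testBit (4 * (i : ℕ) + j) = (b i && b j)) ∧
    (∀ i j : Fin 4, ¬ i < j → (bas (Lb b)).pm.testBit (4 * (i : ℕ) + j) = false) ∧
    (bas (Lb b)).q0 < 2 ^ 64 ∧ (bas (Lb b)).q1 < 2 ^ 64 ∧
    (bas (Lb b)).ne = (b 0).toNat + (b 1).toNat + (b 2).toNat + (b 3).toNat := by
  decide +kernel

theorem chk0 : ∀ b : Fin 4 → Bool, ∀ p0 p1 p2 : F,
    (bas (Lb b)).q0.testBit (cd p0 + 4 * cd p1 + 16 * cd p2) = true →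
    (b 0 = true ↔ p0 ≠ 0) ∧ (b 1 = true ↔ p1 ≠ 0) ∧ (b 2 = true ↔ p2 ≠ 0) ∧
      (b 3 = true ↔ p0 + p1 + p2 ≠ 0) := by
  decide +kernel

theorem chk1 : ∀ b : Fin 4 → Bool, ∀ p0 p1 p2 : F,
    (bas (Lb b)).q1.testBit (cd p0 + 4 * cd p1 + 16 * cd p2) = true →
    (b 0 = true ↔ p0 ≠ 0) ∧ (b 1 = true ↔ p1 ≠ 0) ∧ (b 2 = true ↔ p2 ≠ 0) ∧
      (b 3 = true ↔ p0 + p1 + p2 + (1, 0) ≠ 0) := by
  decide +kernel

theorem last0 : ∀ a b c d : F, a + b + c + d = 0 → d = a + b + c := by decide +kernel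

theorem last1 : ∀ a b c d : F, a + b + c + d = (1, 0) → d = a + b + c + (1, 0) := by
  decide +kernel

end BSh

open BSh

theorem bs_sound : S_BS := by
  classical
  intro hBASE V E _ _ _ s t S x hx hpar v hv
  obtain ⟨b, hb⟩ : ∃ b : Fin 4 → Bool, ∀ i, b i = true ↔ La s t S x v i :=
    ⟨fun i => decide (La s t S x v i), fun i => by simp⟩
  obtain ⟨h1, h2, h3, h4, h5, h6, h7, h8, h9, h10, h11, h12⟩ := chkA b
  refine ⟨Lb b, h1, ?_⟩
  have hcnt : ∀ i, cnt s t S x {v} i = if La s t S x v i then 1 else 0 := by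
    intro i
    unfold cnt
    rw [Finset.filter_singleton]
    split_ifs <;> simp
  have hL : BM (bas (Lb b)).L (La s t S x v) := BM_of h2 fun i => by rw [h3 i, hb i]
  refine ⟨hL, ?_, ?_, ?_, ?_, ?_, ?_, ?_, ?_⟩
  · rw [h4]
    exact BM_zero.congr fun i => by simp
  · rw [h5]
    refine hL.congr fun i => ?_
    rw [hcnt i]
    split_ifs with h
    · simp [h]
    · simp [h]
  · rw [h6]
    refine BM_zero.congr fun i => ?_
    rw [hcnt i]
    split_ifs <;> simp
  · refine BP_of h7 (fun i j hij => ?_) h9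
    rw [h8 i j hij, Bool.and_eq_true, hb i, hb j]
    constructor
    · intro h
      exact ⟨v, Finset.mem_singleton_self v, h⟩
    · rintro ⟨a, ha, h⟩
      rw [Finset.mem_singleton] at ha
      exact ha ▸ h
  · refine ⟨h10, fun p hp hq => ?_⟩
    refine hBASE V E s t S x hx hpar v 0 p hv ?_ hp
    obtain ⟨k0, k1, k2, k3⟩ := chk0 b (p 0) (p 1) (p 2) hq
    rw [Fin.sum_univ_four] at hp
    rw [← last0 _ _ _ _ hp] at k3
    intro i
    rw [← hb i]
    fin_cases i
    · exact k0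
    · exact k1
    · exact k2
    · exact k3
  · refine ⟨h11, fun p hp hq => ?_⟩
    refine hBASE V E s t S x hx hpar v (1, 0) p hv ?_ hp
    obtain ⟨k0, k1, k2, k3⟩ := chk1 b (p 0) (p 1) (p 2) hq
    rw [Fin.sum_univ_four] at hp
    rw [← last1 _ _ _ _ hp] at k3
    intro i
    rw [← hb i]
    fin_cases i
    · exact k0
    · exact k1
    · exact k2
    · exact k3
  · rw [Finset.erase_singleton]
    simp [od]
  · rw [Finset.card_empty, add_zero, h12, Nat.card_eq_fintype_card, Fintype.card_subtype,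
      Finset.card_filter, Fin.sum_univ_four]
    have hh : ∀ i, (b i).toNat = if La s t S x v i then 1 else 0 := by
      intro i
      by_cases h : La s t S x v i
      · rw [(hb i).2 h]
        simp [h]
      · have : b i = false := by
          by_contra hc
          exact h ((hb i).1 (by simpa using hc))
        rw [this]
        simp [h]
    rw [hh 0, hh 1, hh 2, hh 3]

end Pool.Agent.H16.FW
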