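import Pool.Agent.H16.FW.Res
import Pool.Agent.H16.FV.Blk

/-!
# PROJECT FW (helper16): cographic 2-blocks
-/

set_option autoImplicit false
set_option linter.unusedSectionVars false

namespace Pool.Agent.H16.FW

open Finset Pool.Agent.TH362 Pool.Agent.TH362.TF Pool.Agent.TH362.TF.Four Q116.FF
  Pool.Agent.H16.FV

/-- the cut space of the Petersen graph -/
def PC : Submodule (ZMod 2) (Fin 15 → ZMod 2) :=
  Submodule.span (ZMod 2) (Set.range (fun v : Fin 10 => fun k : Fin 15 =>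
    if (![0,1,2,3,4,5,6,7,8,9,0,1,2,3,4] : Fin 15 → Fin 10) k = v ∨
       (![1,2,3,4,0,7,8,9,5,6,5,6,7,8,9] : Fin 15 → Fin 10) k = v
    then (1 : ZMod 2) else 0))

theorem PC_eq : PC = Submodule.span (ZMod 2) (Set.range (star Bond.pa Bond.pb)) := by
  have h : (fun v : Fin 10 => fun k : Fin 15 =>
    if (![0,1,2,3,4,5,6,7,8,9,0,1,2,3,4] : Fin 15 → Fin 10) k = v ∨
       (![1,2,3,4,0,7,8,9,5,6,5,6,7,8,9] : Fin 15 → Fin 10) k = v
    then (1 : ZMod 2) else 0) = star Bond.pa Bond.pb := by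
    funext v k
    revert v k
    decide
  unfold PC
  rw [h]

theorem PC_pstar : PC = Submodule.span (ZMod 2) (Set.range Bond.pstar) := rfl

theorem mem_stars {V E : Type} [Fintype V] [DecidableEq V] (s t : E → V) (x : E → ZMod 2) :
    x ∈ Submodule.span (ZMod 2) (Set.range (star s t)) ↔
      ∃ a : V → ZMod 2, ∀ e, x e = a (s e) + a (t e) := by
  rw [Submodule.mem_span_range_iff_exists_fun]
  have key : ∀ (a : V → ZMod 2) e, (∑ v, a v • star s t v) e = a (s e) + a (t e) := by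
    intro a e
    rw [Finset.sum_apply]
    unfold FV.star
    simp only [Pi.smul_apply, smul_eq_mul, mul_add, sum_add_distrib, mul_ite, mul_one, mul_zero,
      sum_ite_eq, mem_univ, if_true]
  constructor
  · rintro ⟨a, rfl⟩
    exact ⟨a, key a⟩
  · rintro ⟨a, ha⟩
    exact ⟨a, funext fun e => (key a e).trans (ha e).symm⟩

section
variable {V E : Type} [Fintype V] [DecidableEq V] [Fintype E] [DecidableEq E]

theorem inside {s t : E → V} {κ : V → Fin 10} {eps : Fin 15 → E} (h : IsPQ s t univ κ)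
    (hj : ∀ j, Joins κ s t (Bond.pa j) (Bond.pb j) (eps j)) {e : E} (he : ∀ j, e ≠ eps j) :
    κ (s e) = κ (t e) := by
  by_contra hne
  have h1 : e ∈ cut s t univ (fun v => decide (κ v = κ (s e))) := by
    unfold cut
    rw [mem_filter]
    refine ⟨mem_univ _, ?_⟩
    have h2 : ¬ κ (t e) = κ (s e) := fun h => hne h.symm
    simp [h2]
  rw [Bond.cut_eq h hj] at h1
  obtain ⟨j, _, hj'⟩ := mem_image.1 h1
  exact he j hj'.symm

theorem rel_iff (rel : S_REL) {s t : E → V} {n : ℕ} {vec : E → Fin n → ZMod 2}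
    (hv : RepCo s t vec) (hn : N1 s t univ) {κ : V → Fin 10} {eps : Fin 15 → E}
    (h : IsPQ s t univ κ) (hj : ∀ j, Joins κ s t (Bond.pa j) (Bond.pb j) (eps j))
    (x : Fin 15 → ZMod 2) : ∑ k, x k • vec (eps k) = 0 ↔ x ∈ PC := by
  have hinj := Bond.eps_inj hj
  set y : E → ZMod 2 := ∑ k, x k • (Pi.single (eps k) 1 : E → ZMod 2) with hy
  have hye : ∀ k, y (eps k) = x k := by
    intro k
    rw [hy, Finset.sum_apply, Finset.sum_eq_single k]
    · rw [Pi.smul_apply, Pi.single_eq_same, smul_eq_mul, mul_one]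
    · intro b _ hb
      rw [Pi.smul_apply, Pi.single_eq_of_ne (fun h => hb (hinj h).symm), smul_zero]
    · intro h; exact absurd (mem_univ k) h
  have hyo : ∀ e, (∀ j, e ≠ eps j) → y e = 0 := by
    intro e he
    rw [hy, Finset.sum_apply]
    refine sum_eq_zero fun k _ => ?_
    rw [Pi.smul_apply, Pi.single_eq_of_ne (he k), smul_zero]
  have hsum : ∑ e, y e • vec e = ∑ k, x k • vec (eps k) := by
    rw [hy]
    simp only [Finset.sum_apply, Pi.smul_apply, sum_smul]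
    rw [sum_comm]
    refine sum_congr rfl fun k _ => ?_
    rw [Finset.sum_eq_single (eps k)]
    · rw [Pi.single_eq_same, smul_eq_mul, mul_one]
    · intro b _ hb
      rw [Pi.single_eq_of_ne hb, smul_zero, zero_smul]
    · intro h; exact absurd (mem_univ _) h
  rw [← hsum, hv y, mem_stars, PC_eq, mem_stars]
  constructor
  · rintro ⟨a, ha⟩
    obtain ⟨z, hz⟩ := rel V E s t κ eps hn h hj a (by
      intro e he
      have h1 := (hyo e he).symm.trans (ha e)
      have h2 : ∀ p q : ZMod 2, 0 = p + q → p = q := by decide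
      exact h2 _ _ h1)
    exact ⟨z, fun j => by rw [← hye j, ha, hz j]⟩
  · rintro ⟨z, hz⟩
    refine ⟨fun v => z (κ v), fun e => ?_⟩
    by_cases he : ∀ j, e ≠ eps j
    · have h2 : ∀ p : ZMod 2, 0 = p + p := by decide
      show y e = z (κ (s e)) + z (κ (t e))
      rw [hyo e he, inside h hj he]
      exact h2 _
    · push Not at he
      obtain ⟨j, rfl⟩ := he
      rw [hye, hz]
      show _ = z (κ (s (eps j))) + z (κ (t (eps j)))
      rcases hj j with ⟨a, b⟩ | ⟨a, b⟩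
      · rw [a, b]
      · rw [a, b, add_comm]

/-- fifteen vectors with the relations of the Petersen graph are a 2-block -/
theorem pet_block {n : ℕ} {c : Fin 15 → Fin n → ZMod 2}
    (hc : ∀ x : Fin 15 → ZMod 2, ∑ k, x k • c k = 0 ↔ x ∈ PC)
    (L : (Fin n → ZMod 2) →ₗ[ZMod 2] (Fin 2 → ZMod 2)) (hL : ∀ k, L (c k) ≠ 0) : False := by
  refine Bond.petersen (fun j => L (c j)) hL (fun k => ?_)
  have h1 := (hc (Bond.pstar k)).2 (by rw [PC_pstar]; exact Submodule.subset_span ⟨k, rfl⟩)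
  have h2 := congrArg L h1
  rw [map_sum, map_zero] at h2
  rw [← h2, sum_filter]
  refine sum_congr rfl fun j _ => ?_
  unfold Bond.pstar
  by_cases h3 : Bond.pa j = k ∨ Bond.pb j = k
  · rw [if_pos h3, if_pos h3, one_smul]
  · rw [if_neg h3, if_neg h3, zero_smul, map_zero]

theorem blk4 (fvn : S_FVN) (rel : S_REL) {s t : E → V} {n : ℕ} {vec : E → Fin n → ZMod 2}
    (hv : RepCo s t vec) {S : Set (Fin n → ZMod 2)} (hS : Set.range vec = S)
    (h0 : (0 : Fin n → ZMod 2) ∉ S)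
    (hL : ¬ ∃ L : (Fin n → ZMod 2) →ₗ[ZMod 2] (Fin 2 → ZMod 2), ∀ s ∈ S, L s ≠ 0)
    {X : Finset V} (hX : X.card ≤ 4) (hM : Mt s t X) :
    ∃ c : Fin 15 → Fin n → ZMod 2, Set.range c ⊆ S ∧
      ∀ x : Fin 15 → ZMod 2, ∑ k, x k • c k = 0 ↔ x ∈ PC := by
  have hz : ∀ e, vec e ≠ 0 := fun e he => h0 (hS ▸ ⟨e, he⟩)
  have hn := n1_of_ni (rep_ni hv hz)
  rcases fvn V E s t univ hn X hX (fb_of_mt hM) with ⟨φ, h6, h7⟩ | ⟨κ, hκ⟩
  · exfalso
    obtain ⟨L, hL'⟩ := rep_map hv h7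
    apply hL
    refine ⟨L, ?_⟩
    rw [← hS]
    rintro _ ⟨e, rfl⟩ h8
    apply h6 e (mem_univ e)
    rw [Prod.ext_iff, ← (hL' e).1, ← (hL' e).2, h8]
    exact ⟨rfl, rfl⟩
  · obtain ⟨eps, hj⟩ := Bond.eps_exists hκ
    refine ⟨fun k => vec (eps k), ?_, rel_iff rel hv hn hκ hj⟩
    rw [← hS]
    rintro _ ⟨k, rfl⟩
    exact ⟨eps k, rfl⟩

/-- if the fifteen vectors are all of `S` -/
theorem pet_map {n : ℕ} {c : Fin 15 → Fin n → ZMod 2}
    (hc : ∀ x : Fin 15 → ZMod 2, ∑ k, x k • c k = 0 ↔ x ∈ PC) :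
    ∃ ψ : (Fin 15 → ZMod 2) →ₗ[ZMod 2] (Fin n → ZMod 2), LinearMap.ker ψ = PC ∧
      ⇑ψ '' Set.range (fun k : Fin 15 => (Pi.single k (1 : ZMod 2) : Fin 15 → ZMod 2)) =
        Set.range c := by
  have hsum1 : ∀ k, ∑ m, (Pi.single k 1 : Fin 15 → ZMod 2) m • c m = c k := by
    intro k
    simp only [Pi.single_apply, ite_smul, one_smul, zero_smul, Finset.sum_ite_eq',
      Finset.mem_univ, if_true]
  refine ⟨Fintype.linearCombination (ZMod 2) c, ?_, ?_⟩
  · ext x
    rw [LinearMap.mem_ker, Fintype.linearCombination_apply, hc]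
  · ext z
    constructor
    · rintro ⟨_, ⟨k, rfl⟩, rfl⟩
      refine ⟨k, ?_⟩
      rw [Fintype.linearCombination_apply]
      exact (hsum1 k).symm
    · rintro ⟨k, rfl⟩
      refine ⟨_, ⟨k, rfl⟩, ?_⟩
      rw [Fintype.linearCombination_apply]
      exact hsum1 k

end

end Pool.Agent.H16.FW
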