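import Pool.Agent.H16.FW.Msk

/-!
# FW-CLS: the meaning of `cls` (helper86)
-/

set_option autoImplicit false

namespace Pool.Agent.H16.FW

open Finset Pool.Agent.TH362.TF Pool.Agent.TH362.TF.Four Q116.FF Pool.Agent.H16.FV

namespace CLSh

theorem last0 : ∀ a b c d : F, a + b + c + d = 0 → d = a + b + c := by decide +kernel

theorem tri_in : ∀ j a b : Fin 4, a < b → a ≠ j → b ≠ j →
    (tri (j : ℕ)).testBit (4 * (a : ℕ) + b) = true := by decide +kernel

theorem tri_out : ∀ j a b : Fin 4, a < b → (a = j ∨ b = j) →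
    (tri (j : ℕ)).testBit (4 * (a : ℕ) + b) = false := by decide +kernel

theorem pm0 : ∀ a b c : F, (Pm 0).testBit (cd a + 4 * cd b + 16 * cd c) = true ↔
    a = 0 ∧ ¬ (a = 0 ∧ b = 0 ∧ c = 0 ∧ a + b + c = 0) := by decide +kernel
theorem pm1 : ∀ a b c : F, (Pm 1).testBit (cd a + 4 * cd b + 16 * cd c) = true ↔
    b = 0 ∧ ¬ (a = 0 ∧ b = 0 ∧ c = 0 ∧ a + b + c = 0) := by decide +kernel
theorem pm2 : ∀ a b c : F, (Pm 2).testBit (cd a + 4 * cd b + 16 * cd c) = true ↔
    c = 0 ∧ ¬ (a = 0 ∧ b = 0 ∧ c = 0 ∧ a + b + c = 0) := by decide +kernel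
theorem pm3 : ∀ a b c : F, (Pm 3).testBit (cd a + 4 * cd b + 16 * cd c) = true ↔
    a + b + c = 0 ∧ ¬ (a = 0 ∧ b = 0 ∧ c = 0 ∧ a + b + c = 0) := by decide +kernel

theorem pm_iff (j : Fin 4) (p : Fin 4 → F) (hp : ∑ i, p i = 0) :
    (Pm (j : ℕ)).testBit (code p) = true ↔ p j = 0 ∧ p ≠ 0 := by
  rw [Fin.sum_univ_four] at hp
  have h3 := last0 _ _ _ _ hp
  have h0 : p ≠ 0 ↔ ¬ (p 0 = 0 ∧ p 1 = 0 ∧ p 2 = 0 ∧ p 0 + p 1 + p 2 = 0) := by
    rw [← h3, not_iff_not]
    constructor
    · intro h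
      rw [h]
      simp
    · rintro ⟨h0, h1, h2, h3⟩
      funext i
      fin_cases i
      · exact h0
      · exact h1
      · exact h2
      · exact h3
  rw [h0]
  unfold code
  fin_cases j
  · exact pm0 _ _ _
  · exact pm1 _ _ _
  · exact pm2 _ _ _
  · have := pm3 (p 0) (p 1) (p 2)
    rw [this]
    constructor
    · rintro ⟨h1, h2⟩
      exact ⟨h3.trans h1, h2⟩
    · rintro ⟨h1, h2⟩
      exact ⟨h3.symm.trans h1, h2⟩

theorem pm_lt : ∀ j : Fin 4, Pm (j : ℕ) < 2 ^ 64 := by decide +kernel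

theorem cd_lt : ∀ a : F, cd a < 4 := by decide +kernel

theorem cd_surj : ∀ m < 4, ∃ a : F, cd a = m := by decide +kernel

theorem code_xor : ∀ a0 a1 a2 b0 b1 b2 : F,
    cd (a0 + b0) + 4 * cd (a1 + b1) + 16 * cd (a2 + b2) =
    (cd a0 + 4 * cd a1 + 16 * cd a2) ^^^ (cd b0 + 4 * cd b1 + 16 * cd b2) := by
  decide +kernel

theorem code_add (p q : Fin 4 → F) : code (p + q) = code p ^^^ code q := code_xor _ _ _ _ _ _

theorem code_lt (p : Fin 4 → F) : code p < 64 := by
  unfold code
  have h0 := cd_lt (p 0)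
  have h1 := cd_lt (p 1)
  have h2 := cd_lt (p 2)
  omega

theorem add_self' : ∀ a : F, a + a = 0 := by decide +kernel

theorem code_surj (i : ℕ) (hi : i < 64) : ∃ p : Fin 4 → F, ∑ k, p k = 0 ∧ code p = i := by
  obtain ⟨a, ha⟩ := cd_surj (i % 4) (by omega)
  obtain ⟨b, hb⟩ := cd_surj (i / 4 % 4) (by omega)
  obtain ⟨c, hc⟩ := cd_surj (i / 16) (by omega)
  refine ⟨![a, b, c, a + b + c], ?_, ?_⟩
  · rw [Fin.sum_univ_four]
    exact add_self' _
  · change cd a + 4 * cd b + 16 * cd c = i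
    rw [ha, hb, hc]
    omega

theorem sup_bit {a b k : ℕ} (h : sup a b = true) (hk : a.testBit k = true) :
    b.testBit k = true := by
  unfold sup at h
  have h1 : a &&& b = a := Nat.eq_of_beq_eq_true h
  rw [← h1, Nat.testBit_and, Bool.and_eq_true] at hk
  exact hk.2

theorem full_bit : ∀ k < 64, full.testBit k = true := by decide +kernel

theorem f15 : ∀ i : Fin 4, (15 : ℕ).testBit i = true := by decide

theorem sh : ∀ j i : Fin 4, i ≠ j → (Nat.shiftLeft 1 (j : ℕ)).testBit i = false := by decide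

theorem pr2 (hPC : S_PC) {m : ℕ} {Q : Fin 4 → Fin 4 → Prop} (h : BP m Q) (h2 : 2 ≤ pc m) :
    ∃ PR ⊆ prs, 2 ≤ PR.card ∧ ∀ z ∈ PR, Q z.1 z.2 := by
  classical
  refine ⟨prs.filter (fun z => m.testBit (4 * (z.1 : ℕ) + z.2) = true), Finset.filter_subset _ _,
    ?_, ?_⟩
  · have hm : m < 2 ^ 64 := lt_trans h.lt (by norm_num)
    rw [hPC m hm] at h2
    refine h2.trans ?_
    refine (Finset.card_le_card (t := (prs.filter (fun z => m.testBit (4 * (z.1 : ℕ) + z.2) =
      true)).image (fun z => 4 * (z.1 : ℕ) + z.2)) fun k hk => ?_).trans Finset.card_image_le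
    rw [Finset.mem_filter] at hk
    obtain ⟨i, j, hij, he, _⟩ := (h k).1 hk.2
    rw [Finset.mem_image]
    refine ⟨(i, j), ?_, he⟩
    rw [Finset.mem_filter]
    refine ⟨?_, ?_⟩
    · simp only [prs, Finset.mem_filter, Finset.mem_univ, true_and]
      exact hij
    · change m.testBit (4 * (i : ℕ) + j) = true
      rw [he]
      exact hk.2
  · intro z hz
    rw [Finset.mem_filter] at hz
    have h3 : z.1 < z.2 := by
      have := hz.1
      simp only [prs, Finset.mem_filter, Finset.mem_univ, true_and] at this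
      exact this
    exact (h.iff' h3).1 hz.2

theorem pt0 {V : Type} [DecidableEq V] (v : V) : pt v 0 = fun _ => 0 := by
  funext u
  unfold pt
  split_ifs <;> rfl

end CLSh

open CLSh

theorem cls_sound : S_CLS := by
  classical
  intro hPC hNUM hSS V E _ _ _ s t S x v A W π o hvA hπ hod hcls
  have hRe : ∀ p : Fin 4 → F, ∑ i, p i = 0 → π.q0.testBit (code p) = true →
      Re s t S x A (fun _ => 0) p := by
    intro p hp hb
    have := hπ.q0.2 p hp hb
    unfold Rz at this
    rw [pt0] at this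
    exact this
  have hP : ∀ j : Fin 4, kP π o j = true → ∃ j, od s t S A ≤ 7 ∧ TyP s t S x A j ∧
      ∀ a b : Fin 4, a < b → a ≠ j → b ≠ j → Pr s t S x A a b := by
    intro j hj
    unfold kP at hj
    simp only [Bool.and_eq_true] at hj
    obtain ⟨⟨h1, h2⟩, h3, h4⟩ := hj
    have h4' : π.u ||| (Nat.shiftLeft 1 (j : ℕ)) = 15 := Nat.eq_of_beq_eq_true h4
    refine ⟨j, hod.trans (Nat.le_of_ble_eq_true h1), ⟨?_, ?_⟩, ?_⟩
    · intro p hp hpj hp0
      exact hRe p hp (sup_bit h3 ((pm_iff j p hp).2 ⟨hpj, hp0⟩))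
    · intro i hij
      have h5 := f15 i
      rw [← h4', Nat.testBit_or, Bool.or_eq_true, sh j i hij] at h5
      rcases h5 with h5 | h5
      · exact (hπ.u.iff' i).1 h5
      · exact absurd h5 (by simp)
    · intro a b hab haj hbj
      exact (hπ.pm.iff' hab).1 (sup_bit h2 (tri_in j a b hab haj hbj))
  unfold cls at hcls
  simp only [Bool.or_eq_true] at hcls
  rcases hcls with h | ((h | h) | (h | h)) | h
  · left
    unfold kS at h
    rw [Bool.and_eq_true] at h
    exact ⟨hod.trans (Nat.le_of_ble_eq_true h.1), pr2 hPC hπ.pm (Nat.le_of_ble_eq_true h.2)⟩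
  · exact Or.inr (Or.inl (hP 0 h))
  · exact Or.inr (Or.inl (hP 1 h))
  · exact Or.inr (Or.inl (hP 2 h))
  · exact Or.inr (Or.inl (hP 3 h))
  · right; right
    unfold kR at h
    simp only [Bool.and_eq_true] at h
    obtain ⟨⟨h1, h2⟩, ⟨h3, h4⟩, ⟨e0, e1⟩, ⟨e2, e3⟩⟩ := h
    have hE : ∀ j : Fin 4, kE π o j = true := by
      intro j
      fin_cases j
      · exact e0
      · exact e1
      · exact e2
      · exact e3
    refine ⟨hod.trans (Nat.le_of_ble_eq_true h1), pr2 hPC hπ.pm (Nat.le_of_ble_eq_true h3),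
      ?_, ?_, ?_⟩
    · refine (Nat.le_of_ble_eq_true h2).trans ?_
      rw [← hNUM hPC 0 π.q0 hπ.q0.1]
      refine Finset.card_le_card fun p hp => ?_
      rw [Finset.mem_filter] at hp ⊢
      exact ⟨Finset.mem_univ _, hp.2.1, hRe p hp.2.1 hp.2.2⟩
    · intro i
      have h5 : π.u = 15 := Nat.eq_of_beq_eq_true h4
      refine (hπ.u.iff' i).1 ?_
      rw [h5]
      exact f15 i
    · intro j hj
      have h5 := hE j
      unfold kE at h5
      simp only [Bool.or_eq_true, Bool.and_eq_true] at h5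
      rcases h5 with h5 | h5 | h5
      · exfalso
        have h6 : Nat.land π.pm (tri (j : ℕ)) = 0 := by
          change π.pm &&& tri (j : ℕ) = 0
          refine Nat.eq_of_testBit_eq fun k => ?_
          rw [Nat.zero_testBit, Nat.testBit_and]
          by_contra hc
          have hc' : π.pm.testBit k = true ∧ (tri (j : ℕ)).testBit k = true := by
            simpa using hc
          obtain ⟨a, b, hab, he, hpr⟩ := (hπ.pm k).1 hc'.1
          have h7 := tri_out j a b hab (hj a b hab hpr)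
          rw [he, hc'.2] at h7
          exact absurd h7 (by simp)
        rw [h6] at h5
        exact absurd h5 (by simp)
      · left
        exact hod.trans (Nat.le_of_ble_eq_true h5)
      · right
        refine ⟨(hπ.v'.iff' j).1 h5.1, fun r hr => ?_⟩
        have h6 : s6 0 (Pm (j : ℕ)) π.q0 = full := Nat.eq_of_beq_eq_true h5.2
        have h7 := hSS 0 (Pm (j : ℕ)) π.q0 (code r) (pm_lt j) (code_lt r)
          (by rw [h6]; exact full_bit _ (code_lt r))
        rcases h7 with h7 | ⟨i, hi, h8, h9⟩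
        · exact absurd h7 (by simp)
        · obtain ⟨p, hp0, hpi⟩ := code_surj i hi
          rw [← hpi] at h8 h9
          rw [← code_add] at h9
          have h10 := (pm_iff j p hp0).1 h8
          refine ⟨p, p + r, ?_, hp0, h10.1, h10.2, ?_⟩
          · funext k
            simp only [Pi.add_apply]
            rw [← add_assoc, add_self', zero_add]
          · refine hRe _ ?_ h9
            simp only [Pi.add_apply]
            rw [Finset.sum_add_distrib, hp0, hr, add_zero]

end Pool.Agent.H16.FW
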