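import Pool.Agent.H16.FW.Msk

/-!
# FW-CM: the conditions `cmp` hold (helper86)
-/

set_option autoImplicit false

namespace Pool.Agent.H16.FW

open Finset Pool.Agent.TH362.TF Pool.Agent.TH362.TF.Four Q116.FF Pool.Agent.H16.FV

namespace CMh

theorem esym {V E : Type} {s t : E → V} {a b : V} {e : E} (h : Ends s t a b e) :
    Ends s t b a e := Or.symm h

section
variable {V E : Type} [Fintype V] [DecidableEq V] [DecidableEq E]

theorem nohub {s t : E → V} {S : Finset E} {x : Fin 4 → V} {a b : V}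
    (h : (Fo s t S x).Reachable a b) (ha : ∀ i, x i ≠ a) : ∀ i, x i ≠ b := by
  obtain ⟨w⟩ := h
  induction w with
  | nil => exact ha
  | cons hadj _ ih => exact ih hadj.2.2.1

theorem sd_nohub {s t : E → V} {S : Finset E} {x : Fin 4 → V} {y u a : V}
    (ha : a ∈ sd (Fo s t S x) y u) (hy : ∀ i, x i ≠ y) : ∀ i, x i ≠ a := by
  classical
  unfold sd at ha
  exact nohub ((Finset.mem_filter.1 ha).2.mono (SimpleGraph.deleteEdges_le _)) hy

theorem mem_nb {G : SimpleGraph V} {v w : V} (h : w ∈ nb' G v) : G.Adj v w := by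
  classical
  unfold nb' at h
  exact (Finset.mem_filter.1 h).2

theorem pa_nohub {s t : E → V} {S : Finset E} {x : Fin 4 → V} {v a : V} {W : Finset V}
    (hv : ∀ i, x i ≠ v) (hW : W ⊆ nb' (Fo s t S x) v) (ha : a ∈ pa (Fo s t S x) v W) :
    ∀ i, x i ≠ a := by
  unfold pa at ha
  rw [Finset.mem_insert, Finset.mem_biUnion] at ha
  rcases ha with ha | ⟨w, hw, ha⟩
  · rw [ha]
    exact hv
  · exact sd_nohub ha (mem_nb (hW hw)).2.2.1

theorem pa_mono {G : SimpleGraph V} {v : V} {W W' : Finset V} (h : W ⊆ W') :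
    pa G v W ⊆ pa G v W' := by
  unfold pa
  exact Finset.insert_subset_insert _ (Finset.biUnion_subset_biUnion_of_subset_left _ h)

theorem cnt_mono {s t : E → V} {S : Finset E} {x : Fin 4 → V} {A B : Finset V} (h : A ⊆ B)
    (i : Fin 4) : cnt s t S x A i ≤ cnt s t S x B i := by
  classical
  unfold cnt
  exact Finset.card_le_card (Finset.filter_subset_filter _ h)

theorem pcN {s t : E → V} {S : Finset E} {x : Fin 4 → V} {A : Finset V} {v : V} {q : ℕ}
    (hPC : S_PC) (hNUM : S_NUM) (h : Mc (1, 0) q (Rz s t S x A v (1, 0))) :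
    pc q ≤ N s t S x A v := by
  classical
  rw [← hNUM hPC (1, 0) q h.1]
  unfold N
  refine Finset.card_le_card fun p hp => ?_
  rw [Finset.mem_filter] at hp ⊢
  exact ⟨Finset.mem_univ _, h.2 p hp.2.1 hp.2.2⟩

end

end CMh

open CMh

theorem cm : S_CM := by
  classical
  intro V E _ _ _ s t S x hPC hNUM hFOR hG hMON hEDG v W y hv hW hy hyW π τ hπ hτ
  obtain ⟨f1, f2, f3, f4, f5, f6, f7⟩ := hFOR V (Fo s t S x) hG.acy
  have hvy : (Fo s t S x).Adj v y := mem_nb hy
  have hyh : ∀ i, x i ≠ y := hvy.2.2.1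
  obtain ⟨e0, he0, hend0⟩ := hvy.2.2.2
  have hvB : v ∉ sd (Fo s t S x) y v := (f1 y v hvy.symm).2
  have hdis : Disjoint (pa (Fo s t S x) v W) (sd (Fo s t S x) y v) := by
    rw [Finset.disjoint_left]
    intro a ha hb
    unfold pa at ha
    rw [Finset.mem_insert, Finset.mem_biUnion] at ha
    rcases ha with ha | ⟨w, hw, ha⟩
    · exact hvB (ha ▸ hb)
    · exact Finset.disjoint_left.1 (f4 v w y (mem_nb (hW hw)) hvy fun h => hyW (h ▸ hw)) ha hb
  have hsub : pa (Fo s t S x) v W ∪ sd (Fo s t S x) y v ⊆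
      pa (Fo s t S x) v (nb' (Fo s t S x) v) := by
    refine Finset.union_subset (pa_mono hW) fun a ha => ?_
    unfold pa
    rw [Finset.mem_insert, Finset.mem_biUnion]
    exact Or.inr ⟨y, hy, ha⟩
  have hcu : ∀ i, cnt s t S x (pa (Fo s t S x) v W) i + cnt s t S x (sd (Fo s t S x) y v) i ≤
      cnt s t S x (pa (Fo s t S x) v (nb' (Fo s t S x) v)) i := by
    intro i
    refine le_trans (le_of_eq ?_) (cnt_mono hsub i)
    unfold cnt
    rw [Finset.filter_union, Finset.card_union_of_disjoint]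
    exact Finset.disjoint_filter_filter hdis
  -- the numbers
  have hnum : (∃ i, 2 ≤ cnt s t S x (pa (Fo s t S x) v W) i + cnt s t S x (sd (Fo s t S x) y v) i) →
      pc π.q1 + pc τ.q ≤ 64 := by
    rintro ⟨i, hi⟩
    have h1 := hEDG v y hvy ⟨i, hi.trans (hcu i)⟩
    have h2 := pcN hPC hNUM hπ.q1
    have h3 := pcN hPC hNUM hτ.q
    have h4 := hMON v (nb' (Fo s t S x) v \ {y}) Finset.sdiff_subset W (fun w hw => by
      rw [Finset.mem_sdiff, Finset.mem_singleton]
      exact ⟨hW hw, fun h => hyW (h ▸ hw)⟩) hv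
    rw [← f3 v y hvy] at h4
    omega
  -- triangle
  have c1 : Nat.land τ.L π.L = 0 := by
    refine (hτ.L.land hπ.L).eq_zero.2 ?_
    rintro i ⟨⟨e1, he1, h1⟩, ⟨e2, he2, h2⟩⟩
    exact hG.tri v y (x i) hvy.1 (hyh i).symm (hv i) e0 he0 e1 he1 e2 he2 hend0 h1 (esym h2)
  have c2 : Nat.land τ.L π.C = 0 := by
    refine (hτ.L.land hπ.C).eq_zero.2 ?_
    rintro i ⟨⟨e1, he1, h1⟩, ⟨w, hw, e2, he2, h2⟩⟩
    have hvw := mem_nb (hW hw)
    obtain ⟨e3, he3, h3⟩ := hvw.2.2.2
    have hyw : y ≠ w := fun h => hyW (h ▸ hw)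
    exact hG.quad y v w (x i) hvy.1.symm hvw.1 (hvw.2.2.1 i).symm (hyh i) hyw (hv i).symm
      e0 he0 e3 he3 e2 he2 e1 he1 (esym hend0) h3 h2 (esym h1)
  have c3 : Nat.land τ.C π.L = 0 := by
    refine (hτ.C.land hπ.L).eq_zero.2 ?_
    rintro i ⟨⟨w, hw, e1, he1, h1⟩, ⟨e2, he2, h2⟩⟩
    rw [Finset.mem_sdiff, Finset.mem_singleton] at hw
    have hyw := mem_nb hw.1
    obtain ⟨e3, he3, h3⟩ := hyw.2.2.2
    exact hG.quad v y w (x i) hvy.1 hyw.1 (hyw.2.2.1 i).symm (hv i) (Ne.symm hw.2) (hyh i).symm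
      e0 he0 e3 he3 e1 he1 e2 he2 hend0 h3 h1 (esym h2)
  have c4 : Nat.land τ.pm π.pm = 0 := by
    refine (hτ.pm.land hπ.pm).eq_zero.2 ?_
    rintro i j hij ⟨⟨b, hb, ⟨e1, he1, h1⟩, ⟨e2, he2, h2⟩⟩, ⟨a, ha, ⟨e3, he3, h3⟩, ⟨e4, he4, h4⟩⟩⟩
    have hbh := sd_nohub hb hyh
    have hah := pa_nohub hv hW ha
    have hab : a ≠ b := fun h => Finset.disjoint_left.1 hdis ha (h ▸ hb)
    have hxx : x i ≠ x j := fun h => hij.ne (hG.inj h)
    exact hG.quad a (x i) b (x j) (hah i).symm (hbh i) (hbh j).symm (hah j) hab hxx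
      e3 he3 e1 he1 e2 he2 e4 he4 h3 (esym h1) h2 (esym h4)
  have c5 : pc π.q1 + pc τ.q ≤ 64 ∨
      Nat.lor (Nat.lor π.v τ.v) (Nat.land π.u τ.u) = 0 := by
    by_cases h : Nat.lor (Nat.lor π.v τ.v) (Nat.land π.u τ.u) = 0
    · exact Or.inr h
    · left
      apply hnum
      by_contra hno
      push Not at hno
      refine h (((hπ.v'.lor hτ.v').lor (hπ.u.land hτ.u)).eq_zero.2 fun i hi => ?_)
      have := hno i
      omega
  refine ⟨?_, fun h2 => ?_⟩
  · have b1 : Nat.beq (Nat.land τ.L π.L) 0 = true := by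
      rw [c1]
      rfl
    have b2 : Nat.beq (Nat.land τ.L π.C) 0 = true := by
      rw [c2]
      rfl
    have b3 : Nat.beq (Nat.land τ.C π.L) 0 = true := by
      rw [c3]
      rfl
    have b4 : Nat.beq (Nat.land τ.pm π.pm) 0 = true := by
      rw [c4]
      rfl
    unfold cmp
    rw [b1, b2, b3, b4]
    simp only [Bool.true_and, Bool.or_eq_true]
    rcases c5 with h | h
    · exact Or.inl (Nat.ble_eq_true_of_le h)
    · right
      rw [h]
      rfl
  · by_contra hc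
    have hf : fat π = true := by simpa using hc
    unfold fat at hf
    rw [Bool.and_eq_true] at hf
    have h3 : 63 ≤ pc π.q1 := Nat.le_of_ble_eq_true hf.1
    have h4 : π.v ≠ 0 := by
      intro h
      rw [h] at hf
      simp at hf
    have h5 := hnum (by
      by_contra hno
      push Not at hno
      refine h4 (hπ.v'.eq_zero.2 fun i hi => ?_)
      have := hno i
      omega)
    omega

end Pool.Agent.H16.FW
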