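import Pool.Agent.H16.FW.Fit

/-!
# FW-CNT: the final count
-/

set_option autoImplicit false

namespace Pool.Agent.H16.FW

open Finset

namespace CNTh

theorem prs_card : prs.card = 6 := by decide

theorem tri_meet : ∀ j j' : Fin 4, ∃ a b : Fin 4, a < b ∧ a ≠ j ∧ b ≠ j ∧ a ≠ j' ∧ b ≠ j' := by
  decide

theorem tri3 : ∀ j : Fin 4, (prs.filter (fun z => z.1 ≠ j ∧ z.2 ≠ j)).card = 3 := by decide

theorem tri_card (j : Fin 4) (X : Finset (Fin 4 × Fin 4))
    (h : ∀ a b : Fin 4, a < b → a ≠ j → b ≠ j → (a, b) ∈ X) : 3 ≤ X.card := by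
  rw [← tri3 j]
  refine Finset.card_le_card fun z hz => ?_
  simp only [prs, Finset.mem_filter, Finset.mem_univ, true_and] at hz
  exact h z.1 z.2 hz.1 hz.2.1 hz.2.2

end CNTh

open CNTh

theorem cnt_final : S_CNT := by
  intro ι _ K o PR TP TR hsub hdis htyp hRR hRP
  have htot : ∑ k ∈ K, (PR k).card ≤ 6 := by
    rw [← Finset.card_biUnion (fun k hk k' hk' h => hdis k hk k' hk' h), ← prs_card]
    exact Finset.card_le_card (Finset.biUnion_subset.2 hsub)
  have h2 : ∀ k ∈ K, 2 ≤ (PR k).card := by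
    intro k hk
    rcases htyp k hk with h | ⟨j, _, _, h⟩ | h
    · exact h.2
    · have := tri_card j _ h
      omega
    · exact h.2.1
  by_cases hP : ∃ k ∈ K, ∃ j, o k ≤ 7 ∧ TP k j ∧
      ∀ a b : Fin 4, a < b → a ≠ j → b ≠ j → (a, b) ∈ PR k
  · obtain ⟨k0, hk0, j, ho, htp, htri⟩ := hP
    have h3 := tri_card j _ htri
    have hs := Finset.add_sum_erase K (fun k => (PR k).card) hk0
    have h4 : (K.erase k0).card * 2 ≤ ∑ k ∈ K.erase k0, (PR k).card := by
      rw [← smul_eq_mul]
      exact Finset.card_nsmul_le_sum _ _ _ fun k hk => h2 k (Finset.mem_of_mem_erase hk)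
    have h5 : (K.erase k0).card ≤ 1 := by omega
    have hso := Finset.add_sum_erase K o hk0
    haveI : Nonempty ι := ⟨k0⟩
    rcases Finset.card_le_one_iff_subset_singleton.1 h5 with ⟨k1, hk1⟩
    rcases Finset.subset_singleton_iff.1 hk1 with he | he
    · rw [he, Finset.sum_empty] at hso
      omega
    · rw [he, Finset.sum_singleton] at hso
      have hm : k1 ∈ K.erase k0 := by
        rw [he]
        exact Finset.mem_singleton_self _
      have hne : k1 ≠ k0 := Finset.ne_of_mem_erase hm
      have hk1K := Finset.mem_of_mem_erase hm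
      rcases htyp k1 hk1K with h | ⟨j', _, _, h⟩ | h
      · omega
      · exfalso
        obtain ⟨a, b, hab, h6, h7, h8, h9⟩ := tri_meet j j'
        exact Finset.disjoint_left.1 (hdis k0 hk0 k1 hk1K hne.symm) (htri a b hab h6 h7)
          (h a b hab h8 h9)
      · have := hRP k1 hk1K k0 hk0 hne h.2.2 j htp
        omega
  · have h4 : K.card * 2 ≤ ∑ k ∈ K, (PR k).card := by
      rw [← smul_eq_mul]
      exact Finset.card_nsmul_le_sum _ _ _ fun k hk => h2 k hk
    have h5 : K.card ≤ 3 := by omega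
    have htyp' : ∀ k ∈ K, o k ≤ 2 ∨ (o k ≤ 8 ∧ TR k) := by
      intro k hk
      rcases htyp k hk with h | h | h
      · exact Or.inl h.1
      · exact absurd ⟨k, hk, h⟩ hP
      · exact Or.inr ⟨h.1, h.2.2⟩
    by_cases hR : ∃ k ∈ K, o k ≤ 8 ∧ TR k
    · obtain ⟨k0, hk0, ho, htr⟩ := hR
      have hso := Finset.add_sum_erase K o hk0
      have h6 : ∑ k ∈ K.erase k0, o k ≤ (K.erase k0).card * 2 := by
        rw [← smul_eq_mul]
        refine Finset.sum_le_card_nsmul _ _ _ fun k hk => ?_
        have hne := Finset.ne_of_mem_erase hk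
        have hkK := Finset.mem_of_mem_erase hk
        rcases htyp' k hkK with h | h
        · exact h
        · exact absurd htr fun h' => hRR k hkK k0 hk0 hne h.2 h'
      have h7 := Finset.card_erase_of_mem hk0
      omega
    · have h6 : ∑ k ∈ K, o k ≤ K.card * 2 := by
        rw [← smul_eq_mul]
        refine Finset.sum_le_card_nsmul _ _ _ fun k hk => ?_
        rcases htyp' k hk with h | h
        · exact h
        · exact absurd ⟨k, hk, h⟩ hR
      omega

end Pool.Agent.H16.FW
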