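import Pool.Agent.H16.FW.Shp

/-!
FW-CTP: a graph with a component that contracts to the Petersen graph has a Petersen quotient.
-/

set_option autoImplicit false

namespace Pool.Agent.H16.FW

open Finset Pool.Agent.TH362 Pool.Agent.TH362.TF Pool.Agent.TH362.TF.Four Q116.FF
  Pool.Agent.H16.FV

open TF.Contr in
theorem ctp : S_CTP := by
  intro V E _ _ _ _ s t hC
  classical
  obtain ⟨B, _, hdis, huni, hout⟩ := hC
  obtain ⟨P, hP⟩ : ∃ P : Fin 10 → {p : Finset (Fin 5) // p.card = 2}, ∀ k, (P k).1 = pr k :=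
    ⟨fun k => ⟨pr k, pr_card k⟩, fun _ => rfl⟩
  have hPs : ∀ i, ∃ k, P k = i := by
    intro i
    obtain ⟨k, hk⟩ := pr_surj i.1 i.2
    exact ⟨k, Subtype.ext (by rw [hP, hk])⟩
  have hPi : ∀ k l, P k = P l → k = l := by
    intro k l h
    apply pr_inj
    rw [← hP, ← hP, h]
  have hPd : ∀ k l, Disjoint (P k).1 (P l).1 ↔ padj k l = true := by
    intro k l
    rw [hP, hP, pr_padj]
  obtain ⟨κ, hκ⟩ : ∃ κ : V → Fin 10, ∀ v, κ v =
      if h : ∃ k, v ∈ B (P k) then h.choose else 0 := ⟨_, fun _ => rfl⟩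
  have hk1 : ∀ v k, v ∈ B (P k) → κ v = k := by
    intro v k hv
    have hex : ∃ k, v ∈ B (P k) := ⟨k, hv⟩
    rw [hκ, dif_pos hex]
    have h2 := hex.choose_spec
    by_contra hne
    exact (Set.disjoint_left.1 (hdis (P hex.choose) (P k) fun h => hne (hPi _ _ h))) h2 hv
  have hk0 : ∀ v, (∀ k, v ∉ B (P k)) → κ v = 0 := by
    intro v hv
    rw [hκ, dif_neg]
    rintro ⟨k, hk⟩
    exact hv k hk
  have hout1 : ∀ e k, s e ∈ B (P k) → ∃ l, t e ∈ B (P l) ∧ (k = l ∨ padj k l = true) := by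
    intro e k h
    obtain ⟨i, hi, h2⟩ := (hout e (P k)).1 h
    obtain ⟨l, rfl⟩ := hPs i
    refine ⟨l, hi, ?_⟩
    rcases h2 with h2 | h2
    · exact Or.inl (hPi _ _ h2)
    · exact Or.inr ((hPd _ _).1 h2)
  have hout2 : ∀ e k, t e ∈ B (P k) → ∃ l, s e ∈ B (P l) ∧ (k = l ∨ padj k l = true) := by
    intro e k h
    obtain ⟨i, hi, h2⟩ := (hout e (P k)).2 h
    obtain ⟨l, rfl⟩ := hPs i
    refine ⟨l, hi, ?_⟩
    rcases h2 with h2 | h2
    · exact Or.inl (hPi _ _ h2)
    · exact Or.inr ((hPd _ _).1 h2)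
  refine ⟨κ, fun k => ?_, fun k l hkl => ?_⟩
  · have h1 : ∀ j, ∃ e, ((s e ∈ B (P k) ∧ t e ∈ B (P (nb k j))) ∨
        (s e ∈ B (P (nb k j)) ∧ t e ∈ B (P k))) ∧
        ∀ y, ((s y ∈ B (P k) ∧ t y ∈ B (P (nb k j))) ∨
        (s y ∈ B (P (nb k j)) ∧ t y ∈ B (P k))) → y = e :=
      fun j => huni (P k) (P (nb k j)) ((hPd _ _).2 (padj_nb k j))
    choose f hf hfu using h1
    have hinj : Function.Injective f := by
      intro i j hij
      have h1 := hf i
      have h2 := hf j
      rw [hij] at h1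
      have h3 := nb_ne k i
      have h4 := nb_ne k j
      apply nb_inj k
      rcases h1 with ⟨a, b⟩ | ⟨a, b⟩ <;> rcases h2 with ⟨c, d⟩ | ⟨c, d⟩
      · exact (hk1 _ _ b).symm.trans (hk1 _ _ d)
      · exact absurd ((hk1 _ _ c).symm.trans (hk1 _ _ a)) h4
      · exact absurd ((hk1 _ _ a).symm.trans (hk1 _ _ c)) h3
      · exact (hk1 _ _ a).symm.trans (hk1 _ _ c)
    have heq : cut s t univ (fun v => decide (κ v = k)) = univ.image f := by
      ext e
      unfold cut
      rw [Finset.mem_filter, Finset.mem_image]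
      constructor
      · rintro ⟨_, he⟩
        have he' : ¬ (κ (s e) = k ↔ κ (t e) = k) := fun h => he (decide_eq_decide.2 h)
        have hs : ∀ l, s e ∈ B (P l) → ∃ l', t e ∈ B (P l') := fun l hl =>
          let ⟨l', h, _⟩ := hout1 e l hl
          ⟨l', h⟩
        have ht : ∀ l, t e ∈ B (P l) → ∃ l', s e ∈ B (P l') := fun l hl =>
          let ⟨l', h, _⟩ := hout2 e l hl
          ⟨l', h⟩
        have hex : ∃ l, s e ∈ B (P l) := by
          by_contra hno
          push Not at hno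
          have hno2 : ∀ l, t e ∉ B (P l) := fun l hl => by
            obtain ⟨l', h⟩ := ht l hl
            exact hno l' h
          exact he' (by rw [hk0 _ hno, hk0 _ hno2])
        obtain ⟨l, hl⟩ := hex
        obtain ⟨l', hl', h5⟩ := hout1 e l hl
        rw [hk1 _ _ hl, hk1 _ _ hl'] at he'
        have hll : l ≠ l' := by rintro rfl; exact he' Iff.rfl
        have h6 : padj l l' = true := h5.resolve_left hll
        by_cases h7 : l = k
        · subst h7
          obtain ⟨j, hj⟩ := nb_of_padj _ _ h6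
          exact ⟨j, Finset.mem_univ _, (hfu j e (Or.inl ⟨hl, by rw [hj]; exact hl'⟩)).symm⟩
        · have h8 : l' = k := by
            by_contra h8
            exact he' ⟨fun h => absurd h h7, fun h => absurd h h8⟩
          subst h8
          have h9 : padj l' l = true := by
            rw [← hPd] at h6 ⊢
            exact h6.symm
          obtain ⟨j, hj⟩ := nb_of_padj _ _ h9
          exact ⟨j, Finset.mem_univ _, (hfu j e (Or.inr ⟨by rw [hj]; exact hl, hl'⟩)).symm⟩
      · rintro ⟨j, _, rfl⟩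
        refine ⟨Finset.mem_univ _, ?_⟩
        show decide (κ (s (f j)) = k) ≠ decide (κ (t (f j)) = k)
        have h4 := nb_ne k j
        rcases hf j with ⟨a, b⟩ | ⟨a, b⟩
        · rw [hk1 _ _ a, hk1 _ _ b]
          simpa using h4
        · rw [hk1 _ _ a, hk1 _ _ b]
          simpa using h4
    rw [heq, Finset.card_image_of_injective _ hinj, Finset.card_univ, Fintype.card_fin]
  · obtain ⟨e, he, _⟩ := huni (P k) (P l) ((hPd _ _).2 hkl)
    refine ⟨e, Finset.mem_univ _, ?_⟩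
    rcases he with ⟨a, b⟩ | ⟨a, b⟩
    · exact Or.inl ⟨hk1 _ _ a, hk1 _ _ b⟩
    · exact Or.inr ⟨hk1 _ _ a, hk1 _ _ b⟩

end Pool.Agent.H16.FW
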