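import Pool.Agent.H16.FW.Dfs

/-!
# PROJECT FW (helper16): branches with at most 32 vectors, components
-/

set_option autoImplicit false

namespace Pool.Agent.H16.FW

open Finset Pool.Agent.TH362.TF Pool.Agent.TH362.TF.Four Q116.FF Pool.Agent.H16.FV

set_option linter.unusedSectionVars false

theorem fnd_sound {π : P} : ∀ {l : List T}, fnd π l = true →
    ∃ τ ∈ l, τ.q = π.q1 ∧ τ.L = π.L ∧ τ.C = π.C ∧ τ.u = π.u ∧ τ.v = π.v ∧ τ.pm = π.pm ∧
      π.odd + (1 - π.ne % 2) ≤ τ.odd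
  | [], h => absurd h (by simp [fnd])
  | τ :: r, h => by
    unfold fnd at h
    rw [Bool.or_eq_true] at h
    rcases h with h | h
    · simp only [Bool.and_eq_true] at h
      obtain ⟨h1, ⟨h2, h3⟩, ⟨h4, h5⟩, h6, h7⟩ := h
      exact ⟨τ, List.mem_cons_self, Nat.eq_of_beq_eq_true h1, Nat.eq_of_beq_eq_true h2,
        Nat.eq_of_beq_eq_true h3, Nat.eq_of_beq_eq_true h4, Nat.eq_of_beq_eq_true h5,
        Nat.eq_of_beq_eq_true h6, Nat.le_of_ble_eq_true h7⟩
    · obtain ⟨τ', h1, h2⟩ := fnd_sound h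
      exact ⟨τ', List.mem_cons_of_mem _ h1, h2⟩

section
variable {V E : Type} [Fintype V] [DecidableEq V] [DecidableEq E]

theorem od_erase {s t : E → V} {S : Finset E} {A : Finset V} {v : V} (hv : v ∈ A) :
    od s t S A = od s t S (A.erase v) + dgr s t S v % 2 := by
  unfold od
  rw [← insert_erase hv, erase_insert (notMem_erase v A), filter_insert]
  by_cases h : Odd (dgr s t S v)
  · rw [if_pos h, card_insert_of_notMem (by simp), Nat.odd_iff.1 h]
  · rw [if_neg h, Nat.even_iff.1 (Nat.not_odd_iff_even.1 h), add_zero]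

theorem cnt_mono {s t : E → V} {S : Finset E} {x : Fin 4 → V} {A A' : Finset V} (h : A ⊆ A')
    (i : Fin 4) : cnt s t S x A i ≤ cnt s t S x A' i := by
  classical
  unfold cnt
  exact card_le_card (filter_subset_filter _ h)

theorem bm_ne {m : ℕ} {Q : Fin 4 → Prop} (h : BM m Q) (hm : m ≠ 0) : ∃ i, Q i := by
  obtain ⟨k, hk⟩ := Nat.exists_testBit_of_ne_zero hm
  obtain ⟨i, _, hi⟩ := (h k).1 hk
  exact ⟨i, hi⟩

/-- all facts which are used -/
structure Fy (s t : E → V) (S : Finset E) (x : Fin 4 → V) : Prop extends Hg s t S x,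
    Fx s t S x where
  pcs : S_PC
  num : S_NUM
  lpn : S_LPN
  fr : S_FOR
  dg : ∀ v : V, (∀ i, x i ≠ v) → dgr s t S v =
      Nat.card {i // La s t S x v i} + (nb' (Fo s t S x) v).card
  mon : ∀ v u, (Fo s t S x).Adj v u → ∀ y ∈ nb' (Fo s t S x) v, y ≠ u →
      N s t S x (sd (Fo s t S x) y v) y ≤ N s t S x (sd (Fo s t S x) v u) v
  gd1 : ∀ v u, (Fo s t S x).Adj v u → ∀ π : P,
    FitP s t S x π v (sd (Fo s t S x) v u) (nb' (Fo s t S x) v \ {u}) → π.v ≠ 0 →
    sup (idl z1 π.u π.v) π.q1 = true → False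
  gd0 : ∀ v, (∀ i, x i ≠ v) → ∀ π : P,
    FitP s t S x π v (pa (Fo s t S x) v (nb' (Fo s t S x) v)) (nb' (Fo s t S x) v) → π.v ≠ 0 →
    sup (idl z0 π.u π.v) π.q0 = true → False
  edg : ∀ v u, (Fo s t S x).Adj v u →
      (∃ i, 2 ≤ cnt s t S x (pa (Fo s t S x) v (nb' (Fo s t S x) v)) i) →
      N s t S x (sd (Fo s t S x) v u) v + N s t S x (sd (Fo s t S x) u v) u ≤ 64
  low : ∀ (A : Finset V) (v : V), (∀ i, x i ∉ A) → v ∈ A → 28 ≤ N s t S x A v →
      ∃ i, 2 ≤ cnt s t S x A i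
  hub : ∀ v u, (Fo s t S x).Adj v u → ∀ i, x i ∉ sd (Fo s t S x) v u

variable {s t : E → V} {S : Finset E} {x : Fin 4 → V}

theorem mem_nb' {G : SimpleGraph V} {v w : V} : w ∈ nb' G v ↔ G.Adj v w := by
  classical
  unfold nb'
  simp

theorem Fy.pcle (h : Fy s t S x) {A : Finset V} {v : V} {q : ℕ}
    (hq : Mc (1, 0) q (Rz s t S x A v (1, 0))) : pc q ≤ N s t S x A v := by
  classical
  rw [← h.num h.pcs (1, 0) q hq.1]
  unfold N
  refine card_le_card ?_
  intro p hp
  rw [mem_filter] at hp ⊢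
  exact ⟨hp.1, hq.2 p hp.2.1 hp.2.2⟩

theorem Fy.cutne (_h : Fy s t S x) {v u : V} (huv : (Fo s t S x).Adj v u) :
    (cut s t S (fun w => decide (w = v))).Nonempty := by
  obtain ⟨h1, _, _, e, he, k⟩ := huv
  refine ⟨e, ?_⟩
  unfold cut
  rw [mem_filter]
  refine ⟨he, ?_⟩
  rcases k with ⟨k1, k2⟩ | ⟨k1, k2⟩
  · simp [k1, k2, h1.symm]
  · simp [k1, k2, h1.symm]

theorem Fy.light (h : Fy s t S x) : ∀ (n : ℕ) (v u : V), (Fo s t S x).Adj v u →
    (sd (Fo s t S x) v u).card ≤ n → N s t S x (sd (Fo s t S x) v u) v ≤ 32 →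
    ∃ τ ∈ TL, FitT s t S x τ v (sd (Fo s t S x) v u) (nb' (Fo s t S x) v \ {u}) := by
  obtain ⟨f1, f2, f3, f4, f5, f6, f7⟩ := h.fr V (Fo s t S x) h.acy
  intro n
  induction n with
  | zero =>
    intro v u hvu hc _
    have := (f1 v u hvu).1
    rw [Nat.le_zero, card_eq_zero] at hc
    rw [hc] at this
    exact absurd this (notMem_empty _)
  | succ n ih =>
    intro v u hvu hc hN
    have hv : ∀ i, x i ≠ v := hvu.2.1
    have hW : nb' (Fo s t S x) v \ {u} ⊆ nb' (Fo s t S x) v := sdiff_subset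
    obtain ⟨π, hf, hok⟩ := dfs h.lpn h.toFx v hv _ hW (by
      intro y hy
      rw [mem_sdiff, mem_singleton] at hy
      have hvy := mem_nb'.1 hy.1
      refine ih y v hvy.symm ?_ ((h.mon v u hvu y hy.1 hy.2).trans hN)
      have h1 : sd (Fo s t S x) y v ⊂ sd (Fo s t S x) v u := by
        rw [ssubset_iff_of_subset]
        · exact ⟨v, (f1 v u hvu).1, (f1 y v hvy.symm).2⟩
        · rw [f3 v u hvu]
          intro w hw
          unfold pa
          refine mem_insert_of_mem (mem_biUnion.2 ⟨y, ?_, hw⟩)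
          rw [mem_sdiff, mem_singleton]
          exact hy
      have := card_lt_card h1
      omega)
    rw [← f3 v u hvu] at hf
    have h1 : 3 ≤ dgr s t S v := h.deg v (h.cutne hvu)
    have h2 : (nb' (Fo s t S x) v \ {u}).card + 1 = (nb' (Fo s t S x) v).card := by
      have h3 : {u} ⊆ nb' (Fo s t S x) v := by
        rw [singleton_subset_iff]
        exact mem_nb'.2 hvu
      rw [card_sdiff_of_subset h3, card_singleton]
      have := card_pos.2 ⟨u, mem_nb'.2 hvu⟩
      omega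
    have h3 := h.dg v hv
    have h4 := hf.ne
    unfold okc at hok
    rw [Bool.and_eq_true] at hok
    have hok1 := hok.1
    rw [Bool.or_eq_true, Bool.or_eq_true, Bool.or_eq_true] at hok1
    rcases hok1 with h5 | h5 | h5 | h5
    · have := Nat.le_of_ble_eq_true h5
      omega
    · have h6 := Nat.le_of_ble_eq_true h5
      have := h.pcle hf.q1
      omega
    · rw [Bool.and_eq_true] at h5
      refine (h.gd1 v u hvu π hf ?_ h5.2).elim
      intro h6
      rw [h6] at h5
      exact absurd h5.1 (by decide)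
    · obtain ⟨τ, k1, k2, k3, k4, k5, k6, k7, k8⟩ := fnd_sound h5
      refine ⟨τ, k1, ?_⟩
      refine ⟨by rw [k3]; exact hf.L, by rw [k4]; exact hf.C, by rw [k5]; exact hf.u,
        by rw [k6]; exact hf.v', by rw [k7]; exact hf.pm, by rw [k2]; exact hf.q1, ?_⟩
      rw [od_erase (f1 v u hvu).1]
      have := hf.odd
      omega

/-- each component has a vertex such that all branches at it realize at most 32 vectors -/
theorem Fy.centre (h : Fy s t S x) (v₀ : V) (_hv₀ : ∀ i, x i ≠ v₀) :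
    ∃ r, (Fo s t S x).Reachable v₀ r ∧ ∀ y ∈ nb' (Fo s t S x) r,
      N s t S x (sd (Fo s t S x) y r) y ≤ 32 := by
  classical
  obtain ⟨f1, f2, f3, f4, f5, f6, f7⟩ := h.fr V (Fo s t S x) h.acy
  set Q : Finset (V × V) := univ.filter (fun z => (Fo s t S x).Reachable v₀ z.1 ∧
    (Fo s t S x).Adj z.1 z.2 ∧ 33 ≤ N s t S x (sd (Fo s t S x) z.1 z.2) z.1) with hQ
  by_cases hne : Q.Nonempty
  · obtain ⟨⟨v, u⟩, hm, hmin⟩ := exists_min_image Q
      (fun z => (sd (Fo s t S x) z.1 z.2).card) hne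
    rw [hQ, mem_filter] at hm
    obtain ⟨-, m1, m2, m3⟩ := hm
    dsimp only at m1 m2 m3 hmin
    refine ⟨v, m1, fun y hy => ?_⟩
    have hvy := mem_nb'.1 hy
    by_cases hyu : y = u
    · subst hyu
      obtain ⟨i, hi⟩ := h.low (sd (Fo s t S x) v y) v (h.hub v y m2) (f1 v y m2).1 (by omega)
      have h2 : sd (Fo s t S x) v y ⊆ pa (Fo s t S x) v (nb' (Fo s t S x) v) := by
        rw [(f5 v y m2).1]
        exact subset_union_left
      have := h.edg v y m2 ⟨i, hi.trans (cnt_mono h2 i)⟩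
      omega
    · by_contra hcon
      push Not at hcon
      have h2 : (y, v) ∈ Q := by
        rw [hQ, mem_filter]
        exact ⟨mem_univ _, m1.trans hvy.reachable, hvy.symm, hcon⟩
      have h3 := hmin _ h2
      dsimp only at h3
      have h1 : sd (Fo s t S x) y v ⊂ sd (Fo s t S x) v u := by
        rw [ssubset_iff_of_subset]
        · exact ⟨v, (f1 v u m2).1, (f1 y v hvy.symm).2⟩
        · rw [f3 v u m2]
          intro w hw
          unfold pa
          refine mem_insert_of_mem (mem_biUnion.2 ⟨y, ?_, hw⟩)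
          rw [mem_sdiff, mem_singleton]
          exact ⟨hy, hyu⟩
      have := card_lt_card h1
      omega
  · refine ⟨v₀, SimpleGraph.Reachable.refl _, fun y hy => ?_⟩
    by_contra hcon
    push Not at hcon
    have hvy := mem_nb'.1 hy
    apply hne
    refine ⟨(y, v₀), ?_⟩
    rw [hQ, mem_filter]
    exact ⟨mem_univ _, hvy.reachable, hvy.symm, hcon⟩

theorem Fy.comp (h : Fy s t S x) {r : V} (hr : ∀ i, x i ≠ r)
    (hc : (cut s t S (fun w => decide (w = r))).Nonempty)
    (hl : ∀ y ∈ nb' (Fo s t S x) r, N s t S x (sd (Fo s t S x) y r) y ≤ 32) :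
    ∃ (π : P) (o : ℕ), FitP s t S x π r (pa (Fo s t S x) r (nb' (Fo s t S x) r))
      (nb' (Fo s t S x) r) ∧ od s t S (pa (Fo s t S x) r (nb' (Fo s t S x) r)) ≤ o ∧
      cls π o = true := by
  obtain ⟨f1, f2, f3, f4, f5, f6, f7⟩ := h.fr V (Fo s t S x) h.acy
  obtain ⟨π, hf, hok⟩ := dfs h.lpn h.toFx r hr _ (Subset.refl _) (fun y hy =>
    h.light _ y r (mem_nb'.1 hy).symm le_rfl (hl y hy))
  refine ⟨π, π.odd + π.ne % 2, hf, ?_, ?_⟩
  · have h1 : r ∈ pa (Fo s t S x) r (nb' (Fo s t S x) r) := by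
      unfold pa
      exact mem_insert_self _ _
    rw [od_erase h1]
    have := hf.odd
    have h2 := hf.ne
    have h3 := h.dg r hr
    rw [← h3] at h2
    omega
  · have h1 : 3 ≤ dgr s t S r := h.deg r hc
    have h3 := h.dg r hr
    have h4 := hf.ne
    unfold okc at hok
    rw [Bool.and_eq_true] at hok
    have hok1 := hok.2
    rw [Bool.or_eq_true, Bool.or_eq_true] at hok1
    rcases hok1 with h5 | h5 | h5
    · have := Nat.le_of_ble_eq_true h5
      omega
    · rw [Bool.and_eq_true] at h5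
      refine (h.gd0 r hr π hf ?_ h5.2).elim
      intro h6
      rw [h6] at h5
      exact absurd h5.1 (by decide)
    · exact h5

end

end Pool.Agent.H16.FW
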