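import Pool.Agent.H16.FW.K35

/-!
Connectivity of branches with their hubs (FW-CON, helper35).
-/

set_option autoImplicit false
set_option linter.unusedSectionVars false

namespace Pool.Agent.H16.FW

open Finset Pool.Agent.TH362.TF Pool.Agent.TH362.TF.Four Q116.FF Pool.Agent.H16.FV K35

section
variable {V E : Type} [Fintype V] [DecidableEq V] [DecidableEq E]

theorem K35.lk_ct {s t : E → V} {S : Finset E} {x : Fin 4 → V} {A T : Finset V} (hAT : A ⊆ T)
    {v w : V} (h : Lk' (Fo s t S x) A v w) :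
    Relation.ReflTransGen (fun x y => x ∈ T ∧ y ∈ T ∧ ∃ e ∈ S, Ends s t x y e) v w := by
  unfold Lk' at h
  induction h with
  | refl => exact Relation.ReflTransGen.refl
  | tail _ h ih => exact ih.tail ⟨hAT h.1, hAT h.2.1, h.2.2.2.2.2⟩

theorem K35.rt_sym {s t : E → V} {S : Finset E} {T : Finset V} {x y : V}
    (hxy : Relation.ReflTransGen
      (fun x y => x ∈ T ∧ y ∈ T ∧ ∃ e ∈ S, Ends s t x y e) x y) :
    Relation.ReflTransGen (fun x y => x ∈ T ∧ y ∈ T ∧ ∃ e ∈ S, Ends s t x y e) y x := by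
  induction hxy with
  | refl => exact Relation.ReflTransGen.refl
  | tail _ hpq ih =>
    obtain ⟨h1, h2, e, he, k⟩ := hpq
    exact Relation.ReflTransGen.head ⟨h2, h1, e, he, ends_sy k⟩ ih

theorem K35.cnt_pos {s t : E → V} {S : Finset E} {x : Fin 4 → V} {A : Finset V} {i : Fin 4}
    (h : 1 ≤ cnt s t S x A i) : ∃ a ∈ A, ∃ e ∈ S, Ends s t a (x i) e := by
  classical
  unfold cnt at h
  obtain ⟨a, ha⟩ := card_pos.1 h
  rw [mem_filter] at ha
  exact ⟨a, ha.1, ha.2⟩

theorem K35.mem_cl {s t : E → V} {S : Finset E} {x : Fin 4 → V} {A : Finset V} {w : V} :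
    w ∈ cl s t S x A ↔ w ∈ A ∨ ∃ i, 2 ≤ cnt s t S x A i ∧ x i = w := by
  classical
  unfold cl
  rw [mem_union, mem_image]
  simp

theorem K35.cnt_union {s t : E → V} {S : Finset E} {x : Fin 4 → V} {A A' : Finset V}
    (h : Disjoint A A') (i : Fin 4) :
    cnt s t S x (A ∪ A') i = cnt s t S x A i + cnt s t S x A' i := by
  classical
  unfold cnt
  rw [filter_union, card_union_of_disjoint]
  exact disjoint_filter_filter h

end

theorem con : S_CON := by
  intro hFOR V E _ _ _ s t S x H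
  obtain ⟨f1, f2, f3, f4, f5, f6, f7⟩ := hFOR V (Fo s t S x) H.acy
  constructor
  · intro v W hW hv
    apply ct_root (r := v)
    have hsub : pa (Fo s t S x) v W ⊆ cl s t S x (pa (Fo s t S x) v W) := subset_union_left
    intro u hu
    rcases mem_cl.1 hu with h | ⟨i, h, rfl⟩
    · exact lk_ct hsub (f7 v W hW u h)
    · obtain ⟨a, ha, e, he, k⟩ := cnt_pos (le_trans (by norm_num) h)
      exact (lk_ct hsub (f7 v W hW a ha)).tail ⟨hsub ha, hu, e, he, k⟩
  · intro v W hW hv v' W' hW' hv' hdis ⟨j, hj1, hj2⟩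
    apply ct_root (r := v)
    set T := cl s t S x (pa (Fo s t S x) v W ∪ pa (Fo s t S x) v' W') with hT
    have hsub : pa (Fo s t S x) v W ⊆ T := subset_union_left.trans subset_union_left
    have hsub' : pa (Fo s t S x) v' W' ⊆ T := subset_union_right.trans subset_union_left
    have hjT : x j ∈ T := by
      rw [hT, mem_cl]
      exact Or.inr ⟨j, by rw [cnt_union hdis]; omega, rfl⟩
    have hv1 : ∀ w ∈ pa (Fo s t S x) v W, Relation.ReflTransGen
        (fun x y => x ∈ T ∧ y ∈ T ∧ ∃ e ∈ S, Ends s t x y e) v w :=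
      fun w hw => lk_ct hsub (f7 v W hW w hw)
    have hj : Relation.ReflTransGen
        (fun x y => x ∈ T ∧ y ∈ T ∧ ∃ e ∈ S, Ends s t x y e) v (x j) := by
      obtain ⟨a, ha, e, he, k⟩ := cnt_pos hj1
      exact (hv1 a ha).tail ⟨hsub ha, hjT, e, he, k⟩
    have hv2 : ∀ w ∈ pa (Fo s t S x) v' W', Relation.ReflTransGen
        (fun x y => x ∈ T ∧ y ∈ T ∧ ∃ e ∈ S, Ends s t x y e) v w := by
      intro w hw
      obtain ⟨a, ha, e, he, k⟩ := cnt_pos hj2
      refine (hj.tail ⟨hjT, hsub' ha, e, he, ends_sy k⟩).trans ?_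
      exact (rt_sym (lk_ct hsub' (f7 v' W' hW' a ha))).trans (lk_ct hsub' (f7 v' W' hW' w hw))
    have hv3 : ∀ w ∈ pa (Fo s t S x) v W ∪ pa (Fo s t S x) v' W', Relation.ReflTransGen
        (fun x y => x ∈ T ∧ y ∈ T ∧ ∃ e ∈ S, Ends s t x y e) v w := by
      intro w hw
      rw [mem_union] at hw
      exact hw.elim (hv1 w) (hv2 w)
    intro u hu
    rcases mem_cl.1 hu with h | ⟨i, h, rfl⟩
    · exact hv3 u h
    · obtain ⟨a, ha, e, he, k⟩ := cnt_pos (le_trans (by norm_num) h)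
      exact (hv3 a ha).tail ⟨mem_cl.2 (Or.inl ha), hu, e, he, k⟩

end Pool.Agent.H16.FW
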