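import Pool.Agent.H16.FW.Stm
import Pool.Agent.H16.FV.Bas

/-!
The degree of a vertex outside of the hubs (stub FW-DEG).
-/

set_option autoImplicit false

namespace Pool.Agent.H16.FW

open Finset Pool.Agent.TH362.TF Pool.Agent.TH362.TF.Four Q116.FF Pool.Agent.H16.FV

theorem deg : S_DEG := by
  intro V E _ _ _ s t S x hx hP v hv
  classical
  set C := cut s t S (fun u => decide (u = v)) with hC
  have h1 : (C.image (oth s t v)).card = C.card := by
    apply card_image_of_injOn
    intro e he e' he' hee
    have g1 := cut_ends.1 (mem_coe.1 he)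
    have g2 := cut_ends.1 (mem_coe.1 he')
    have hee : oth s t v e = oth s t v e' := hee
    exact hP v (oth s t v e) e e' (fun h => g1.2.1 h.symm) g1.1 g2.1 g1.2.2 (hee ▸ g2.2.2)
  have h2 : C.image (oth s t v) = (univ.filter (fun i => La s t S x v i)).image x ∪
      univ.filter (fun w => (Fo s t S x).Adj v w) := by
    ext w
    rw [mem_union, mem_image, mem_image]
    constructor
    · rintro ⟨e, he, rfl⟩
      obtain ⟨g1, g2, g3⟩ := cut_ends.1 he
      by_cases hw : ∃ i, x i = oth s t v e
      · obtain ⟨i, hi⟩ := hw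
        left
        refine ⟨i, ?_, hi⟩
        rw [mem_filter]
        exact ⟨mem_univ _, e, g1, by rw [hi]; exact g3⟩
      · right
        rw [mem_filter]
        exact ⟨mem_univ _, fun h => g2 h.symm, hv, fun i hi => hw ⟨i, hi⟩, e, g1, g3⟩
    · rintro (⟨i, hi, rfl⟩ | hw)
      · rw [mem_filter] at hi
        obtain ⟨_, e, he, k⟩ := hi
        have ho : oth s t v e = x i := by
          unfold oth
          rcases k with ⟨k1, k2⟩ | ⟨k1, k2⟩
          · rw [if_pos k1, k2]
          · rw [if_neg (by rw [k1]; exact hv i), k1]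
        refine ⟨e, cut_ends.2 ⟨he, by rw [ho]; exact hv i, by rw [ho]; exact k⟩, ho⟩
      · rw [mem_filter] at hw
        obtain ⟨_, g1, g2, g3, e, he, k⟩ := hw
        have ho : oth s t v e = w := by
          unfold oth
          rcases k with ⟨k1, k2⟩ | ⟨k1, k2⟩
          · rw [if_pos k1, k2]
          · rw [if_neg (by rw [k1]; exact g1.symm), k1]
        refine ⟨e, cut_ends.2 ⟨he, by rw [ho]; exact g1.symm, by rw [ho]; exact k⟩, ho⟩
  rw [← h1, h2, card_union_of_disjoint, card_image_of_injective _ hx, Nat.card_eq_fintype_card,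
    Nat.card_eq_fintype_card, Fintype.card_subtype, Fintype.card_subtype]
  rw [disjoint_left]
  intro w hw hw'
  obtain ⟨i, _, hi⟩ := mem_image.1 hw
  rw [mem_filter] at hw'
  exact hw'.2.2.2.1 i hi



end Pool.Agent.H16.FW
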