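import Pool.Agent.H16.FW.Fit
import Pool.Agent.H16.FW.All
import Mathlib.Data.Finset.Max

/-!
# PROJECT FW (helper16): the states of a vertex with its branches
-/

set_option autoImplicit false

namespace Pool.Agent.H16.FW

open Finset Pool.Agent.TH362.TF Pool.Agent.TH362.TF.Four Q116.FF Pool.Agent.H16.FV

theorem len : TL.length = 504 := by decide +kernel

theorem two_le : ∀ τ ∈ TL, 2 ≤ pc τ.q := by
  have h : TL.all (fun τ => Nat.ble 2 (pc τ.q)) = true := by decide +kernel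
  intro τ hτ
  have h1 := List.all_eq_true.1 h τ hτ
  exact Nat.le_of_ble_eq_true h1

section
variable {V E : Type} [Fintype V] [DecidableEq V] [DecidableEq E]

theorem pa_emp (G : SimpleGraph V) (v : V) : pa G v ∅ = {v} := by
  unfold pa
  rw [biUnion_empty]
  rfl

/-- the facts about a graph which are used for the search -/
structure Fx (s t : E → V) (S : Finset E) (x : Fin 4 → V) : Prop where
  bs : ∀ v : V, (∀ i, x i ≠ v) → ∃ L < 16, FitP s t S x (bas L) v {v} ∅
  fa : ∀ (v : V) (W : Finset V) (y : V), (∀ i, x i ≠ v) → W ⊆ nb' (Fo s t S x) v →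
    y ∈ nb' (Fo s t S x) v → y ∉ W → ∀ (π : P) (τ : T),
    FitP s t S x π v (pa (Fo s t S x) v W) W →
    FitT s t S x τ y (sd (Fo s t S x) y v) (nb' (Fo s t S x) y \ {v}) →
    FitP s t S x (att π τ) v (pa (Fo s t S x) v (insert y W)) (insert y W)
  cm : ∀ (v : V) (W : Finset V) (y : V), (∀ i, x i ≠ v) → W ⊆ nb' (Fo s t S x) v →
    y ∈ nb' (Fo s t S x) v → y ∉ W → ∀ (π : P) (τ : T),
    FitP s t S x π v (pa (Fo s t S x) v W) W →
    FitT s t S x τ y (sd (Fo s t S x) y v) (nb' (Fo s t S x) y \ {v}) →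
    cmp π τ = true ∧ (2 ≤ pc τ.q → fat π = false)

theorem dfs (lpn : S_LPN) {s t : E → V} {S : Finset E} {x : Fin 4 → V} (hx : Fx s t S x) (v : V)
    (hv : ∀ i, x i ≠ v) (W₀ : Finset V) (hW : W₀ ⊆ nb' (Fo s t S x) v)
    (hc : ∀ y ∈ W₀, ∃ τ ∈ TL, FitT s t S x τ y (sd (Fo s t S x) y v) (nb' (Fo s t S x) y \ {v})) :
    ∃ π, FitP s t S x π v (pa (Fo s t S x) v W₀) W₀ ∧ okc TL π = true := by
  classical
  have hc' : ∀ y, ∃ k : ℕ, y ∈ W₀ → ∃ τ, TL[k]? = some τ ∧
      FitT s t S x τ y (sd (Fo s t S x) y v) (nb' (Fo s t S x) y \ {v}) := by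
    intro y
    by_cases hy : y ∈ W₀
    · obtain ⟨τ, h1, h2⟩ := hc y hy
      obtain ⟨k, h3⟩ := List.mem_iff_getElem?.1 h1
      exact ⟨k, fun _ => ⟨τ, h3, h2⟩⟩
    · exact ⟨0, fun h => absurd h hy⟩
  choose idx hidx using hc'
  have key : ∀ W : Finset V, W ⊆ W₀ → ∃ (π : P) (n k : ℕ),
      FitP s t S x π v (pa (Fo s t S x) v W) W ∧ chk TL 504 (n + 1) π (TL.drop k) = true ∧
      (k = 0 ∨ ∃ w ∈ W, k = idx w) := by
    intro W
    induction W using Finset.induction_on_max_value idx with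
    | empty =>
      intro _
      obtain ⟨L, hL, hf⟩ := hx.bs v hv
      rw [pa_emp]
      exact ⟨bas L, 5, 0, hf, all L hL, Or.inl rfl⟩
    | insert y W hy hmax ih =>
      intro hsub
      obtain ⟨π, n, k, hf, hch, hk⟩ := ih (fun w hw => hsub (mem_insert_of_mem hw))
      have hy0 : y ∈ W₀ := hsub (mem_insert_self y W)
      obtain ⟨τ, hτ, hft⟩ := hidx y hy0
      have hWn : W ⊆ nb' (Fo s t S x) v := fun w hw => hW (hsub (mem_insert_of_mem hw))
      have hτm : τ ∈ TL := List.mem_iff_getElem?.2 ⟨_, hτ⟩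
      obtain ⟨c1, c2⟩ := hx.cm v W y hv hWn (hW hy0) hy π τ hf hft
      have hki : k ≤ idx y := by
        rcases hk with rfl | ⟨w, hw, rfl⟩
        · exact Nat.zero_le _
        · exact hmax w hw
      obtain ⟨_, h2⟩ := lpn TL 504 n π (TL.drop k) hch (by
        rw [List.length_drop, len]; omega)
      have h3 := h2 (c2 (two_le τ hτm)) (idx y - k) τ (by
        rw [List.getElem?_drop, Nat.add_sub_cancel' hki]; exact hτ) c1
      rw [List.drop_drop, Nat.add_sub_cancel' hki] at h3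
      cases n with
      | zero => exact absurd h3 (by simp [chk])
      | succ n =>
        exact ⟨att π τ, n, idx y, hx.fa v W y hv hWn (hW hy0) hy π τ hf hft, h3,
          Or.inr ⟨y, mem_insert_self y W, rfl⟩⟩
  obtain ⟨π, n, k, hf, hch, _⟩ := key W₀ (Subset.refl _)
  refine ⟨π, hf, (lpn TL 504 n π (TL.drop k) hch (by
    rw [List.length_drop, len]; omega)).1⟩

end

end Pool.Agent.H16.FW
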