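import Pool.Agent.H16.FW.K35

/-!
Two sides of an edge realize at most 64 vectors (FW-EDG, helper35).
-/

set_option autoImplicit false

namespace Pool.Agent.H16.FW

open Finset Pool.Agent.TH362.TF Pool.Agent.TH362.TF.Four Q116.FF Pool.Agent.H16.FV K35

theorem edg : S_EDG := by
  intro hSTEP hSUM hFOR hPIG hCON hROOT V E _ _ _ s t S x H v u huv hi
  obtain ⟨c1, -⟩ := hCON hFOR V E s t S x H
  obtain ⟨r1, r2, r3, -, -⟩ := hROOT hFOR V E s t S x H
  obtain ⟨f1, f2, f3, f4, f5, f6, f7⟩ := hFOR V (Fo s t S x) H.acy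
  by_contra hN
  rw [not_le] at hN
  obtain ⟨g1, g2⟩ := f1 v u huv
  obtain ⟨g3, g4⟩ := f1 u v huv.symm
  obtain ⟨g5, g6⟩ := f5 v u huv
  classical
  have hvv : ∀ i, x i ≠ v := huv.2.1
  have hall : ∀ r : Fin 4 → F, ∑ i, r i = 0 →
      Re s t S x (pa (Fo s t S x) v (nb' (Fo s t S x) v)) (pt v 0) r := by
    intro r hr
    have hN' : 64 < (univ.filter (fun p => Rz s t S x (sd (Fo s t S x) v u) v (1, 0) p)).card +
        (univ.filter (fun p => Rz s t S x (sd (Fo s t S x) u v) u (1, 0) p)).card := by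
      unfold N at hN
      convert hN
    obtain ⟨p, hp, q, hq, hpq⟩ := hPIG (1, 0) (1, 0)
      (univ.filter (fun p => Rz s t S x (sd (Fo s t S x) v u) v (1, 0) p))
      (univ.filter (fun p => Rz s t S x (sd (Fo s t S x) u v) u (1, 0) p))
      (fun p hp => by
        rw [mem_filter] at hp
        exact hSUM V E s t S x H.inj _ v (1, 0) p (r2 v u huv) g1 hp.2)
      (fun p hp => by
        rw [mem_filter] at hp
        exact hSUM V E s t S x H.inj _ u (1, 0) p (r2 u v huv.symm) g3 hp.2)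
      hN' r (by rw [hr]; decide)
    rw [mem_filter] at hp hq
    obtain ⟨e, he, k⟩ := huv.2.2.2
    have h1 := hSTEP V E s t S x (sd (Fo s t S x) v u) (sd (Fo s t S x) u v) v u e
      (r2 v u huv) (r2 u v huv.symm) g6 g1 g3 he k ?_ (1, 0) (1, 0) p q (by decide) hp.2 hq.2
    · rw [← g5, hpq] at h1
      have h2 : ((1, 0) + (1, 0) : F) = 0 := by decide
      rw [h2] at h1
      exact h1
    · have key : ∀ a ∈ sd (Fo s t S x) v u, ∀ b ∈ sd (Fo s t S x) u v, ∀ e' ∈ S,
          Ends s t a b e' → e' = e := by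
        intro a ha b hb e' he' k'
        have hadj : (Fo s t S x).Adj a b := by
          refine ⟨?_, ?_, ?_, e', he', k'⟩
          · intro h; rw [h] at ha; exact disjoint_left.1 g6 ha hb
          · intro i h; exact r2 v u huv i (h ▸ ha)
          · intro i h; exact r2 u v huv.symm i (h ▸ hb)
        rcases f2 v u huv a ha b hadj with h4 | ⟨h4, h5⟩
        · exact absurd hb (disjoint_left.1 g6 h4)
        · subst h4 h5
          exact H.par _ _ e' e huv.1 he' he k' k
      intro e' he' h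
      rcases h with ⟨h4, h5⟩ | ⟨h4, h5⟩
      · exact key _ h4 _ h5 e' he' (Or.inl ⟨rfl, rfl⟩)
      · exact key _ h5 _ h4 e' he' (Or.inr ⟨rfl, rfl⟩)
  have hRA := r3 v hvv
  refine H.red (pa (Fo s t S x) v (nb' (Fo s t S x) v)) v (r1 v _ (Subset.refl _) hvv)
    (mem_insert_self _ _) (by rw [hRA]; simp) (fun e he => by rw [hRA] at he; simp at he)
    (fun c p h1 _ h3 _ _ => ?_) hi (c1 v _ (Subset.refl _) hvv)
  have h4 := h1 hRA
  subst h4
  exact hall p h3

end Pool.Agent.H16.FW
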