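import Pool.Agent.H16.FW.Msk

/-!
# FW-FA: the state with one more branch (helper86)
-/

set_option autoImplicit false

namespace Pool.Agent.H16.FW

open Finset Pool.Agent.TH362.TF Pool.Agent.TH362.TF.Four Q116.FF Pool.Agent.H16.FV

namespace FAh

theorem pa_insert {V : Type} [Fintype V] [DecidableEq V] (G : SimpleGraph V) (v y : V)
    (W : Finset V) : pa G v (insert y W) = pa G v W ∪ sd G y v := by
  unfold pa
  ext a
  simp only [Finset.mem_insert, Finset.mem_biUnion, Finset.mem_union]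
  constructor
  · rintro (h | ⟨w, hw | hw, ha⟩)
    · exact Or.inl (Or.inl h)
    · rw [hw] at ha
      exact Or.inr ha
    · exact Or.inl (Or.inr ⟨w, hw, ha⟩)
  · rintro ((h | ⟨w, hw, ha⟩) | ha)
    · exact Or.inl h
    · exact Or.inr ⟨w, Or.inr hw, ha⟩
    · exact Or.inr ⟨y, Or.inl rfl, ha⟩

theorem cnt_union {V E : Type} [Fintype V] [DecidableEq V] [DecidableEq E] (s t : E → V)
    (S : Finset E) (x : Fin 4 → V) {A B : Finset V} (h : Disjoint A B) (i : Fin 4) :
    cnt s t S x (A ∪ B) i = cnt s t S x A i + cnt s t S x B i := by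
  classical
  unfold cnt
  rw [Finset.filter_union, Finset.card_union_of_disjoint]
  exact Finset.disjoint_filter_filter h

end FAh

open FAh

theorem fa : S_FA := by
  classical
  intro hATT hSS hTAU hSCL hSTEP hFOR hSTP V E _ _ _ s t S x hG v W y hv hW hy hyW π τ hπ hτ
  obtain ⟨f1, f2, f3, f4, f5, f6, f7⟩ := hFOR V (Fo s t S x) hG.acy
  have hvy : (Fo s t S x).Adj v y := by
    unfold nb' at hy
    exact (Finset.mem_filter.1 hy).2
  have hvB : v ∉ sd (Fo s t S x) y v := (f1 y v hvy.symm).2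
  have hdis : Disjoint (pa (Fo s t S x) v W) (sd (Fo s t S x) y v) := by
    rw [Finset.disjoint_left]
    intro a ha hb
    unfold pa at ha
    rw [Finset.mem_insert, Finset.mem_biUnion] at ha
    rcases ha with ha | ⟨w, hw, ha⟩
    · exact hvB (ha ▸ hb)
    · have hvw : (Fo s t S x).Adj v w := by
        have := hW hw
        unfold nb' at this
        exact (Finset.mem_filter.1 this).2
      have hne : w ≠ y := fun h => hyW (h ▸ hw)
      exact Finset.disjoint_left.1 (f4 v w y hvw hvy hne) ha hb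
  have hcnt := cnt_union s t S x hdis
  obtain ⟨q0, q1⟩ := hATT hSS hTAU (Rz s t S x (pa (Fo s t S x) v W) v)
    (Rz s t S x (sd (Fo s t S x) y v) y) (Rz s t S x (pa (Fo s t S x) v (insert y W)) v)
    (hSCL V E s t S x _ _) (hSCL V E s t S x _ _) (hSCL V E s t S x _ _)
    (fun c a p q ha hp hq => hSTP hSTEP hFOR V E s t S x hG v W y hv hW hy hyW c a p q ha hp hq)
    π τ hπ.q0 hπ.q1 hτ.q
  refine ⟨hπ.L, ?_, ?_, ?_, ?_, q0, q1, ?_, ?_⟩
  · refine (hπ.C.lor hτ.L).congr fun i => ?_
    simp only [Finset.mem_insert]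
    constructor
    · rintro (⟨w, hw, h⟩ | h)
      · exact ⟨w, Or.inr hw, h⟩
      · exact ⟨y, Or.inl rfl, h⟩
    · rintro ⟨w, hw | hw, h⟩
      · exact Or.inr (hw ▸ h)
      · exact Or.inl ⟨w, hw, h⟩
  · refine (hπ.u.lor hτ.u).congr fun i => ?_
    rw [pa_insert, hcnt i]
    omega
  · refine ((hπ.v'.lor hτ.v').lor (hπ.u.land hτ.u)).congr fun i => ?_
    rw [pa_insert, hcnt i]
    omega
  · refine (hπ.pm.lor hτ.pm).congr fun i j => ?_
    rw [pa_insert]
    unfold Pr
    simp only [Finset.mem_union]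
    constructor
    · rintro (⟨a, ha, h⟩ | ⟨a, ha, h⟩)
      · exact ⟨a, Or.inl ha, h⟩
      · exact ⟨a, Or.inr ha, h⟩
    · rintro ⟨a, ha | ha, h⟩
      · exact Or.inl ⟨a, ha, h⟩
      · exact Or.inr ⟨a, ha, h⟩
  · have h1 : (pa (Fo s t S x) v (insert y W)).erase v =
        (pa (Fo s t S x) v W).erase v ∪ sd (Fo s t S x) y v := by
      rw [pa_insert]
      ext a
      simp only [Finset.mem_erase, Finset.mem_union]
      constructor
      · rintro ⟨h, h' | h'⟩
        · exact Or.inl ⟨h, h'⟩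
        · exact Or.inr h'
      · rintro (⟨h, h'⟩ | h')
        · exact ⟨h, Or.inl h'⟩
        · exact ⟨fun h => hvB (h ▸ h'), Or.inr h'⟩
    rw [h1]
    have h2 : od s t S ((pa (Fo s t S x) v W).erase v ∪ sd (Fo s t S x) y v) ≤
        od s t S ((pa (Fo s t S x) v W).erase v) + od s t S (sd (Fo s t S x) y v) := by
      unfold od
      rw [Finset.filter_union]
      exact Finset.card_union_le _ _
    exact h2.trans (Nat.add_le_add hπ.odd hτ.odd)
  · change π.ne + 1 = _
    rw [Finset.card_insert_of_notMem hyW, hπ.ne]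
    ring

end Pool.Agent.H16.FW
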