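import Pool.Agent.H16.FW.PIG

set_option autoImplicit false

namespace Pool.Agent.H16.FW

open Finset Pool.Agent.TH362.TF Pool.Agent.TH362.TF.Four Q116.FF Pool.Agent.H16.FV

theorem few_aux (X : Finset (Fin 4 → F)) (i : Fin 4)
    (h : (∀ p ∈ X, p i = 0) ∨ (∀ p ∈ X, p i ≠ 0)) :
    ∃ Z : Finset F, Z.card ≤ 3 ∧ ∀ p ∈ X, p i ∈ Z := by
  rcases h with h | h
  · exact ⟨{0}, by decide, fun p hp => by rw [h p hp]; decide⟩
  · exact ⟨univ.filter (fun a => a ≠ 0), by decide, fun p hp => by simpa using h p hp⟩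

theorem few : S_FEW := by
  intro c X hX h
  obtain ⟨Z0, c0, m0⟩ := few_aux X 0 (h 0)
  obtain ⟨Z1, c1, m1⟩ := few_aux X 1 (h 1)
  obtain ⟨Z2, c2, m2⟩ := few_aux X 2 (h 2)
  have hc : (X.image (fun p : Fin 4 → F => (p 0, p 1, p 2))).card = X.card := by
    apply card_image_of_injOn
    intro p hp q hq h
    simp only [Prod.mk.injEq] at h
    exact inj3 (hX p hp) (hX q hq) h.1 h.2.1 h.2.2
  rw [← hc]
  have hs : X.image (fun p : Fin 4 → F => (p 0, p 1, p 2)) ⊆ Z0 ×ˢ (Z1 ×ˢ Z2) := by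
    intro z hz
    rw [mem_image] at hz
    obtain ⟨p, hp, rfl⟩ := hz
    simp only [mem_product]
    exact ⟨m0 p hp, m1 p hp, m2 p hp⟩
  refine (card_le_card hs).trans ?_
  rw [card_product, card_product]
  calc Z0.card * (Z1.card * Z2.card) ≤ 3 * (3 * 3) :=
        Nat.mul_le_mul c0 (Nat.mul_le_mul c1 c2)
    _ = 27 := rfl

end Pool.Agent.H16.FW
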