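import Pool.Agent.H16.FW.Hg

/-!
# PROJECT FW (helper16), third batch: the states of the table and the graph
-/

set_option autoImplicit false

namespace Pool.Agent.H16.FW

open Finset Pool.Agent.TH362.TF Pool.Agent.TH362.TF.Four Q116.FF Pool.Agent.H16.FV

/-- the bits of `m` are the labels with `Q` -/
def BM (m : ℕ) (Q : Fin 4 → Prop) : Prop :=
  ∀ k : ℕ, m.testBit k = true ↔ ∃ i : Fin 4, (i : ℕ) = k ∧ Q i

/-- the bits of `m` are the pairs of labels with `Q` -/
def BP (m : ℕ) (Q : Fin 4 → Fin 4 → Prop) : Prop :=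
  ∀ k : ℕ, m.testBit k = true ↔ ∃ i j : Fin 4, i < j ∧ 4 * (i : ℕ) + j = k ∧ Q i j

section
variable {V E : Type} [Fintype V] [DecidableEq V] [DecidableEq E]

/-- the degree without loops -/
def dgr (s t : E → V) (S : Finset E) (v : V) : ℕ := (cut s t S (fun u => decide (u = v))).card

/-- the number of the vertices of odd degree in `A` -/
def od (s t : E → V) (S : Finset E) (A : Finset V) : ℕ := (A.filter (fun a => Odd (dgr s t S a))).card

/-- the pair `i j` of labels occurs at a vertex of `A` -/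
def Pr (s t : E → V) (S : Finset E) (x : Fin 4 → V) (A : Finset V) (i j : Fin 4) : Prop :=
  ∃ a ∈ A, La s t S x a i ∧ La s t S x a j

/-- `τ` is the state of the rooted tree `A` with root `v` and children `W` -/
structure FitT (s t : E → V) (S : Finset E) (x : Fin 4 → V) (τ : T) (v : V) (A W : Finset V) :
    Prop where
  L : BM τ.L (La s t S x v)
  C : BM τ.C (fun i => ∃ w ∈ W, La s t S x w i)
  u : BM τ.u (fun i => 1 ≤ cnt s t S x A i)
  v' : BM τ.v (fun i => 2 ≤ cnt s t S x A i)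
  pm : BP τ.pm (Pr s t S x A)
  q : Mc (1, 0) τ.q (Rz s t S x A v (1, 0))
  odd : od s t S A ≤ τ.odd

/-- `π` is the state of `A` = `v` with the branches at `W` -/
structure FitP (s t : E → V) (S : Finset E) (x : Fin 4 → V) (π : P) (v : V) (A W : Finset V) :
    Prop where
  L : BM π.L (La s t S x v)
  C : BM π.C (fun i => ∃ w ∈ W, La s t S x w i)
  u : BM π.u (fun i => 1 ≤ cnt s t S x A i)
  v' : BM π.v (fun i => 2 ≤ cnt s t S x A i)
  pm : BP π.pm (Pr s t S x A)
  q0 : Mc 0 π.q0 (Rz s t S x A v 0)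
  q1 : Mc (1, 0) π.q1 (Rz s t S x A v (1, 0))
  odd : od s t S (A.erase v) ≤ π.odd
  ne : π.ne = Nat.card {i // La s t S x v i} + W.card

end

/-- BS (80 lines; uses BASE).  The states of a single vertex.

Proof.  `L` = the number with the bits of the labels of `v` (`L < 16`).  For the 16 cases:
`bas L = ⟨L, 0, L, 0, pm, q0, q1, 0, ne⟩`, and a vector whose bit is set in `q0`, `q1` has exactly
the labels in `L` as nonzero coordinates (check by `decide +kernel` over `Fin 16` and
`F × F × F × F`; at most one edge to each hub, so `cnt {v} i ≤ 1`). -/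
def S_BS : Prop :=
  S_BASE → ∀ (V E : Type) [Fintype V] [DecidableEq V] [DecidableEq E] (s t : E → V) (S : Finset E)
    (x : Fin 4 → V), Function.Injective x → Par s t S → ∀ v : V, (∀ i, x i ≠ v) →
    ∃ L < 16, FitP s t S x (bas L) v {v} ∅

/-- FA (100 lines; uses ATT, STP, SCL...).  The state with one more branch. -/
def S_FA : Prop :=
  S_ATT → S_SS → S_TAU → S_SCL → S_STEP → S_FOR → S_STP → ∀ (V E : Type) [Fintype V]
    [DecidableEq V] [DecidableEq E] (s t : E → V) (S : Finset E) (x : Fin 4 → V), Hg s t S x →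
    ∀ (v : V) (W : Finset V) (y : V), (∀ i, x i ≠ v) → W ⊆ nb' (Fo s t S x) v →
    y ∈ nb' (Fo s t S x) v → y ∉ W → ∀ (π : P) (τ : T),
    FitP s t S x π v (pa (Fo s t S x) v W) W →
    FitT s t S x τ y (sd (Fo s t S x) y v) (nb' (Fo s t S x) y \ {v}) →
    FitP s t S x (att π τ) v (pa (Fo s t S x) v (insert y W)) (insert y W)

/-- CM (100 lines; uses NUM, PC, MON, EDG, FOR).  The conditions `cmp` hold.

Proof.  A common label of `v` and its neighbour `y` gives a triangle; common labels of `y` and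
another neighbour of `v`, or of `v` and a neighbour of `y`, a circuit of length four; so does a
common pair of labels of two different vertices (`tri`, `quad`; use `BM`, `BP`).  If some hub is used
twice then `pc π.q1 ≤ N (pa v W) ≤ N (pa v (nb' v \ {y})) = N (sd v y)` (NUM, MON (1), FOR (3)),
`pc τ.q ≤ N (sd y v)` and EDG. -/
def S_CM : Prop :=
  ∀ (V E : Type) [Fintype V] [DecidableEq V] [DecidableEq E] (s t : E → V) (S : Finset E)
    (x : Fin 4 → V), S_PC → S_NUM → S_FOR → Hg s t S x →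
    (∀ v, ∀ W ⊆ nb' (Fo s t S x) v, ∀ W' ⊆ W, (∀ i, x i ≠ v) →
      N s t S x (pa (Fo s t S x) v W') v ≤ N s t S x (pa (Fo s t S x) v W) v) →
    (∀ v u, (Fo s t S x).Adj v u →
      (∃ i, 2 ≤ cnt s t S x (pa (Fo s t S x) v (nb' (Fo s t S x) v)) i) →
      N s t S x (sd (Fo s t S x) v u) v + N s t S x (sd (Fo s t S x) u v) u ≤ 64) →
    ∀ (v : V) (W : Finset V) (y : V), (∀ i, x i ≠ v) → W ⊆ nb' (Fo s t S x) v →
    y ∈ nb' (Fo s t S x) v → y ∉ W → ∀ (π : P) (τ : T),
    FitP s t S x π v (pa (Fo s t S x) v W) W →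
    FitT s t S x τ y (sd (Fo s t S x) y v) (nb' (Fo s t S x) y \ {v}) →
    cmp π τ = true ∧ (2 ≤ pc τ.q → fat π = false)

/-- GD1 (60 lines; uses IDL, SCL, FOR, CON, ROOT).  A branch whose state realizes all necessary
vectors is impossible (`Hg.red`; the other values `c` by `g12`, `g13`). -/
def S_GD1 : Prop :=
  S_IDL → S_SCL → S_FOR → S_CON → S_ROOT → ∀ (V E : Type) [Fintype V] [DecidableEq V]
    [DecidableEq E] (s t : E → V) (S : Finset E) (x : Fin 4 → V), Hg s t S x →
    ∀ v u, (Fo s t S x).Adj v u → ∀ π : P,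
    FitP s t S x π v (sd (Fo s t S x) v u) (nb' (Fo s t S x) v \ {u}) → π.v ≠ 0 →
    sup (idl z1 π.u π.v) π.q1 = true → False

/-- GD0 (50 lines; uses IDL, FOR, CON, ROOT).  A component whose state realizes all necessary
vectors is impossible. -/
def S_GD0 : Prop :=
  S_IDL → S_FOR → S_CON → S_ROOT → ∀ (V E : Type) [Fintype V] [DecidableEq V]
    [DecidableEq E] (s t : E → V) (S : Finset E) (x : Fin 4 → V), Hg s t S x →
    ∀ v, (∀ i, x i ≠ v) → ∀ π : P,
    FitP s t S x π v (pa (Fo s t S x) v (nb' (Fo s t S x) v)) (nb' (Fo s t S x) v) → π.v ≠ 0 →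
    sup (idl z0 π.u π.v) π.q0 = true → False

/-- the pairs of labels -/
def prs : Finset (Fin 4 × Fin 4) := univ.filter (fun z => z.1 < z.2)

/-- CNT (100 lines).  The final count.

Proof.  The cardinalities of the `PR k` add up to at most `prs.card = 6`, so there are at most three
members.  If some `k` has type `P` (`TP k j`), its `PR` contains the three pairs without `j`; the
others have at most three pairs together, so there is at most one other, and it is not of type `P`
(its triangle would share a pair); so the sum is at most `7 + 2` or `7 + 6`.  Otherwise at most one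
has type `R`: at most `8 + 2 + 2`. -/
def S_CNT : Prop :=
  ∀ (ι : Type) [DecidableEq ι] (K : Finset ι) (o : ι → ℕ) (PR : ι → Finset (Fin 4 × Fin 4))
    (TP : ι → Fin 4 → Prop) (TR : ι → Prop), (∀ k ∈ K, PR k ⊆ prs) →
    (∀ k ∈ K, ∀ k' ∈ K, k ≠ k' → Disjoint (PR k) (PR k')) →
    (∀ k ∈ K, (o k ≤ 2 ∧ 2 ≤ (PR k).card) ∨ (∃ j, o k ≤ 7 ∧ TP k j ∧
      ∀ a b : Fin 4, a < b → a ≠ j → b ≠ j → (a, b) ∈ PR k) ∨
      (o k ≤ 8 ∧ 2 ≤ (PR k).card ∧ TR k)) →
    (∀ k ∈ K, ∀ k' ∈ K, k ≠ k' → TR k → TR k' → False) →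
    (∀ k ∈ K, ∀ k' ∈ K, k ≠ k' → TR k → ∀ j, TP k' j → o k ≤ 6) →
    ∑ k ∈ K, o k ≤ 13

section
variable {V E : Type} [Fintype V] [DecidableEq V] [DecidableEq E]

/-- a component like the Petersen graph (without the hub `j`) -/
def TyP (s t : E → V) (S : Finset E) (x : Fin 4 → V) (K : Finset V) (j : Fin 4) : Prop :=
  (∀ p : Fin 4 → F, ∑ i, p i = 0 → p j = 0 → p ≠ 0 → Re s t S x K (fun _ => 0) p) ∧
    ∀ i, i ≠ j → 1 ≤ cnt s t S x K i

open Classical in
/-- a rich component -/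
def TyR (s t : E → V) (S : Finset E) (x : Fin 4 → V) (K : Finset V) : Prop :=
  33 ≤ (univ.filter (fun p : Fin 4 → F => ∑ i, p i = 0 ∧ Re s t S x K (fun _ => 0) p)).card ∧
  (∀ i, 1 ≤ cnt s t S x K i) ∧
  ∀ j, (∀ a b : Fin 4, a < b → Pr s t S x K a b → a = j ∨ b = j) → od s t S K ≤ 6 ∨
    (2 ≤ cnt s t S x K j ∧ ∀ r : Fin 4 → F, ∑ i, r i = 0 → ∃ p q : Fin 4 → F, p + q = r ∧
      ∑ i, p i = 0 ∧ p j = 0 ∧ p ≠ 0 ∧ Re s t S x K (fun _ => 0) q)

end

/-- CLS (100 lines; uses NUM, PC, SS).  The meaning of `cls`. -/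
def S_CLS : Prop :=
  S_PC → S_NUM → S_SS → ∀ (V E : Type) [Fintype V] [DecidableEq V] [DecidableEq E] (s t : E → V)
    (S : Finset E) (x : Fin 4 → V) (v : V) (A W : Finset V) (π : P) (o : ℕ), v ∈ A →
    FitP s t S x π v A W → od s t S A ≤ o → cls π o = true →
    (od s t S A ≤ 2 ∧ ∃ PR ⊆ prs, 2 ≤ PR.card ∧ ∀ z ∈ PR, Pr s t S x A z.1 z.2) ∨
    (∃ j, od s t S A ≤ 7 ∧ TyP s t S x A j ∧
      ∀ a b : Fin 4, a < b → a ≠ j → b ≠ j → Pr s t S x A a b) ∨
    (od s t S A ≤ 8 ∧ (∃ PR ⊆ prs, 2 ≤ PR.card ∧ ∀ z ∈ PR, Pr s t S x A z.1 z.2) ∧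
      TyR s t S x A)

/-- TWO (60 lines; uses UNI, PIG, FOR, CON, ROOT).  Two rich components, and a rich component
together with one of Petersen type.  `K = pa v (nb' v)`, `K' = pa v' (nb' v')` are different
components: all vectors with sum zero are realized by `K ∪ K'` (PIG, or the last clause of `TyR`),
each hub is used at least twice by `K ∪ K'`, contradiction to `Hg.red` (root vertex `v`, no root
edges by ROOT (4), connected by CON (2)). -/
def S_TWO : Prop :=
  S_UNI → S_PIG → S_FOR → S_CON → S_ROOT → ∀ (V E : Type) [Fintype V] [DecidableEq V]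
    [DecidableEq E] (s t : E → V) (S : Finset E) (x : Fin 4 → V), Hg s t S x →
    ∀ v v', (∀ i, x i ≠ v) → (∀ i, x i ≠ v') →
    Disjoint (pa (Fo s t S x) v (nb' (Fo s t S x) v)) (pa (Fo s t S x) v' (nb' (Fo s t S x) v')) →
    TyR s t S x (pa (Fo s t S x) v (nb' (Fo s t S x) v)) →
    (TyR s t S x (pa (Fo s t S x) v' (nb' (Fo s t S x) v')) → False) ∧
    ∀ j, TyP s t S x (pa (Fo s t S x) v' (nb' (Fo s t S x) v')) j →
      (∀ a b : Fin 4, a < b → Pr s t S x (pa (Fo s t S x) v (nb' (Fo s t S x) v)) a b →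
        a = j ∨ b = j) →
      od s t S (pa (Fo s t S x) v (nb' (Fo s t S x) v)) ≤ 6

end Pool.Agent.H16.FW
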