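import Pool.Agent.H16.FW.Stm

set_option autoImplicit false

/-! # Project FW, FOR: the sides of the edges of a forest -/

namespace Pool.Agent.H16.FW

open Finset

section
variable {V : Type} [Fintype V] [DecidableEq V] {G : SimpleGraph V}

omit [DecidableEq V] in
theorem for_mem_sd {v u w : V} : w ∈ sd G v u ↔
    Relation.ReflTransGen (fun a b => G.Adj a b ∧ s(a, b) ≠ s(v, u)) v w := by
  classical
  have e : (G.deleteEdges {s(v, u)}).Adj = fun a b => G.Adj a b ∧ s(a, b) ≠ s(v, u) := by
    funext a b
    rw [SimpleGraph.deleteEdges_adj, Set.mem_singleton_iff]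
  unfold sd
  simp only [Finset.mem_filter, Finset.mem_univ, true_and]
  rw [SimpleGraph.reachable_iff_reflTransGen, e]

omit [DecidableEq V] in
theorem for_mem_nb {v w : V} : w ∈ nb' G v ↔ G.Adj v w := by
  unfold nb'
  simp only [Finset.mem_filter, Finset.mem_univ, true_and]

theorem for_mem_pa {v w : V} {W : Finset V} : w ∈ pa G v W ↔ w = v ∨ ∃ y ∈ W, w ∈ sd G y v := by
  unfold pa
  rw [Finset.mem_insert, Finset.mem_biUnion]

omit [DecidableEq V] in
theorem for_self {v u : V} : v ∈ sd G v u := for_mem_sd.2 Relation.ReflTransGen.refl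

omit [DecidableEq V] in
theorem for_not (hG : G.IsAcyclic) {v u : V} (h : G.Adj v u) : u ∉ sd G v u := by
  classical
  intro hu
  have hb := SimpleGraph.isAcyclic_iff_forall_adj_isBridge.1 hG h
  rw [SimpleGraph.isBridge_iff] at hb
  apply hb
  unfold sd at hu
  simpa only [Finset.mem_filter, Finset.mem_univ, true_and] using hu

omit [DecidableEq V] in
theorem for_step (hG : G.IsAcyclic) {v u : V} (h : G.Adj v u) {a : V} (ha : a ∈ sd G v u) {b : V}
    (hab : G.Adj a b) : b ∈ sd G v u ∨ (a = v ∧ b = u) := by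
  by_cases he : s(a, b) = s(v, u)
  · rcases Sym2.eq_iff.1 he with ⟨h1, h2⟩ | ⟨h1, h2⟩
    · exact Or.inr ⟨h1, h2⟩
    · exfalso
      rw [h1] at ha
      exact for_not hG h ha
  · exact Or.inl (for_mem_sd.2 ((for_mem_sd.1 ha).tail ⟨hab, he⟩))

omit [DecidableEq V] in
/-- the sides of different neighbours are disjoint -/
theorem for_disj (hG : G.IsAcyclic) {v y y' : V} (h : G.Adj v y) (h' : G.Adj v y') (hne : y ≠ y')
    {w : V} (hw : w ∈ sd G y v) (hw' : w ∈ sd G y' v) : False := by
  -- walk back from `w` to `y'`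
  have key : ∀ z, Relation.ReflTransGen (fun a b => G.Adj a b ∧ s(a, b) ≠ s(y', v)) z w →
      z ∈ sd G y v ∧ z ∈ sd G y' v := by
    intro z hz
    induction hz using Relation.ReflTransGen.head_induction_on with
    | refl => exact ⟨hw, hw'⟩
    | @head a c hac _ ih =>
      have hac' : G.Adj c a := hac.1.symm
      have h2 : a ∈ sd G y' v := by
        refine for_mem_sd.2 ((for_mem_sd.1 ih.2).tail ⟨hac', ?_⟩)
        rw [Sym2.eq_swap]; exact hac.2
      refine ⟨?_, h2⟩
      rcases for_step hG h.symm ih.1 hac' with h3 | ⟨-, h3⟩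
      · exact h3
      · exfalso
        rw [h3] at h2
        exact for_not hG h'.symm h2
  have hy' := (key y' (for_mem_sd.1 hw')).1
  rcases for_step hG h.symm hy' h'.symm with h3 | ⟨h3, -⟩
  · exact for_not hG h.symm h3
  · exact hne h3.symm

theorem for_three (hG : G.IsAcyclic) {v u : V} (h : G.Adj v u) :
    sd G v u = pa G v (nb' G v \ {u}) := by
  ext w
  constructor
  · intro hw
    have hw' := for_mem_sd.1 hw
    induction hw' with
    | refl => exact for_mem_pa.2 (Or.inl rfl)
    | @tail a b hva hab ih =>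
      rcases for_mem_pa.1 (ih (for_mem_sd.2 hva)) with h1 | ⟨y, hy, h1⟩
      · refine for_mem_pa.2 (Or.inr ⟨b, ?_, for_self⟩)
        rw [h1] at hab
        rw [Finset.mem_sdiff, for_mem_nb, Finset.mem_singleton]
        exact ⟨hab.1, fun hb => hab.2 (by rw [hb])⟩
      · rw [Finset.mem_sdiff, for_mem_nb] at hy
        rcases for_step hG hy.1.symm h1 hab.1 with h2 | ⟨-, h2⟩
        · refine for_mem_pa.2 (Or.inr ⟨y, ?_, h2⟩)
          rw [Finset.mem_sdiff, for_mem_nb]
          exact hy
        · exact for_mem_pa.2 (Or.inl h2)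
  · intro hw
    rcases for_mem_pa.1 hw with h1 | ⟨y, hy, h1⟩
    · rw [h1]; exact for_self
    · rw [Finset.mem_sdiff, for_mem_nb, Finset.mem_singleton] at hy
      have h2 := for_mem_sd.1 h1
      induction h2 with
      | refl =>
        refine for_mem_sd.2 (Relation.ReflTransGen.single ⟨hy.1, fun he => ?_⟩)
        rcases Sym2.eq_iff.1 he with ⟨-, h3⟩ | ⟨h3, -⟩
        · exact hy.2 h3
        · exact h.ne h3
      | @tail a b hya hab ih =>
        have ha : a ∈ sd G y v := for_mem_sd.2 hya
        have ha' : a ∈ sd G v u := ih (for_mem_pa.2 (Or.inr ⟨y, by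
          rw [Finset.mem_sdiff, for_mem_nb, Finset.mem_singleton]; exact hy, ha⟩)) ha
        rcases for_step hG h ha' hab.1 with h3 | ⟨h3, -⟩
        · exact h3
        · exfalso
          rw [h3] at ha
          exact for_not hG hy.1.symm ha

theorem for_pa_step (hG : G.IsAcyclic) {v a b : V} (ha : a ∈ pa G v (nb' G v)) (hab : G.Adj a b) :
    b ∈ pa G v (nb' G v) := by
  rcases for_mem_pa.1 ha with h1 | ⟨y, hy, h1⟩
  · rw [h1] at hab
    exact for_mem_pa.2 (Or.inr ⟨b, for_mem_nb.2 hab, for_self⟩)
  · rcases for_step hG (for_mem_nb.1 hy).symm h1 hab with h2 | ⟨-, h2⟩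
    · exact for_mem_pa.2 (Or.inr ⟨y, hy, h2⟩)
    · exact for_mem_pa.2 (Or.inl h2)

end

theorem forest : S_FOR := by
  intro V _ _ G hG
  refine ⟨fun v u h => ⟨for_self, for_not hG h⟩, fun v u h a ha b hab => for_step hG h ha hab,
    fun v u h => for_three hG h, fun v y y' h h' hne => ?_, fun v u h => ?_, fun v w => ?_,
    fun v W hW w hw => ?_⟩
  · rw [Finset.disjoint_left]
    exact fun w hw hw' => for_disj hG h h' hne hw hw'
  · constructor
    · rw [for_three hG h]
      ext w
      rw [Finset.mem_union, for_mem_pa, for_mem_pa]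
      constructor
      · rintro (h1 | ⟨y, hy, h1⟩)
        · exact Or.inl (Or.inl h1)
        · by_cases hyu : y = u
          · right; rw [← hyu]; exact h1
          · left; right
            exact ⟨y, by rw [Finset.mem_sdiff, Finset.mem_singleton]; exact ⟨hy, hyu⟩, h1⟩
      · rintro ((h1 | ⟨y, hy, h1⟩) | h1)
        · exact Or.inl h1
        · exact Or.inr ⟨y, (Finset.mem_sdiff.1 hy).1, h1⟩
        · exact Or.inr ⟨u, for_mem_nb.2 h, h1⟩
    · rw [Finset.disjoint_left]
      intro w hw hw'
      rw [for_three hG h, for_mem_pa] at hw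
      rcases hw with h1 | ⟨y, hy, h1⟩
      · rw [h1] at hw'
        exact for_not hG h.symm hw'
      · rw [Finset.mem_sdiff, for_mem_nb, Finset.mem_singleton] at hy
        exact for_disj hG hy.1 h hy.2 h1 hw'
  · constructor
    · intro hw
      rcases for_mem_pa.1 hw with h1 | ⟨y, hy, h1⟩
      · rw [h1]
      · refine (for_mem_nb.1 hy).reachable.trans ?_
        rw [SimpleGraph.reachable_iff_reflTransGen]
        exact Relation.ReflTransGen.mono (fun a b hab => hab.1) _ _ (for_mem_sd.1 h1)
    · intro hw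
      rw [SimpleGraph.reachable_iff_reflTransGen] at hw
      induction hw with
      | refl => exact for_mem_pa.2 (Or.inl rfl)
      | tail _ hab ih => exact for_pa_step hG ih hab
  · rcases for_mem_pa.1 hw with h1 | ⟨y, hy, h1⟩
    · rw [h1]; exact Relation.ReflTransGen.refl
    · have hvy : G.Adj v y := for_mem_nb.1 (hW hy)
      have hyp : ∀ z, z ∈ sd G y v → z ∈ pa G v W := fun z hz => for_mem_pa.2 (Or.inr ⟨y, hy, hz⟩)
      have h0 : Lk' G (pa G v W) v y :=
        Relation.ReflTransGen.single ⟨for_mem_pa.2 (Or.inl rfl), hyp y for_self, hvy⟩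
      have h2 := for_mem_sd.1 h1
      have key : ∀ z, Relation.ReflTransGen (fun a b => G.Adj a b ∧ s(a, b) ≠ s(y, v)) y z →
          Lk' G (pa G v W) v z := by
        intro z hz
        induction hz with
        | refl => exact h0
        | @tail a b hya hab ih =>
          exact Relation.ReflTransGen.tail ih ⟨hyp a (for_mem_sd.2 hya),
            hyp b (for_mem_sd.2 (hya.tail hab)), hab.1⟩
      exact key w h2

end Pool.Agent.H16.FW
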