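import Pool.Agent.H16.FW.Tot
import Pool.Agent.H16.FW.L.Main
import Pool.Agent.H16.FV.Kern

/-!
# PROJECT FW (helper16): the theorem
-/

set_option autoImplicit false
set_option linter.unusedSectionVars false

namespace Pool.Agent.H16.FW

open Finset Pool.Agent.TH362.TF Pool.Agent.TH362.TF.Four Q116.FF Pool.Agent.H16.FV

section
variable {V E : Type} [Fintype V] [DecidableEq V] [DecidableEq E]

theorem deg_dgr (s t : E → V) (S : Finset E) (v : V) : deg s t S v % 2 = dgr s t S v % 2 := by
  unfold deg dgr cut
  rw [card_filter]
  induction S using Finset.induction_on with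
  | empty => rfl
  | insert e S he ih =>
    rw [sum_insert he, sum_insert he]
    have h3 : ((if s e = v then 1 else 0) + (if t e = v then 1 else 0)) % 2 =
        (if (fun u => decide (u = v)) (s e) ≠ (fun u => decide (u = v)) (t e) then 1 else 0) %
          2 := by
      by_cases h1 : s e = v <;> by_cases h2 : t e = v <;> simp [h1, h2]
    omega

theorem odd_dgr (s t : E → V) (S : Finset E) :
    odd s t S = univ.filter (fun v => Odd (dgr s t S v)) := by
  unfold odd
  apply filter_congr
  intro v _
  rw [Nat.odd_iff, Nat.odd_iff, deg_dgr]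

theorem even_odd (s t : E → V) (S : Finset E) : Even (odd s t S).card := by
  unfold odd
  rw [← Finset.even_sum_iff_even_card_odd]
  unfold deg
  rw [sum_comm]
  refine ⟨S.card, ?_⟩
  have h : ∀ e ∈ S, ∑ v : V, ((if s e = v then 1 else 0) + (if t e = v then 1 else 0)) = 2 := by
    intro e _
    rw [sum_add_distrib, sum_ite_eq, sum_ite_eq, if_pos (mem_univ _), if_pos (mem_univ _)]
  rw [sum_congr rfl h, sum_const, smul_eq_mul]
  ring

theorem fb_mono {s t : E → V} {S : Finset E} {X Y : Finset V} (h : Fb s t S X) (hXY : X ⊆ Y) :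
    Fb s t S Y := fun D h1 h2 h3 => h D h1 h2 fun e he =>
  ⟨(h3 e he).1, fun hc => (h3 e he).2.1 (hXY hc), fun hc => (h3 e he).2.2 (hXY hc)⟩

/-- the theorem from the stubs -/
theorem fvn4_of (red : S_RED) (base : S_BASE) (step : S_STEP) (uni : S_UNI) (sum : S_SUM)
    (supp : S_SUPP) (acy : S_ACY) (deg : S_DEG) (forest : S_FOR) (ss : S_SS) (pcs : S_PC)
    (tau : S_TAU) (att_sound : S_ATT) (idl_sound : S_IDL) (pig : S_PIG) (num : S_NUM)
    (few : S_FEW) (lpn_sound : S_LPN) (mn_sound : S_MN) (scl : S_SCL) (stp : S_STP) (nem : S_NEM)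
    (mon : S_MON) (con : S_CON) (root : S_ROOT) (edg : S_EDG) (low : S_LOW) (bs_sound : S_BS)
    (fa : S_FA) (cm : S_CM) (gd1 : S_GD1) (gd0 : S_GD0) (cnt_final : S_CNT) (cls_sound : S_CLS)
    (two : S_TWO) {s t : E → V} {S : Finset E} (hn : N1 s t S) {X : Finset V} (hX : X.card ≤ 4)
    (hF : Fb s t S X) : NZ s t S ∨ PQ s t S := by
  classical
  obtain ⟨f, hf⟩ := exists_mn hX hF
  have hq : N1 (fun e => f (s e)) (fun e => f (t e)) S :=
    quot_n1 (Subset.refl S) (fun e h1 h2 => absurd h1 h2) hn
  suffices h16 : (odd (fun e => f (s e)) (fun e => f (t e)) S).card ≤ 16 by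
    rcases main16 _ _ S hq h16 with h | ⟨κ, h⟩
    · exact Or.inl (hf.nz h)
    · exact Or.inr ⟨fun v => κ (f v), h⟩
  by_cases hV : Fintype.card V ≤ 3
  · have := card_le_univ (odd (fun e => f (s e)) (fun e => f (t e)) S)
    omega
  · obtain ⟨X0, hX0, hF0⟩ := hf.fb
    obtain ⟨X1, h01, _, h1c⟩ := exists_subsuperset_card_eq (subset_univ X0)
      (n := 4) hX0 (by rw [card_univ]; omega)
    have hF1 := fb_mono hF0 h01
    set ε := X1.equivFinOfCardEq h1c with hε
    set x : Fin 4 → V := fun i => (ε.symm i).1 with hx
    have hxi : Function.Injective x := fun i j h => ε.symm.injective (Subtype.ext h)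
    have hxim : univ.image x = X1 := by
      ext v
      rw [mem_image]
      constructor
      · rintro ⟨i, _, rfl⟩
        exact (ε.symm i).2
      · intro hv
        exact ⟨ε ⟨v, hv⟩, mem_univ _, by rw [hx]; simp⟩
    rw [← hxim] at hF1
    have hg : Hg (fun e => f (s e)) (fun e => f (t e)) S x :=
      mn_sound red acy V E s t S f x hn hf hxi hF1
    have hmon := mon step base scl forest deg stp nem V E _ _ S x hg
    have hroot := root forest V E _ _ S x hg
    have hedg := edg step sum forest pig con root V E _ _ S x hg
    have hy : Fy (fun e => f (s e)) (fun e => f (t e)) S x :=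
      { hg with
        bs := fun v hv => bs_sound base V E _ _ S x hxi hg.par v hv
        fa := fa att_sound ss tau scl step forest stp V E _ _ S x hg
        cm := cm V E _ _ S x pcs num forest hg hmon.1 hedg
        pcs := pcs
        num := num
        lpn := lpn_sound
        fr := forest
        dg := by
          intro v hv
          have h1 := deg V E _ _ S x hxi hg.par v hv
          unfold dgr
          rw [h1]
          congr 1
          rw [Nat.card_eq_fintype_card, Fintype.card_subtype]
          unfold nb'
          congr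
        mon := hmon.2
        gd1 := gd1 idl_sound scl forest con root V E _ _ S x hg
        gd0 := gd0 idl_sound forest con root V E _ _ S x hg
        edg := hedg
        low := fun A v h1 h2 h3 => low sum supp few V E _ _ S x hxi hg.par A v h1 h2 h3
        hub := hroot.2.1 }
    have htot := hy.total cls_sound ss cnt_final
      (fun v v' h1 h2 h3 h4 => two uni pig forest con root V E _ _ S x hg v v' h1 h2 h3 h4)
    have h17 : (odd (fun e => f (s e)) (fun e => f (t e)) S).card ≤ 17 := by
      rw [odd_dgr]
      have h1 : univ.filter (fun v => Odd (dgr (fun e => f (s e)) (fun e => f (t e)) S v)) ⊆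
          univ.filter (fun a => (∀ i, x i ≠ a) ∧
            Odd (dgr (fun e => f (s e)) (fun e => f (t e)) S a)) ∪ univ.image x := by
        intro v hv
        rw [mem_filter] at hv
        rw [mem_union, mem_filter, mem_image]
        by_cases hc : ∀ i, x i ≠ v
        · exact Or.inl ⟨mem_univ _, hc, hv.2⟩
        · push Not at hc
          obtain ⟨i, hi⟩ := hc
          exact Or.inr ⟨i, mem_univ _, hi⟩
      refine (card_le_card h1).trans ((card_union_le _ _).trans ?_)
      have h2 : (univ.image x).card ≤ 4 := by
        rw [hxim, h1c]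
      omega
    have he := even_odd (fun e => f (s e)) (fun e => f (t e)) S
    obtain ⟨m, hm⟩ := he
    omega

end

end Pool.Agent.H16.FW
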