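import Pool.Agent.H16.FW.Fit

/-! FW-GD0 (helper63) -/

set_option autoImplicit false

namespace Pool.Agent.H16.FW

open Finset Pool.Agent.TH362.TF Pool.Agent.TH362.TF.Four Q116.FF Pool.Agent.H16.FV

namespace GDaux

theorem sup_bit {a b k : ℕ} (h : sup a b = true) (hk : a.testBit k = true) : b.testBit k = true := by
  unfold sup at h
  have h1 : Nat.land a b = a := Nat.eq_of_beq_eq_true h
  have h2 : (a &&& b) = a := h1
  have h3 : (a &&& b).testBit k = true := by rw [h2]; exact hk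
  rw [Nat.testBit_land, Bool.and_eq_true] at h3
  exact h3.2

theorem bm_iff {m : ℕ} {Q : Fin 4 → Prop} (h : BM m Q) (i : Fin 4) : m.testBit i = true ↔ Q i := by
  rw [h i]
  constructor
  · rintro ⟨j, hj, hq⟩
    have : j = i := Fin.ext hj
    rwa [this] at hq
  · intro hq
    exact ⟨i, rfl, hq⟩

theorem bm_ne {m : ℕ} {Q : Fin 4 → Prop} (h : BM m Q) (hm : m ≠ 0) : ∃ i, Q i := by
  obtain ⟨k, hk⟩ := Nat.exists_testBit_of_ne_zero hm
  obtain ⟨i, _, hq⟩ := (h k).1 hk
  exact ⟨i, hq⟩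

theorem fo_l {V E : Type} [Fintype V] [DecidableEq V] [DecidableEq E] {s t : E → V} {S : Finset E}
    {x : Fin 4 → V} {v u : V} (h : (Fo s t S x).Adj v u) : ∀ i, x i ≠ v := h.2.1

theorem mem_nb {V : Type} [Fintype V] [DecidableEq V] {G : SimpleGraph V} {v w : V} :
    w ∈ nb' G v ↔ G.Adj v w := by
  unfold nb'
  simp

end GDaux

open GDaux

theorem gd0 : S_GD0 := by
  intro hIDL hFOR hCON hROOT V E _ _ _ s t S x hg v hv π hfit hne hsup
  have hF := hFOR V (Fo s t S x) hg.acy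
  have hC := (hCON hFOR V E s t S x hg).1 v (nb' (Fo s t S x) v) (Subset.refl _) hv
  have hR := hROOT hFOR V E s t S x hg
  have hRA := hR.2.2.1 v hv
  obtain ⟨i0, hi0⟩ := bm_ne hfit.v' hne
  refine hg.red (pa (Fo s t S x) v (nb' (Fo s t S x) v)) v
    (hR.1 v (nb' (Fo s t S x) v) (Subset.refl _) hv) (mem_insert_self _ _) (by rw [hRA]; simp)
    (by rw [hRA]; simp) ?_ ⟨i0, hi0⟩ hC
  intro c p hc _ hsum h0 h1
  have hc0 : c = 0 := hc hRA
  subst hc0
  have hi := hIDL π.u π.v _ _ (bm_iff hfit.u) (bm_iff hfit.v') p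
    (fun i hi => h0 i (by omega)) (fun i h2 h3 => h1 i (by omega)) (fun i h2 => by omega)
  exact hfit.q0.2 p hsum (sup_bit hsup (hi.1 hsum))

end Pool.Agent.H16.FW
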