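import Pool.Agent.H16.FW.GD0

/-! FW-GD1 (helper63) -/

set_option autoImplicit false

namespace Pool.Agent.H16.FW

open Finset Pool.Agent.TH362.TF Pool.Agent.TH362.TF.Four Q116.FF Pool.Agent.H16.FV GDaux

namespace GDaux

theorem f_cases : ∀ c : F, c ≠ 0 → c = (1, 0) ∨ c = (0, 1) ∨ c = (1, 1) := by decide

theorem g12_inv : ∀ a : F, g12 (g12 a) = a := by decide
theorem g13_inv : ∀ a : F, g13 (g13 a) = a := by decide
theorem g12_zero : ∀ a : F, g12 a = 0 ↔ a = 0 := by decide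
theorem g13_zero : ∀ a : F, g13 a = 0 ↔ a = 0 := by decide
theorem g12_add : ∀ a b : F, g12 (a + b) = g12 a + g12 b := by decide
theorem g13_add : ∀ a b : F, g13 (a + b) = g13 a + g13 b := by decide

theorem g12_sum (p : Fin 4 → F) : ∑ i, g12 (p i) = g12 (∑ i, p i) := by
  simp only [Fin.sum_univ_four, g12_add]

theorem g13_sum (p : Fin 4 → F) : ∑ i, g13 (p i) = g13 (∑ i, p i) := by
  simp only [Fin.sum_univ_four, g13_add]

end GDaux

open GDaux

theorem gd1 : S_GD1 := by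
  intro hIDL hSCL hFOR hCON hROOT V E _ _ _ s t S x hg v u hvu π hfit hne hsup
  have hF := hFOR V (Fo s t S x) hg.acy
  have hv : ∀ i, x i ≠ v := fo_l hvu
  have hsd : sd (Fo s t S x) v u = pa (Fo s t S x) v (nb' (Fo s t S x) v \ {u}) := hF.2.2.1 v u hvu
  have hC := (hCON hFOR V E s t S x hg).1 v (nb' (Fo s t S x) v \ {u}) sdiff_subset hv
  rw [← hsd] at hC
  have hR := hROOT hFOR V E s t S x hg
  obtain ⟨hRA, hRc, hRe⟩ := hR.2.2.2.2 v u hvu
  obtain ⟨i0, hi0⟩ := bm_ne hfit.v' hne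
  have key : ∀ p : Fin 4 → F, ∑ i, p i = (1, 0) → (∀ i, cnt s t S x (sd (Fo s t S x) v u) i = 0 → p i = 0) →
      (∀ i, cnt s t S x (sd (Fo s t S x) v u) i = 1 → p i ≠ 0) →
      Rz s t S x (sd (Fo s t S x) v u) v (1, 0) p := by
    intro p hsum h0 h1
    have hi := hIDL π.u π.v _ _ (bm_iff hfit.u) (bm_iff hfit.v') p
      (fun i hi => h0 i (by omega)) (fun i h2 h3 => h1 i (by omega)) (fun i h2 => by omega)
    exact hfit.q1.2 p hsum (sup_bit hsup (hi.2 hsum))
  refine hg.red (sd (Fo s t S x) v u) v (hR.2.1 v u hvu) (hF.1 v u hvu).1 hRc hRe ?_ ⟨i0, hi0⟩ hC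
  intro c p _ hc hsum h0 h1
  have hc0 : c ≠ 0 := hc hRA
  change Rz s t S x (sd (Fo s t S x) v u) v c p
  rcases f_cases c hc0 with rfl | rfl | rfl
  · exact key p hsum h0 h1
  · have h2 := key (fun i => g12 (p i)) (by rw [g12_sum, hsum]; rfl)
      (fun i hi => (g12_zero _).2 (h0 i hi)) (fun i hi => fun h => h1 i hi ((g12_zero _).1 h))
    have h3 := (hSCL V E s t S x _ v _ _ h2).1
    simp only [g12_inv] at h3
    exact h3
  · have h2 := key (fun i => g13 (p i)) (by rw [g13_sum, hsum]; decide)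
      (fun i hi => (g13_zero _).2 (h0 i hi)) (fun i hi => fun h => h1 i hi ((g13_zero _).1 h))
    have h3 := (hSCL V E s t S x _ v _ _ h2).2.1
    simp only [g13_inv] at h3
    exact h3

end Pool.Agent.H16.FW
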