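import Pool.Agent.H16.FW.Stm

/-!
# PROJECT FW: sums of values, basic lemmas (helper73)
-/

set_option autoImplicit false

namespace Pool.Agent.H16.FW.H73

open Finset Pool.Agent.TH362.TF Pool.Agent.TH362.TF.Four Q116.FF Pool.Agent.H16.FV
open Pool.Agent.H16.FW

section
variable {V E : Type} [DecidableEq V] [DecidableEq E]

theorem F_self (a : F) : a + a = 0 := by
  revert a
  decide

theorem F_eq_of_add {a b : F} (h : a + b = 0) : b = a := by
  have h1 : a + (a + b) = a := by rw [h, add_zero]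
  rwa [← add_assoc, F_self, zero_add] at h1

omit [DecidableEq E] in
theorem B_congr {s t : E → V} {C : Finset E} {ψ ψ' : E → F} (h : ∀ e ∈ C, ψ e = ψ' e) (u : V) :
    B s t C ψ u = B s t C ψ' u := by
  unfold B
  refine Finset.sum_congr rfl fun e he => ?_
  rw [h e he]

theorem B_union {s t : E → V} {C C' : Finset E} (hd : Disjoint C C') (ψ : E → F) (u : V) :
    B s t (C ∪ C') ψ u = B s t C ψ u + B s t C' ψ u := by
  unfold B
  rw [Finset.sum_union hd]

omit [DecidableEq E] in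
/-- if no edge of `C` is at `u`, the sum is zero -/
theorem B_zero {s t : E → V} {C : Finset E} {ψ : E → F} {u : V}
    (h : ∀ e ∈ C, s e ≠ u ∧ t e ≠ u) : B s t C ψ u = 0 := by
  unfold B
  refine Finset.sum_eq_zero fun e he => ?_
  rw [if_neg (h e he).1, if_neg (h e he).2, add_zero]

omit [DecidableEq E] in
/-- only one edge of `C` is at `u` -/
theorem B_one {s t : E → V} {C : Finset E} {ψ : E → F} {u : V} {e₀ : E} (h0 : e₀ ∈ C)
    (hne : s e₀ ≠ t e₀) (hu : s e₀ = u ∨ t e₀ = u)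
    (h : ∀ e ∈ C, e ≠ e₀ → s e ≠ u ∧ t e ≠ u) : B s t C ψ u = ψ e₀ := by
  unfold B
  rw [Finset.sum_eq_single e₀]
  · rcases hu with hu | hu
    · rw [if_pos hu, if_neg (fun h' => hne (hu.trans h'.symm)), add_zero]
    · rw [if_pos hu, if_neg (fun h' => hne (h'.trans hu.symm)), zero_add]
  · intro e he hne'
    rw [if_neg (h e he hne').1, if_neg (h e he hne').2, add_zero]
  · intro h'
    exact absurd h0 h'

omit [DecidableEq E] in
/-- the sum over all the ends is zero -/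
theorem B_all {s t : E → V} {C : Finset E} {ψ : E → F} (U : Finset V)
    (h : ∀ e ∈ C, s e ∈ U ∧ t e ∈ U) : ∑ u ∈ U, B s t C ψ u = 0 := by
  unfold B
  rw [Finset.sum_comm]
  refine Finset.sum_eq_zero fun e he => ?_
  rw [Finset.sum_add_distrib, Finset.sum_ite_eq, Finset.sum_ite_eq, if_pos (h e he).1,
    if_pos (h e he).2, F_self]

variable {s t : E → V} {S : Finset E} {x : Fin 4 → V}

omit [DecidableEq E] in
theorem mem_CA {A : Finset V} {e : E} : e ∈ CA s t S x A ↔ e ∈ S ∧ s e ≠ t e ∧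
    (s e ∈ A ∨ t e ∈ A) ∧ (s e ∈ A ∨ s e ∈ univ.image x) ∧
    (t e ∈ A ∨ t e ∈ univ.image x) := by
  unfold CA
  rw [Finset.mem_filter]

theorem notMem_im {A : Finset V} (hA : ∀ i, x i ∉ A) {a : V} (ha : a ∈ A) :
    a ∉ univ.image x := by
  intro h
  obtain ⟨i, -, rfl⟩ := Finset.mem_image.1 h
  exact hA i ha

theorem disj_im {A : Finset V} (hA : ∀ i, x i ∉ A) : Disjoint A (univ.image x) :=
  Finset.disjoint_left.2 fun _ ha => notMem_im hA ha

/-- sums and gluing -/
theorem CA_union {A A' : Finset V} (hA : ∀ i, x i ∉ A) (hA' : ∀ i, x i ∉ A')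
    (hd : Disjoint A A') (D : Finset E)
    (hD : ∀ e, e ∈ D ↔ e ∈ S ∧ (s e ∈ A ∧ t e ∈ A' ∨ s e ∈ A' ∧ t e ∈ A)) :
    CA s t S x (A ∪ A') = (CA s t S x A ∪ CA s t S x A') ∪ D := by
  ext e
  have hX : ∀ a, a ∈ univ.image x → a ∉ A ∧ a ∉ A' := fun a ha =>
    ⟨fun h => notMem_im hA h ha, fun h => notMem_im hA' h ha⟩
  simp only [Finset.mem_union, mem_CA, hD]
  constructor
  · rintro ⟨hS, hne, h1, h2, h3⟩
    rcases h2 with (hs | hs) | hs
    · rcases h3 with (ht | ht) | ht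
      · exact Or.inl (Or.inl ⟨hS, hne, Or.inl hs, Or.inl hs, Or.inl ht⟩)
      · exact Or.inr ⟨hS, Or.inl ⟨hs, ht⟩⟩
      · exact Or.inl (Or.inl ⟨hS, hne, Or.inl hs, Or.inl hs, Or.inr ht⟩)
    · rcases h3 with (ht | ht) | ht
      · exact Or.inr ⟨hS, Or.inr ⟨hs, ht⟩⟩
      · exact Or.inl (Or.inr ⟨hS, hne, Or.inl hs, Or.inl hs, Or.inl ht⟩)
      · exact Or.inl (Or.inr ⟨hS, hne, Or.inl hs, Or.inl hs, Or.inr ht⟩)
    · rcases h3 with (ht | ht) | ht
      · exact Or.inl (Or.inl ⟨hS, hne, Or.inr ht, Or.inr hs, Or.inl ht⟩)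
      · exact Or.inl (Or.inr ⟨hS, hne, Or.inr ht, Or.inr hs, Or.inl ht⟩)
      · rcases h1 with (h1 | h1) | (h1 | h1)
        · exact absurd h1 (hX _ hs).1
        · exact absurd h1 (hX _ hs).2
        · exact absurd h1 (hX _ ht).1
        · exact absurd h1 (hX _ ht).2
  · rintro ((⟨hS, hne, h1, h2, h3⟩ | ⟨hS, hne, h1, h2, h3⟩) | ⟨hS, h1⟩)
    · exact ⟨hS, hne, h1.imp Or.inl Or.inl, h2.imp_left Or.inl, h3.imp_left Or.inl⟩
    · exact ⟨hS, hne, h1.imp Or.inr Or.inr, h2.imp_left Or.inr, h3.imp_left Or.inr⟩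
    · rcases h1 with ⟨h1, h2⟩ | ⟨h1, h2⟩
      · refine ⟨hS, ?_, Or.inl (Or.inl h1), Or.inl (Or.inl h1), Or.inl (Or.inr h2)⟩
        intro h
        rw [h] at h1
        exact Finset.disjoint_left.1 hd h1 h2
      · refine ⟨hS, ?_, Or.inl (Or.inr h1), Or.inl (Or.inr h1), Or.inl (Or.inl h2)⟩
        intro h
        rw [h] at h1
        exact Finset.disjoint_left.1 hd h2 h1

theorem CA_disj {A A' : Finset V} (hA : ∀ i, x i ∉ A) (hA' : ∀ i, x i ∉ A')
    (hd : Disjoint A A') : Disjoint (CA s t S x A) (CA s t S x A') := by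
  refine Finset.disjoint_left.2 fun e he he' => ?_
  rw [mem_CA] at he he'
  have h1 : s e ∈ A → s e ∉ A' := fun h => Finset.disjoint_left.1 hd h
  have h2 : t e ∈ A → t e ∉ A' := fun h => Finset.disjoint_left.1 hd h
  have h3 : s e ∈ A → s e ∉ univ.image x := notMem_im hA
  have h4 : t e ∈ A → t e ∉ univ.image x := notMem_im hA
  tauto

theorem CA_disjD {A A' : Finset V} (hA : ∀ i, x i ∉ A) (hA' : ∀ i, x i ∉ A')
    (hd : Disjoint A A') (D : Finset E)
    (hD : ∀ e, e ∈ D ↔ e ∈ S ∧ (s e ∈ A ∧ t e ∈ A' ∨ s e ∈ A' ∧ t e ∈ A)) :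
    Disjoint (CA s t S x A ∪ CA s t S x A') D := by
  refine Finset.disjoint_left.2 fun e he he' => ?_
  rw [Finset.mem_union, mem_CA, mem_CA] at he
  rw [hD] at he'
  have h1 : s e ∈ A → s e ∉ A' := fun h => Finset.disjoint_left.1 hd h
  have h2 : t e ∈ A → t e ∉ A' := fun h => Finset.disjoint_left.1 hd h
  have h3 : s e ∈ A → s e ∉ univ.image x := notMem_im hA
  have h4 : t e ∈ A → t e ∉ univ.image x := notMem_im hA
  have h5 : s e ∈ A' → s e ∉ univ.image x := notMem_im hA'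
  have h6 : t e ∈ A' → t e ∉ univ.image x := notMem_im hA'
  tauto

/-- gluing of values -/
theorem glue {A A' : Finset V} (hA : ∀ i, x i ∉ A) (hA' : ∀ i, x i ∉ A')
    (hd : Disjoint A A') (D : Finset E)
    (hD : ∀ e, e ∈ D ↔ e ∈ S ∧ (s e ∈ A ∧ t e ∈ A' ∨ s e ∈ A' ∧ t e ∈ A)) (ψ ψ' δ : E → F)
    (h1 : ∀ e ∈ CA s t S x A, ψ e ≠ 0) (h2 : ∀ e ∈ CA s t S x A', ψ' e ≠ 0)
    (h3 : ∀ e ∈ D, δ e ≠ 0) :
    ∃ χ : E → F, (∀ e ∈ CA s t S x (A ∪ A'), χ e ≠ 0) ∧
      ∀ u, B s t (CA s t S x (A ∪ A')) χ u =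
        B s t (CA s t S x A) ψ u + B s t (CA s t S x A') ψ' u + B s t D δ u := by
  have hdd := CA_disj (s := s) (t := t) (S := S) hA hA' hd
  have hdD := CA_disjD (s := s) (t := t) (S := S) hA hA' hd D hD
  refine ⟨fun e => if e ∈ D then δ e else if e ∈ CA s t S x A then ψ e else ψ' e, ?_, ?_⟩
  · intro e he
    rw [CA_union hA hA' hd D hD] at he
    show (if e ∈ D then δ e else if e ∈ CA s t S x A then ψ e else ψ' e) ≠ 0
    by_cases hed : e ∈ D
    · rw [if_pos hed]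
      exact h3 e hed
    · rw [if_neg hed]
      by_cases hea : e ∈ CA s t S x A
      · rw [if_pos hea]
        exact h1 e hea
      · rw [if_neg hea]
        refine h2 e ?_
        simp only [Finset.mem_union] at he
        tauto
  · intro u
    rw [CA_union hA hA' hd D hD, B_union hdD, B_union hdd]
    congr 1
    · congr 1
      · refine B_congr (fun e he => ?_) u
        have hn : e ∉ D := Finset.disjoint_left.1 hdD (Finset.mem_union_left _ he)
        rw [if_neg hn, if_pos he]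
      · refine B_congr (fun e he => ?_) u
        have hn : e ∉ D := Finset.disjoint_left.1 hdD (Finset.mem_union_right _ he)
        rw [if_neg hn, if_neg (Finset.disjoint_right.1 hdd he)]
    · refine B_congr (fun e he => ?_) u
      rw [if_pos he]

omit [DecidableEq E] in
/-- no edge of `CA A` at a vertex of `A'` -/
theorem B_other {A A' : Finset V} (hA' : ∀ i, x i ∉ A') (hd : Disjoint A A') (ψ : E → F)
    {u : V} (hu : u ∈ A') : B s t (CA s t S x A) ψ u = 0 := by
  have h0 : u ∉ A := Finset.disjoint_right.1 hd hu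
  have h1 : u ∉ univ.image x := notMem_im hA' hu
  refine B_zero fun e he => ?_
  rw [mem_CA] at he
  refine ⟨?_, ?_⟩
  · rintro rfl
    tauto
  · rintro rfl
    tauto

omit [DecidableEq E] in
/-- the total sum over `A` and the hubs is zero -/
theorem total (hx : Function.Injective x) {A : Finset V} (hA : ∀ i, x i ∉ A) (ψ : E → F) :
    ∑ u ∈ A, B s t (CA s t S x A) ψ u + ∑ i, B s t (CA s t S x A) ψ (x i) = 0 := by
  have h1 := B_all (s := s) (t := t) (C := CA s t S x A) (ψ := ψ) (A ∪ univ.image x) (by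
    intro e he
    rw [mem_CA] at he
    exact ⟨Finset.mem_union.2 he.2.2.2.1, Finset.mem_union.2 he.2.2.2.2⟩)
  rw [Finset.sum_union (disj_im hA), Finset.sum_image (fun a _ b _ h => hx h)] at h1
  exact h1

end

end Pool.Agent.H16.FW.H73
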