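import Pool.Agent.H16.FW.Stm

/-!
# PROJECT FW (helper16), second batch: the reduced graph

`Hg s t S x`: the properties of a minimal contraction with the hubs `x`.  `G = Fo s t S x` is a
forest.  `Rz A v c p`: the vector `p` is realized by `A` with the value `c` at `v`; `N A v` is the
number of the vectors realized with the value `(1,0)`.
-/

set_option autoImplicit false

namespace Pool.Agent.H16.FW

open Finset Pool.Agent.TH362.TF Pool.Agent.TH362.TF.Four Q116.FF Pool.Agent.H16.FV

section
variable {V E : Type} [Fintype V] [DecidableEq V] [DecidableEq E]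

/-- the properties of a minimal contraction -/
structure Hg (s t : E → V) (S : Finset E) (x : Fin 4 → V) : Prop where
  inj : Function.Injective x
  par : Par s t S
  tri : ∀ a b c, a ≠ b → b ≠ c → c ≠ a → ∀ e1 ∈ S, ∀ e2 ∈ S, ∀ e3 ∈ S,
    Ends s t a b e1 → Ends s t b c e2 → Ends s t c a e3 → False
  quad : ∀ a b c d, a ≠ b → b ≠ c → c ≠ d → d ≠ a → a ≠ c → b ≠ d → ∀ e1 ∈ S, ∀ e2 ∈ S,
    ∀ e3 ∈ S, ∀ e4 ∈ S, Ends s t a b e1 → Ends s t b c e2 → Ends s t c d e3 → Ends s t d a e4 →
    False
  acy : (Fo s t S x).IsAcyclic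
  deg : ∀ v, (cut s t S (fun u => decide (u = v))).Nonempty →
    3 ≤ (cut s t S (fun u => decide (u = v))).card
  red : ∀ (A : Finset V) (v : V), (∀ i, x i ∉ A) → v ∈ A → (RA s t S x A).card ≤ 1 →
    (∀ e ∈ RA s t S x A, s e = v ∨ t e = v) →
    (∀ (c : F) (p : Fin 4 → F), (RA s t S x A = ∅ → c = 0) → (RA s t S x A ≠ ∅ → c ≠ 0) →
      ∑ i, p i = c → (∀ i, cnt s t S x A i = 0 → p i = 0) →
      (∀ i, cnt s t S x A i = 1 → p i ≠ 0) → Re s t S x A (pt v c) p) →
    (∃ i, 2 ≤ cnt s t S x A i) → CT s t S (cl s t S x A) → False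

/-- realized vectors -/
def Rz (s t : E → V) (S : Finset E) (x : Fin 4 → V) (A : Finset V) (v : V) (c : F)
    (p : Fin 4 → F) : Prop := Re s t S x A (pt v c) p

open Classical in
/-- the number of the realized vectors -/
noncomputable def N (s t : E → V) (S : Finset E) (x : Fin 4 → V) (A : Finset V) (v : V) : ℕ :=
  (univ.filter (fun p => Rz s t S x A v (1, 0) p)).card

end

/-- MN (80 lines; uses RED, ACY, N1).  A minimal contraction with four hubs has these properties:
`Mn.par`, `Mn.tri`, `Mn.quad`, `Mn.deg2` (FV/Str.lean); `red` by `S_RED`, `Mn.no` and `fb_meet`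
(FV/Gd.lean; some hub is in `cl A`, and an edge from `A` to it is in `T`). -/
def S_MN : Prop :=
  S_RED → S_ACY → ∀ (V E : Type) [Fintype V] [DecidableEq V] [DecidableEq E] (s t : E → V)
    (S : Finset E) (f : V → V) (x : Fin 4 → V), N1 s t S → Mn s t S 4 f →
    Function.Injective x → Fb (fun e => f (s e)) (fun e => f (t e)) S (univ.image x) →
    Hg (fun e => f (s e)) (fun e => f (t e)) S x

/-- SCL (30 lines).  Automorphisms of `F`. -/
def S_SCL : Prop :=
  ∀ (V E : Type) [Fintype V] [DecidableEq V] [DecidableEq E] (s t : E → V) (S : Finset E)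
    (x : Fin 4 → V) (A : Finset V) (v : V) (c : F) (p : Fin 4 → F), Rz s t S x A v c p →
    Rz s t S x A v (g12 c) (fun i => g12 (p i)) ∧ Rz s t S x A v (g13 c) (fun i => g13 (p i)) ∧
      Rz s t S x A v (g23 c) (fun i => g23 (p i))

/-- STP (80 lines; uses STEP, FOR).  One more branch.  Vertices of branches are not hubs; the only
edge between `pa v W` and `sd y v` is the edge `vy` (part (2) of FOR and `Par`). -/
def S_STP : Prop :=
  S_STEP → S_FOR → ∀ (V E : Type) [Fintype V] [DecidableEq V] [DecidableEq E] (s t : E → V)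
    (S : Finset E) (x : Fin 4 → V), Hg s t S x → ∀ (v : V) (W : Finset V) (y : V),
    (∀ i, x i ≠ v) → W ⊆ nb' (Fo s t S x) v → y ∈ nb' (Fo s t S x) v → y ∉ W →
    ∀ (c a : F) (p q : Fin 4 → F), a ≠ 0 → Rz s t S x (pa (Fo s t S x) v W) v c p →
      Rz s t S x (sd (Fo s t S x) y v) y a q →
      Rz s t S x (pa (Fo s t S x) v (insert y W)) v (c + a) (p + q)

/-- NEM (100 lines; uses BASE, SCL, FOR, DEG and the conclusion of STP as a hypothesis).  Each
branch realizes some vector; more generally each `pa v W` with at least one edge at `v` realizes some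
vector with any given nonzero value.

Proof.  Strong induction on the number of vertices of the branch: there are nonzero values for the
labels and the edges to the branches in `W` at `v` with sum `c ≠ 0`; scale the vectors of the smaller
branches (`g12`, `g13` send `(1,0)` to `(0,1)`, `(1,1)`); add them one after another. -/
def S_NEM : Prop :=
  S_STEP → S_BASE → S_SCL → S_FOR → S_DEG → S_STP → ∀ (V E : Type) [Fintype V] [DecidableEq V]
    [DecidableEq E] (s t : E → V) (S : Finset E) (x : Fin 4 → V), Hg s t S x →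
    (∀ v u, (Fo s t S x).Adj v u → ∀ c : F, c ≠ 0 → ∃ p,
      Rz s t S x (sd (Fo s t S x) v u) v c p) ∧
    (∀ v, ∀ W ⊆ nb' (Fo s t S x) v, (∀ i, x i ≠ v) → (W.Nonempty ∨ ∃ i, La s t S x v i) →
      ∀ c : F, c ≠ 0 → ∃ p, Rz s t S x (pa (Fo s t S x) v W) v c p)

/-- MON (100 lines; uses NEM).  More branches realize at least as many vectors; a branch at `v`
realizes at most as many as the larger branch.

Proof.  (1) By induction it is enough to add one branch `y` to `W`: take `q` realized by `sd y v` with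
value `(0,1)` and send `p` to `g13 p`... in detail: `p` (value `(1,0)`) goes to `(g13 p) + q` with
value `(1,1) + (0,1) = (1,0)`; this map is injective.  (2) the same with `q` realized by
`pa v (W \ {y})` with value `(0,1)` (NEM; there is another edge at `v` by the degree) and `p`
realized by `sd y v`, scaled by `g13`. -/
def S_MON : Prop :=
  S_STEP → S_BASE → S_SCL → S_FOR → S_DEG → S_STP → S_NEM → ∀ (V E : Type) [Fintype V]
    [DecidableEq V] [DecidableEq E] (s t : E → V) (S : Finset E) (x : Fin 4 → V), Hg s t S x →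
    (∀ v, ∀ W ⊆ nb' (Fo s t S x) v, ∀ W' ⊆ W, (∀ i, x i ≠ v) →
      N s t S x (pa (Fo s t S x) v W') v ≤ N s t S x (pa (Fo s t S x) v W) v) ∧
    (∀ v u, (Fo s t S x).Adj v u → ∀ y ∈ nb' (Fo s t S x) v, y ≠ u →
      N s t S x (sd (Fo s t S x) y v) y ≤ N s t S x (sd (Fo s t S x) v u) v)

/-- CON (60 lines; uses FOR).  `pa v W` together with the hubs used at least twice is connected (the
form which is used in `Hg.red`); a union of two such sets with a common hub too. -/
def S_CON : Prop :=
  S_FOR → ∀ (V E : Type) [Fintype V] [DecidableEq V] [DecidableEq E] (s t : E → V)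
    (S : Finset E) (x : Fin 4 → V), Hg s t S x →
    (∀ v, ∀ W ⊆ nb' (Fo s t S x) v, (∀ i, x i ≠ v) →
      CT s t S (cl s t S x (pa (Fo s t S x) v W))) ∧
    (∀ v, ∀ W ⊆ nb' (Fo s t S x) v, (∀ i, x i ≠ v) → ∀ v', ∀ W' ⊆ nb' (Fo s t S x) v',
      (∀ i, x i ≠ v') → Disjoint (pa (Fo s t S x) v W) (pa (Fo s t S x) v' W') →
      (∃ i, 1 ≤ cnt s t S x (pa (Fo s t S x) v W) i ∧
        1 ≤ cnt s t S x (pa (Fo s t S x) v' W') i) →
      CT s t S (cl s t S x (pa (Fo s t S x) v W ∪ pa (Fo s t S x) v' W')))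

/-- ROOT (50 lines; uses FOR).  The root edges: none for a component, exactly the edge `vu` for the
branch `sd v u`; none for a union of two components; no hubs in branches. -/
def S_ROOT : Prop :=
  S_FOR → ∀ (V E : Type) [Fintype V] [DecidableEq V] [DecidableEq E] (s t : E → V)
    (S : Finset E) (x : Fin 4 → V), Hg s t S x →
    (∀ v, ∀ W ⊆ nb' (Fo s t S x) v, (∀ i, x i ≠ v) → ∀ i, x i ∉ pa (Fo s t S x) v W) ∧
    (∀ v u, (Fo s t S x).Adj v u → ∀ i, x i ∉ sd (Fo s t S x) v u) ∧
    (∀ v, (∀ i, x i ≠ v) → RA s t S x (pa (Fo s t S x) v (nb' (Fo s t S x) v)) = ∅) ∧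
    (∀ v v', (∀ i, x i ≠ v) → (∀ i, x i ≠ v') →
      RA s t S x (pa (Fo s t S x) v (nb' (Fo s t S x) v) ∪
        pa (Fo s t S x) v' (nb' (Fo s t S x) v')) = ∅) ∧
    (∀ v u, (Fo s t S x).Adj v u → RA s t S x (sd (Fo s t S x) v u) ≠ ∅ ∧
      (RA s t S x (sd (Fo s t S x) v u)).card ≤ 1 ∧
      ∀ e ∈ RA s t S x (sd (Fo s t S x) v u), s e = v ∨ t e = v)

/-- EDG (60 lines; uses the above).  Two sides of an edge realize at most 64 vectors together, if
some hub is used twice by the component.

Proof.  Otherwise PIG and STEP show that the component `sd v u ∪ sd u v = pa v (nb' v)` (FOR (5))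
realizes all vectors with sum zero (value `(1,0) + (1,0) = 0`; the vectors realized have the right
sums by SUM), contradicting `Hg.red` (ROOT, CON). -/
def S_EDG : Prop :=
  S_STEP → S_SUM → S_FOR → S_PIG → S_CON → S_ROOT → ∀ (V E : Type) [Fintype V] [DecidableEq V]
    [DecidableEq E] (s t : E → V) (S : Finset E) (x : Fin 4 → V), Hg s t S x →
    ∀ v u, (Fo s t S x).Adj v u →
      (∃ i, 2 ≤ cnt s t S x (pa (Fo s t S x) v (nb' (Fo s t S x) v)) i) →
      N s t S x (sd (Fo s t S x) v u) v + N s t S x (sd (Fo s t S x) u v) u ≤ 64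

/-- LOW (40 lines; uses SUM, SUPP, FEW).  A set which realizes at least 28 vectors uses some hub
twice. -/
def S_LOW : Prop :=
  S_SUM → S_SUPP → S_FEW → ∀ (V E : Type) [Fintype V] [DecidableEq V] [DecidableEq E]
    (s t : E → V) (S : Finset E) (x : Fin 4 → V), Function.Injective x → Par s t S →
    ∀ (A : Finset V) (v : V), (∀ i, x i ∉ A) → v ∈ A → 28 ≤ N s t S x A v →
      ∃ i, 2 ≤ cnt s t S x A i

end Pool.Agent.H16.FW
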