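import Pool.Agent.H16.FW.NUM
import Pool.Agent.H16.FW.SS

set_option autoImplicit false

namespace Pool.Agent.H16.FW

open Finset Pool.Agent.TH362.TF Pool.Agent.TH362.TF.Four Q116.FF Pool.Agent.H16.FV

theorem full_bit : ∀ k < 64, full.testBit k = true := by decide

theorem fac_bit (z k : ℕ) (hk : k < 64) (u v : Bool) (a : F) (hz : z.testBit k = decide (a = 0))
    (h0 : u = false → a = 0) (h1 : u = true → v = false → a ≠ 0) (h2 : v = true → u = true) :
    (fac z u v).testBit k = true := by
  unfold fac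
  cases v
  · rw [cond_false]
    cases u
    · rw [cond_false, hz, decide_eq_true (h0 rfl)]
    · rw [cond_true, xor_bit, full_bit k hk, hz, decide_eq_false (h1 rfl rfl)]; rfl
  · rw [cond_true]; exact full_bit k hk

theorem bz0 (a b c : F) : (0x1111111111111111).testBit (cd a + 4 * cd b + 16 * cd c) =
    decide (a = 0) := by revert a b c; decide
theorem bz1 (a b c : F) : (0x000F000F000F000F).testBit (cd a + 4 * cd b + 16 * cd c) =
    decide (b = 0) := by revert a b c; decide
theorem bz2 (a b c : F) : (0x000000000000FFFF).testBit (cd a + 4 * cd b + 16 * cd c) =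
    decide (c = 0) := by revert a b c; decide
theorem bz3 (a b c : F) : z0.testBit (cd a + 4 * cd b + 16 * cd c) =
    decide (a + b + c = 0) := by revert a b c; decide
theorem bz4 (a b c : F) : z1.testBit (cd a + 4 * cd b + 16 * cd c) =
    decide (a + b + c + (1, 0) = 0) := by revert a b c; decide

theorem idl_gen (z3 u v : ℕ) (U W : Fin 4 → Prop) (hU : ∀ i : Fin 4, u.testBit i = true ↔ U i)
    (hV : ∀ i : Fin 4, v.testBit i = true ↔ W i) (p : Fin 4 → F) (h0 : ∀ i, ¬ U i → p i = 0)
    (h1 : ∀ i, U i → ¬ W i → p i ≠ 0) (h2 : ∀ i, W i → U i)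
    (hz : z3.testBit (code p) = decide (p 3 = 0)) : (idl z3 u v).testBit (code p) = true := by
  have key : ∀ (i : Fin 4) (z : ℕ), z.testBit (code p) = decide (p i = 0) →
      (fac z (u.testBit i) (v.testBit i)).testBit (code p) = true := by
    intro i z hz
    apply fac_bit z _ (code_lt p) _ _ (p i) hz
    · intro h
      apply h0 i
      rw [← hU i, h]; decide
    · intro h h'
      apply h1 i ((hU i).1 h)
      rw [← hV i, h']; decide
    · intro h
      exact (hU i).2 (h2 i ((hV i).1 h))
  unfold idl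
  rw [land_bit, land_bit, land_bit]
  have k0 := key 0 _ (bz0 _ _ _)
  have k1 := key 1 _ (bz1 _ _ _)
  have k2 := key 2 _ (bz2 _ _ _)
  have k3 := key 3 z3 hz
  have e0 : ((0 : Fin 4) : ℕ) = 0 := rfl
  have e1 : ((1 : Fin 4) : ℕ) = 1 := rfl
  have e2 : ((2 : Fin 4) : ℕ) = 2 := rfl
  have e3 : ((3 : Fin 4) : ℕ) = 3 := rfl
  rw [e0] at k0
  rw [e1] at k1
  rw [e2] at k2
  rw [e3] at k3
  rw [k0, k1, k2, k3]
  rfl

theorem idl_sound : S_IDL := by
  intro u v U W hU hV p h0 h1 h2
  refine ⟨fun hs => ?_, fun hs => ?_⟩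
  · apply idl_gen z0 u v U W hU hV p h0 h1 h2
    refine (bz3 (p 0) (p 1) (p 2)).trans ?_
    congr 1
    rw [Fin.sum_univ_four] at hs
    have : p 0 + p 1 + p 2 = p 3 := by
      have := congrArg (· + p 3) hs
      simpa [add_assoc, F_add_self] using this
    rw [this]
  · apply idl_gen z1 u v U W hU hV p h0 h1 h2
    refine (bz4 (p 0) (p 1) (p 2)).trans ?_
    congr 1
    rw [Fin.sum_univ_four] at hs
    have : p 0 + p 1 + p 2 + (1, 0) = p 3 := by
      rw [← hs, ← add_assoc, ← add_assoc, ← add_assoc]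
      generalize p 0 = a, p 1 = b, p 2 = c, p 3 = d
      revert a b c d; decide
    rw [this]

end Pool.Agent.H16.FW
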