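import Pool.Agent.H16.FW.Hg

/-!
Lemmas for the stubs of helper35 (FW-SCL, ROOT, STP, CON, EDG, MN).
-/

set_option autoImplicit false
set_option linter.unusedSectionVars false

namespace Pool.Agent.H16.FW.K35

open Finset Pool.Agent.TH362.TF Pool.Agent.TH362.TF.Four Q116.FF Pool.Agent.H16.FV
open Pool.Agent.H16.FW

variable {V E : Type} [Fintype V] [DecidableEq V] [DecidableEq E]

theorem rz_hom {s t : E → V}
    {S : Finset E} {x : Fin 4 → V} {A : Finset V} {v : V} {c : F} {p : Fin 4 → F}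
    (g : F →+ F) (hg : ∀ a, a ≠ 0 → g a ≠ 0) (h : Rz s t S x A v c p) :
    Rz s t S x A v (g c) (fun i => g (p i)) := by
  obtain ⟨ψ, h1, h2, h3⟩ := h
  refine ⟨fun e => g (ψ e), fun e he => hg _ (h1 e he), fun u hu => ?_, fun i => ?_⟩
  · rw [B_hom g, h2 u hu]
    unfold pt
    split_ifs
    · rfl
    · exact map_zero g
  · rw [B_hom g, h3 i]

/-- `g12` as a homomorphism -/
def h12 : F →+ F where
  toFun := g12
  map_zero' := rfl
  map_add' := by decide

/-- `g13` as a homomorphism -/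
def h13 : F →+ F where
  toFun := g13
  map_zero' := by decide
  map_add' := by decide

/-- `g23` as a homomorphism -/
def h23 : F →+ F where
  toFun := g23
  map_zero' := by decide
  map_add' := by decide

theorem lk_nonhub {s t : E → V} {S : Finset E} {x : Fin 4 → V} {A : Finset V} {v w : V}
    (h : Lk' (Fo s t S x) A v w) (hv : ∀ i, x i ≠ v) : ∀ i, x i ≠ w := by
  unfold Lk' at h
  rcases Relation.ReflTransGen.cases_tail h with h1 | ⟨b, _, _, _, h2⟩
  · rw [h1]; exact hv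
  · exact h2.2.2.1

theorem not_mem_img {x : Fin 4 → V} {b : V} : b ∉ univ.image x ↔ ∀ i, x i ≠ b := by
  simp [mem_image]

theorem ra_adj {s t : E → V} {S : Finset E} {x : Fin 4 → V} {A : Finset V} (hA : ∀ i, x i ∉ A)
    {e : E} (he : e ∈ RA s t S x A) :
    ∃ a b, a ∈ A ∧ b ∉ A ∧ e ∈ S ∧ Ends s t a b e ∧ (Fo s t S x).Adj a b := by
  unfold RA at he
  rw [mem_filter] at he
  obtain ⟨h0, h1⟩ := he
  have hub : ∀ a ∈ A, ∀ i, x i ≠ a := fun a ha i h => hA i (h ▸ ha)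
  rcases h1 with ⟨h1, h2, h3⟩ | ⟨h1, h2, h3⟩
  · refine ⟨s e, t e, h1, h2, h0, Or.inl ⟨rfl, rfl⟩, ?_, hub _ h1, not_mem_img.1 h3, e, h0,
      Or.inl ⟨rfl, rfl⟩⟩
    intro h; rw [h] at h1; exact h2 h1
  · refine ⟨t e, s e, h1, h2, h0, Or.inr ⟨rfl, rfl⟩, ?_, hub _ h1, not_mem_img.1 h3, e, h0,
      Or.inr ⟨rfl, rfl⟩⟩
    intro h; rw [h] at h1; exact h2 h1

theorem mem_nb' {G : SimpleGraph V} {v w : V} : w ∈ nb' G v ↔ G.Adj v w := by
  unfold nb'; simp

end Pool.Agent.H16.FW.K35
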