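/-!
# PROJECT FW: bit masks

A set of vectors `p : Fin 4 → F` (`F` = the group of order four) with a fixed sum is coded by a
number `q < 2 ^ 64`: the bit `c (p 0) + 4 c (p 1) + 16 c (p 2)` is set for its elements.
-/

set_option autoImplicit false

namespace Pool.Agent.H16.FW

/-- flip the index bit 0 -/
def w0 (b : Nat) : Nat := Nat.lor (Nat.shiftLeft (Nat.land b 0x5555555555555555) 1)
  (Nat.land (Nat.shiftRight b 1) 0x5555555555555555)
/-- flip the index bit 1 -/
def w1 (b : Nat) : Nat := Nat.lor (Nat.shiftLeft (Nat.land b 0x3333333333333333) 2)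
  (Nat.land (Nat.shiftRight b 2) 0x3333333333333333)
/-- flip the index bit 2 -/
def w2 (b : Nat) : Nat := Nat.lor (Nat.shiftLeft (Nat.land b 0x0F0F0F0F0F0F0F0F) 4)
  (Nat.land (Nat.shiftRight b 4) 0x0F0F0F0F0F0F0F0F)
/-- flip the index bit 3 -/
def w3 (b : Nat) : Nat := Nat.lor (Nat.shiftLeft (Nat.land b 0x00FF00FF00FF00FF) 8)
  (Nat.land (Nat.shiftRight b 8) 0x00FF00FF00FF00FF)
/-- flip the index bit 4 -/
def w4 (b : Nat) : Nat := Nat.lor (Nat.shiftLeft (Nat.land b 0x0000FFFF0000FFFF) 16)
  (Nat.land (Nat.shiftRight b 16) 0x0000FFFF0000FFFF)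
/-- flip the index bit 5 -/
def w5 (b : Nat) : Nat := Nat.lor (Nat.shiftLeft (Nat.land b 0x00000000FFFFFFFF) 32)
  (Nat.land (Nat.shiftRight b 32) 0x00000000FFFFFFFF)

/-- all 64 vectors -/
def full : Nat := 0xFFFFFFFFFFFFFFFF

def s0 (r a b : Nat) : Nat := cond (Nat.beq a 0) r (Nat.lor r b)
def s1 (r a b : Nat) : Nat := cond (Nat.beq a 0) r (cond (Nat.beq r 0xFFFFFFFFFFFFFFFF) r
  (s0 (s0 r (Nat.land a 1) b) (Nat.shiftRight a 1) (w0 b)))
def s2 (r a b : Nat) : Nat := cond (Nat.beq a 0) r (cond (Nat.beq r 0xFFFFFFFFFFFFFFFF) r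
  (s1 (s1 r (Nat.land a 3) b) (Nat.shiftRight a 2) (w1 b)))
def s3 (r a b : Nat) : Nat := cond (Nat.beq a 0) r (cond (Nat.beq r 0xFFFFFFFFFFFFFFFF) r
  (s2 (s2 r (Nat.land a 15) b) (Nat.shiftRight a 4) (w2 b)))
def s4 (r a b : Nat) : Nat := cond (Nat.beq a 0) r (cond (Nat.beq r 0xFFFFFFFFFFFFFFFF) r
  (s3 (s3 r (Nat.land a 255) b) (Nat.shiftRight a 8) (w3 b)))
def s5 (r a b : Nat) : Nat := cond (Nat.beq a 0) r (cond (Nat.beq r 0xFFFFFFFFFFFFFFFF) r
  (s4 (s4 r (Nat.land a 65535) b) (Nat.shiftRight a 16) (w4 b)))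
/-- `r` together with the sumset of `a` and `b` -/
def s6 (r a b : Nat) : Nat := cond (Nat.beq a 0) r (cond (Nat.beq r 0xFFFFFFFFFFFFFFFF) r
  (s5 (s5 r (Nat.land a 4294967295) b) (Nat.shiftRight a 32) (w5 b)))

def c1 (a : Nat) : Nat := cond (Nat.beq a 0) 0 (Nat.add (Nat.land a 1) (Nat.shiftRight a 1))
def c2 (a : Nat) : Nat := cond (Nat.beq a 0) 0 (Nat.add (c1 (Nat.land a 3)) (c1 (Nat.shiftRight a 2)))
def c3 (a : Nat) : Nat := cond (Nat.beq a 0) 0 (Nat.add (c2 (Nat.land a 15)) (c2 (Nat.shiftRight a 4)))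
def c4 (a : Nat) : Nat := cond (Nat.beq a 0) 0 (Nat.add (c3 (Nat.land a 255)) (c3 (Nat.shiftRight a 8)))
def c5 (a : Nat) : Nat := cond (Nat.beq a 0) 0 (Nat.add (c4 (Nat.land a 65535)) (c4 (Nat.shiftRight a 16)))
/-- the number of the elements -/
def pc (a : Nat) : Nat := cond (Nat.beq a 0) 0
  (Nat.add (c5 (Nat.land a 4294967295)) (c5 (Nat.shiftRight a 32)))

/-- exchange the bits of the mask `m` with the bits `d` positions higher -/
def ds (m d q : Nat) : Nat := 
  Nat.xor (Nat.xor q (Nat.land (Nat.xor (Nat.shiftRight q d) q) m))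
    (Nat.shiftLeft (Nat.land (Nat.xor (Nat.shiftRight q d) q) m) d)

/-- the effect of the exchange of `(1,0)` and `(0,1)` -/
def r12 (q : Nat) : Nat :=
  ds 0x2222222222222222 1 (ds 0x00F000F000F000F0 4 (ds 0x00000000FFFF0000 16 q))
/-- the effect of the exchange of `(1,0)` and `(1,1)` -/
def r13 (q : Nat) : Nat :=
  ds 0x2222222222222222 2 (ds 0x00F000F000F000F0 8 (ds 0x00000000FFFF0000 32 q))
/-- the effect of the exchange of `(0,1)` and `(1,1)` -/
def r23 (q : Nat) : Nat :=
  ds 0x4444444444444444 1 (ds 0x0F000F000F000F00 4 (ds 0x0000FFFF00000000 16 q))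

/-- a local state of a rooted tree: labels of the root, labels of its children, labels used, labels
used twice, pairs of labels at one vertex, realized sums, number of odd vertices -/
structure T where
  L : Nat
  C : Nat
  u : Nat
  v : Nat
  pm : Nat
  q : Nat
  odd : Nat

/-- a local state of a vertex with some of its branches: `q0`, `q1` are the realized sums if the
values at the vertex add up to `0` and `1`; `odd` is the number of odd vertices in the branches,
`ne` the number of edges at the vertex. -/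
structure P where
  L : Nat
  C : Nat
  u : Nat
  v : Nat
  pm : Nat
  q0 : Nat
  q1 : Nat
  odd : Nat
  ne : Nat

/-- one more branch -/
def att (p : P) (t : T) : P where
  L := p.L
  C := Nat.lor p.C t.L
  u := Nat.lor p.u t.u
  v := Nat.lor (Nat.lor p.v t.v) (Nat.land p.u t.u)
  pm := Nat.lor p.pm t.pm
  q0 := (fun y => Nat.lor y (Nat.lor (r12 y) (r13 y))) (s6 0 t.q p.q1)
  q1 := s6 ((fun z => Nat.lor z (r23 z)) (s6 0 (r12 t.q) (r13 p.q1))) t.q p.q0
  odd := Nat.add p.odd t.odd
  ne := Nat.add p.ne 1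

/-- the conditions under which the branch can be added -/
def cmp (p : P) (t : T) : Bool :=
  and (and (Nat.beq (Nat.land t.L p.L) 0) (Nat.beq (Nat.land t.L p.C) 0))
    (and (and (Nat.beq (Nat.land t.C p.L) 0) (Nat.beq (Nat.land t.pm p.pm) 0))
      (or (Nat.ble (Nat.add (pc p.q1) (pc t.q)) 64)
        (Nat.beq (Nat.lor (Nat.lor p.v t.v) (Nat.land p.u t.u)) 0)))

/-- `z` are the vectors with coordinate zero; if the label is used twice all are allowed, if it is
used once those with coordinate nonzero -/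
def fac (z : Nat) (u v : Bool) : Nat := cond v full (cond u (Nat.xor full z) z)

/-- the vectors which have to be realized -/
def idl (z3 u v : Nat) : Nat :=
  Nat.land (Nat.land (fac 0x1111111111111111 (Nat.testBit u 0) (Nat.testBit v 0))
    (fac 0x000F000F000F000F (Nat.testBit u 1) (Nat.testBit v 1)))
    (Nat.land (fac 0x000000000000FFFF (Nat.testBit u 2) (Nat.testBit v 2))
      (fac z3 (Nat.testBit u 3) (Nat.testBit v 3)))

/-- vectors with sum zero and coordinate three zero -/
def z0 : Nat := 0x1248218448128421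
/-- vectors with sum `(1,0)` and coordinate three zero -/
def z1 : Nat := 0x2184124884214812

/-- inclusion -/
def sup (a b : Nat) : Bool := Nat.beq (Nat.land a b) a

/-- the state of the rooted tree with all the branches is in the table -/
def fnd (p : P) : List T → Bool
  | [] => false
  | t :: r => or (and (Nat.beq t.q p.q1) (and (and (Nat.beq t.L p.L) (Nat.beq t.C p.C))
      (and (and (Nat.beq t.u p.u) (Nat.beq t.v p.v)) (and (Nat.beq t.pm p.pm)
        (Nat.ble (Nat.add p.odd (Nat.sub 1 (Nat.mod p.ne 2))) t.odd))))) (fnd p r)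

/-- the nonzero vectors with sum zero and coordinate `j` zero -/
def Pm (j : Nat) : Nat := cond (Nat.beq j 0) 0x1111111111111110
  (cond (Nat.beq j 1) 0x000F000F000F000E (cond (Nat.beq j 2) 0x000000000000FFFE 0x1248218448128420))
/-- the three pairs without `j` -/
def tri (j : Nat) : Nat := cond (Nat.beq j 0) 2240
  (cond (Nat.beq j 1) 2060 (cond (Nat.beq j 2) 138 70))

/-- a small component -/
def kS (p : P) (od : Nat) : Bool := and (Nat.ble od 2) (Nat.ble 2 (pc p.pm))
/-- a component like the Petersen graph -/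
def kP (p : P) (od j : Nat) : Bool := and (and (Nat.ble od 7) (sup (tri j) p.pm))
  (and (sup (Pm j) p.q0) (Nat.beq (Nat.lor p.u (Nat.shiftLeft 1 j)) 15))
/-- the extra condition for a rich component -/
def kE (p : P) (od j : Nat) : Bool := or (not (Nat.beq (Nat.land p.pm (tri j)) 0))
  (or (Nat.ble od 6) (and (Nat.testBit p.v j) (Nat.beq (s6 0 (Pm j) p.q0) full)))
/-- a rich component -/
def kR (p : P) (od : Nat) : Bool := and (and (Nat.ble od 8) (Nat.ble 33 (pc p.q0)))
  (and (and (Nat.ble 2 (pc p.pm)) (Nat.beq p.u 15))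
    (and (and (kE p od 0) (kE p od 1)) (and (kE p od 2) (kE p od 3))))
/-- the three types of components -/
def cls (p : P) (od : Nat) : Bool :=
  or (kS p od) (or (or (or (kP p od 0) (kP p od 1)) (or (kP p od 2) (kP p od 3))) (kR p od))

/-- the check of a state: if it is the state of a rooted tree with at most 32 sums, then the tree is
reducible or in the table; if it is the state of a component, then the component is reducible or has
one of the three types -/
def okc (l : List T) (p : P) : Bool :=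
  and (or (Nat.ble p.ne 1) (or (Nat.ble 33 (pc p.q1))
      (or (and (not (Nat.beq p.v 0)) (sup (idl z1 p.u p.v) p.q1)) (fnd p l))))
    (or (Nat.ble p.ne 2) (or (and (not (Nat.beq p.v 0)) (sup (idl z0 p.u p.v) p.q0))
      (cls p (Nat.add p.odd (Nat.mod p.ne 2)))))

/-- all possible next branches among the first `n` members of the list -/
def lpn (f : P → List T → Bool) (p : P) : Nat → List T → Bool
  | 0, _ => true
  | _ + 1, [] => true
  | n + 1, t :: r => and (cond (cmp p t) (f (att p t) (t :: r)) true) (lpn f p n r)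

/-- no further branch can be added -/
def fat (p : P) : Bool := and (Nat.ble 63 (pc p.q1)) (not (Nat.beq p.v 0))

/-- the check of all states which arise from `p` by at most `n` more branches from the list -/
def chk (l0 : List T) (m : Nat) : Nat → P → List T → Bool
  | 0, _, _ => false
  | n + 1, p, l => and (okc l0 p) (or (fat p) (lpn (chk l0 m n) p m l))

end Pool.Agent.H16.FW
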