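import Pool.Agent.H16.FW.Hg

/-!
A set which realizes at least 28 vectors uses some hub twice (FW-LOW, helper35).
-/

set_option autoImplicit false

namespace Pool.Agent.H16.FW

open Finset Pool.Agent.TH362.TF Pool.Agent.TH362.TF.Four Q116.FF Pool.Agent.H16.FV

theorem low : S_LOW := by
  intro hSUM hSUPP hFEW V E _ _ _ s t S x hx hpar A v hA hv hN
  by_contra hcon
  have hcon' : ∀ i, cnt s t S x A i ≤ 1 := fun i => by
    by_contra h
    exact hcon ⟨i, by omega⟩
  classical
  have h1 := hFEW (1, 0) (univ.filter (fun p => Rz s t S x A v (1, 0) p)) (fun p hp => by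
    rw [mem_filter] at hp
    exact hSUM V E s t S x hx A v (1, 0) p hA hv hp.2) (fun i => by
    have h2 := hcon' i
    rcases Nat.lt_or_ge (cnt s t S x A i) 1 with h3 | h3
    · left
      intro p hp
      rw [mem_filter] at hp
      exact (hSUPP V E s t S x hx hpar A (pt v (1, 0)) p hA hp.2).1 i (by omega)
    · right
      intro p hp
      rw [mem_filter] at hp
      exact (hSUPP V E s t S x hx hpar A (pt v (1, 0)) p hA hp.2).2 i (by omega))
  have h4 : N s t S x A v ≤ 27 := by
    unfold N
    convert h1
  omega

end Pool.Agent.H16.FW
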