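import Pool.Agent.H16.FW.Stm

set_option autoImplicit false

namespace Pool.Agent.H16.FW

open Finset Pool.Agent.TH362.TF Pool.Agent.TH362.TF.Four Q116.FF Pool.Agent.H16.FV

theorem lpn_aux (f : P → List T → Bool) (p : P) : ∀ (l : List T) (n : ℕ), lpn f p n l = true →
    l.length ≤ n → ∀ (k : ℕ) (t : T), l[k]? = some t → cmp p t = true →
      f (att p t) (l.drop k) = true := by
  intro l
  induction l with
  | nil => intro n _ _ k t hk; simp at hk
  | cons a l ih =>
    intro n hn hl k t hk hc
    cases n with
    | zero => simp at hl
    | succ n =>
      have h : (cond (cmp p a) (f (att p a) (a :: l)) true && lpn f p n l) = true := hn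
      rw [Bool.and_eq_true] at h
      cases k with
      | zero =>
        simp only [List.getElem?_cons_zero, Option.some.injEq] at hk
        subst hk
        have h1 := h.1
        rw [hc] at h1
        exact h1
      | succ k =>
        simp only [List.getElem?_cons_succ] at hk
        simp only [List.drop_succ_cons]
        exact ih n h.2 (by simpa using hl) k t hk hc

theorem lpn_sound : S_LPN := by
  intro l0 m n p l h hl
  have h' : (okc l0 p && (fat p || lpn (chk l0 m n) p m l)) = true := h
  rw [Bool.and_eq_true, Bool.or_eq_true] at h'
  refine ⟨h'.1, fun hf k t hk hc => ?_⟩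
  rcases h'.2 with h2 | h2
  · rw [hf] at h2; exact absurd h2 (by decide)
  · exact lpn_aux _ p l m h2 hl k t hk hc

end Pool.Agent.H16.FW
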