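import Pool.Agent.H16.FW.NEM

/-!
More branches realize more vectors (stub FW-MON).
-/

set_option autoImplicit false

namespace Pool.Agent.H16.FW

open Finset Pool.Agent.TH362.TF Pool.Agent.TH362.TF.Four Q116.FF Pool.Agent.H16.FV

namespace MON

theorem g13_inj : Function.Injective g13 := by
  intro a b h
  revert h
  revert b
  revert a
  unfold g13
  decide

theorem inj (q : Fin 4 → F) :
    Function.Injective (fun p : Fin 4 → F => (fun i => g13 (p i)) + q) := by
  intro a b h
  funext i
  have := congrFun h i
  simp only [Pi.add_apply, add_left_inj] at this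
  exact g13_inj this

theorem inj' (q : Fin 4 → F) :
    Function.Injective (fun p : Fin 4 → F => q + (fun i => g13 (p i))) := by
  intro a b h
  funext i
  have := congrFun h i
  simp only [Pi.add_apply, add_right_inj] at this
  exact g13_inj this

variable {V E : Type} [Fintype V] [DecidableEq V] [DecidableEq E]

omit [Fintype V] [DecidableEq E] in
theorem N_le {s t : E → V} {S : Finset E} {x : Fin 4 → V} {A A' : Finset V} {v v' : V}
    (f : (Fin 4 → F) → (Fin 4 → F)) (hf : Function.Injective f)
    (h : ∀ p, Rz s t S x A v (1, 0) p → Rz s t S x A' v' (1, 0) (f p)) :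
    N s t S x A v ≤ N s t S x A' v' := by
  classical
  unfold N
  refine card_le_card_of_injOn f ?_ (hf.injOn)
  intro p hp
  rw [mem_coe, mem_filter] at hp ⊢
  exact ⟨mem_univ _, h p hp.2⟩

end MON

open MON NEM

theorem mon : S_MON := by
  intro hSTEP hB hSCL hFOR hD hSTP hNEM V E _ _ _ s t S x hg
  classical
  obtain ⟨n1, n2⟩ := hNEM hSTEP hB hSCL hFOR hD hSTP V E s t S x hg
  obtain ⟨f1, _, f3, _, _, _, _⟩ := hFOR V (Fo s t S x) hg.acy
  have e1 : g13 ((1, 0) : F) = (1, 1) := by decide
  have e2 : ((1, 1) : F) + (0, 1) = (1, 0) := by decide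
  have e3 : ((0, 1) : F) + (1, 1) = (1, 0) := by decide
  have e4 : ((0, 1) : F) ≠ 0 := by decide
  have e5 : ((1, 1) : F) ≠ 0 := by decide
  have one : ∀ v, ∀ W ⊆ nb' (Fo s t S x) v, ∀ y ∈ nb' (Fo s t S x) v, y ∉ W →
      (∀ i, x i ≠ v) →
      N s t S x (pa (Fo s t S x) v W) v ≤ N s t S x (pa (Fo s t S x) v (insert y W)) v := by
    intro v W hW y hy hyW hv
    obtain ⟨q, hq⟩ := n1 y v (mem_nb.1 hy).symm (0, 1) e4
    refine N_le _ (inj q) ?_
    intro p hp
    have h1 := (hSCL V E s t S x _ v (1, 0) p hp).2.1
    rw [e1] at h1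
    have := hSTP hSTEP hFOR V E s t S x hg v W y hv hW hy hyW (1, 1) (0, 1) _ q e4 h1 hq
    rw [e2] at this
    exact this
  constructor
  · intro v W hW W' hW' hv
    have key : ∀ D : Finset V, Disjoint W' D → W' ∪ D ⊆ nb' (Fo s t S x) v →
        N s t S x (pa (Fo s t S x) v W') v ≤ N s t S x (pa (Fo s t S x) v (W' ∪ D)) v := by
      intro D
      induction D using Finset.induction_on with
      | empty => intro _ _; rw [union_empty]
      | insert y D hy ih =>
        intro hd hs
        rw [disjoint_insert_right] at hd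
        rw [union_insert] at hs ⊢
        have hs' := (subset_insert _ _).trans hs
        refine (ih hd.2 hs').trans (one v _ hs' y (hs (mem_insert_self _ _)) ?_ hv)
        rw [mem_union]
        push Not
        exact ⟨hd.1, hy⟩
    have := key (W \ W') disjoint_sdiff (by rw [union_sdiff_of_subset hW']; exact hW)
    rwa [union_sdiff_of_subset hW'] at this
  · intro v u hvu y hy hyu
    have hyv := mem_nb.1 hy
    have hun : u ∈ nb' (Fo s t S x) v := mem_nb.2 hvu
    set W := (nb' (Fo s t S x) v \ {u}) \ {y} with hW
    have hW1 : W ⊆ nb' (Fo s t S x) v := sdiff_subset.trans sdiff_subset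
    have hyW : y ∉ W := by
      rw [hW, mem_sdiff]
      simp
    have hins : insert y W = nb' (Fo s t S x) v \ {u} := by
      rw [hW]
      ext w
      simp only [mem_insert, mem_sdiff, mem_singleton]
      constructor
      · rintro (rfl | h)
        · exact ⟨hy, hyu⟩
        · exact h.1
      · intro h
        by_cases hw : w = y
        · exact Or.inl hw
        · exact Or.inr ⟨h, hw⟩
    have hne : W.Nonempty ∨ ∃ i, La s t S x v i := by
      have h3 := deg3 hD hg hvu
      by_contra hcon
      push Not at hcon
      obtain ⟨g1, g2⟩ := hcon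
      have g3 : Nat.card {i // La s t S x v i} = 0 := by
        rw [Nat.card_eq_zero]
        left
        exact ⟨fun i => g2 i.1 i.2⟩
      have g4 : W.card = 0 := by
        rw [card_eq_zero]
        rcases W.eq_empty_or_nonempty with h | h
        · exact h
        · exact absurd h (by simpa using g1)
      have g5 := card_le_card_sdiff_add_card (s := nb' (Fo s t S x) v) (t := {u})
      have g6 : (nb' (Fo s t S x) v \ {u}).card ≤ W.card + ({y} : Finset V).card :=
        card_le_card_sdiff_add_card
      rw [card_singleton] at g5 g6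
      omega
    obtain ⟨q, hq⟩ := n2 v W hW1 hvu.2.1 hne (0, 1) e4
    rw [f3 v u hvu, ← hins]
    refine N_le _ (inj' q) ?_
    intro p hp
    have h1 := (hSCL V E s t S x _ y (1, 0) p hp).2.1
    rw [e1] at h1
    have := hSTP hSTEP hFOR V E s t S x hg v W y hvu.2.1 hW1 hy hyW (0, 1) (1, 1) q _ e5 hq h1
    rw [e3] at this
    exact this

end Pool.Agent.H16.FW
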