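import Pool.Agent.H16.FW.K35

/-!
Minimal contractions have the properties `Hg` (FW-MN, helper35).
-/

set_option autoImplicit false

namespace Pool.Agent.H16.FW

open Finset Pool.Agent.TH362.TF Pool.Agent.TH362.TF.Four Q116.FF Pool.Agent.H16.FV K35

theorem mn_sound : S_MN := by
  intro hRED hACY V E _ _ _ s t S f x hN1 hMn hx hFb
  refine ⟨hx, ?_, ?_, ?_, hACY V E _ _ S x hFb, ?_, ?_⟩
  · intro a b e e' hab he he' k1 k2
    exact hMn.par hab he he' k1 k2
  · intro a b c hab hbc hca e1 h1 e2 h2 e3 h3 k1 k2 k3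
    exact hMn.tri hab hbc hca h1 h2 h3 k1 k2 k3
  · intro a b c d hab hbc hcd hda hac hbd e1 h1 e2 h2 e3 h3 e4 h4 k1 k2 k3 k4
    exact hMn.quad hab hbc hcd hda hac hbd h1 h2 h3 h4 k1 k2 k3 k4
  · intro v hv
    have h0 := card_pos.2 hv
    have h1 : (cut (fun e => f (s e)) (fun e => f (t e)) S (fun u => decide (u = v))).card ≠ 1 :=
      hN1 (fun u => decide (f u = v))
    have h2 := hMn.deg2 v
    omega
  · intro A v hA hv hR1 hR2 hre ⟨i, hi⟩ hCT
    classical
    have hvT : v ∈ cl (fun e => f (s e)) (fun e => f (t e)) S x A :=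
      mem_union_left _ hv
    have hiT : x i ∈ cl (fun e => f (s e)) (fun e => f (t e)) S x A := by
      unfold cl
      rw [mem_union, mem_image]
      exact Or.inr ⟨i, by simpa using hi, rfl⟩
    have hi2 : 2 ≤ (A.filter (fun a => La (fun e => f (s e)) (fun e => f (t e)) S x a i)).card := by
      unfold cnt at hi
      convert hi
    obtain ⟨a, ha⟩ := card_pos.1 (lt_of_lt_of_le (by norm_num) hi2)
    rw [mem_filter] at ha
    obtain ⟨haA, e, he, k⟩ := ha
    refine hMn.no (a := v) (T := cl (fun e => f (s e)) (fun e => f (t e)) S x A) hvT hCT ?_ he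
      (x := a) (y := x i) ?_ (mem_union_left _ haA) hiT k ?_
    · exact fb_meet hFb (le_trans card_image_le (by simp)) hvT
        ⟨x i, mem_inter.2 ⟨hiT, mem_image_of_mem _ (mem_univ i)⟩⟩
    · intro h; exact hA i (h ▸ haA)
    · exact hRED V E _ _ S x hx (fun a b e e' hab he he' k1 k2 => hMn.par hab he he' k1 k2) A v hA
        hv hR1 hR2 hre v hvT

end Pool.Agent.H16.FW
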