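import Pool.Agent.H16.FW.Fit

/-!
# FW: bit masks of labels and of pairs of labels (helper86)
-/

set_option autoImplicit false

namespace Pool.Agent.H16.FW

open Finset

theorem BM_of {m : ℕ} {Q : Fin 4 → Prop} (h0 : m < 16)
    (h1 : ∀ i : Fin 4, m.testBit i = true ↔ Q i) : BM m Q := by
  intro k
  by_cases hk : k < 4
  · constructor
    · intro h
      exact ⟨⟨k, hk⟩, rfl, (h1 ⟨k, hk⟩).1 h⟩
    · rintro ⟨i, rfl, h⟩
      exact (h1 i).2 h
  · have h2 : m < 2 ^ k := lt_of_lt_of_le h0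
      (le_trans (by norm_num : 16 ≤ 2 ^ 4) (Nat.pow_le_pow_right (by norm_num) (by omega)))
    rw [Nat.testBit_lt_two_pow h2]
    constructor
    · intro h
      exact absurd h (by simp)
    · rintro ⟨i, hi, _⟩
      omega

theorem BM.iff' {m : ℕ} {Q : Fin 4 → Prop} (h : BM m Q) (i : Fin 4) :
    m.testBit i = true ↔ Q i := by
  rw [h]
  constructor
  · rintro ⟨j, hj, hq⟩
    have : j = i := Fin.ext hj
    exact this ▸ hq
  · intro hq
    exact ⟨i, rfl, hq⟩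

theorem BM.lt {m : ℕ} {Q : Fin 4 → Prop} (h : BM m Q) : m < 16 := by
  have : m < 2 ^ 4 := by
    refine Nat.lt_pow_two_of_testBit m fun k hk => ?_
    by_contra hc
    obtain ⟨i, hi, _⟩ := (h k).1 (by simpa using hc)
    omega
  simpa using this

theorem BM.congr {m : ℕ} {Q Q' : Fin 4 → Prop} (h : BM m Q) (hq : ∀ i, Q i ↔ Q' i) : BM m Q' := by
  have : Q = Q' := funext fun i => propext (hq i)
  exact this ▸ h

theorem BM.lor {m m' : ℕ} {Q Q' : Fin 4 → Prop} (h : BM m Q) (h' : BM m' Q') :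
    BM (Nat.lor m m') (fun i => Q i ∨ Q' i) := by
  intro k
  change (m ||| m').testBit k = true ↔ _
  rw [Nat.testBit_or, Bool.or_eq_true, h k, h' k]
  constructor
  · rintro (⟨i, hi, hq⟩ | ⟨i, hi, hq⟩)
    · exact ⟨i, hi, Or.inl hq⟩
    · exact ⟨i, hi, Or.inr hq⟩
  · rintro ⟨i, hi, hq | hq⟩
    · exact Or.inl ⟨i, hi, hq⟩
    · exact Or.inr ⟨i, hi, hq⟩

theorem BM.land {m m' : ℕ} {Q Q' : Fin 4 → Prop} (h : BM m Q) (h' : BM m' Q') :
    BM (Nat.land m m') (fun i => Q i ∧ Q' i) := by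
  intro k
  change (m &&& m').testBit k = true ↔ _
  rw [Nat.testBit_and, Bool.and_eq_true, h k, h' k]
  constructor
  · rintro ⟨⟨i, hi, hq⟩, ⟨j, hj, hq'⟩⟩
    have : j = i := Fin.ext (hj.trans hi.symm)
    exact ⟨i, hi, hq, this ▸ hq'⟩
  · rintro ⟨i, hi, hq, hq'⟩
    exact ⟨⟨i, hi, hq⟩, ⟨i, hi, hq'⟩⟩

theorem BM.eq_zero {m : ℕ} {Q : Fin 4 → Prop} (h : BM m Q) : m = 0 ↔ ∀ i, ¬ Q i := by
  constructor
  · intro hm i hq
    have := (h.iff' i).2 hq
    rw [hm] at this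
    simp at this
  · intro hq
    refine Nat.eq_of_testBit_eq fun k => ?_
    rw [Nat.zero_testBit]
    by_contra hc
    obtain ⟨i, _, hi⟩ := (h k).1 (by simpa using hc)
    exact hq i hi

theorem BM_zero : BM 0 (fun _ => False) := by
  intro k
  simp

theorem BP_of {m : ℕ} {Q : Fin 4 → Fin 4 → Prop} (h0 : m < 65536)
    (h1 : ∀ i j : Fin 4, i < j → (m.testBit (4 * (i : ℕ) + j) = true ↔ Q i j))
    (h2 : ∀ i j : Fin 4, ¬ i < j → m.testBit (4 * (i : ℕ) + j) = false) : BP m Q := by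
  intro k
  by_cases hk : k < 16
  · have hi : k / 4 < 4 := by omega
    have hj : k % 4 < 4 := by omega
    have hk' : 4 * (k / 4) + k % 4 = k := by omega
    by_cases hij : (⟨k / 4, hi⟩ : Fin 4) < ⟨k % 4, hj⟩
    · have h3 := h1 ⟨k / 4, hi⟩ ⟨k % 4, hj⟩ hij
      rw [show 4 * ((⟨k / 4, hi⟩ : Fin 4) : ℕ) + ((⟨k % 4, hj⟩ : Fin 4) : ℕ) = k from hk'] at h3
      rw [h3]
      constructor
      · intro h
        exact ⟨_, _, hij, hk', h⟩
      · rintro ⟨i, j, _, hijk, h⟩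
        have e1 : (⟨k / 4, hi⟩ : Fin 4) = i := Fin.ext (by simp; omega)
        have e2 : (⟨k % 4, hj⟩ : Fin 4) = j := Fin.ext (by simp; omega)
        rw [e1, e2]
        exact h
    · have h3 := h2 ⟨k / 4, hi⟩ ⟨k % 4, hj⟩ hij
      rw [show 4 * ((⟨k / 4, hi⟩ : Fin 4) : ℕ) + ((⟨k % 4, hj⟩ : Fin 4) : ℕ) = k from hk'] at h3
      rw [h3]
      constructor
      · intro h
        exact absurd h (by simp)
      · rintro ⟨i, j, hlt, hijk, _⟩
        exfalso
        apply hij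
        have e1 : (⟨k / 4, hi⟩ : Fin 4) = i := Fin.ext (by simp; omega)
        have e2 : (⟨k % 4, hj⟩ : Fin 4) = j := Fin.ext (by simp; omega)
        rw [e1, e2]
        exact hlt
  · have h3 : m < 2 ^ k := lt_of_lt_of_le h0
      (le_trans (by norm_num : 65536 ≤ 2 ^ 16) (Nat.pow_le_pow_right (by norm_num) (by omega)))
    rw [Nat.testBit_lt_two_pow h3]
    constructor
    · intro h
      exact absurd h (by simp)
    · rintro ⟨i, j, _, hi, _⟩
      omega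

theorem BP.iff' {m : ℕ} {Q : Fin 4 → Fin 4 → Prop} (h : BP m Q) {i j : Fin 4} (hij : i < j) :
    m.testBit (4 * (i : ℕ) + j) = true ↔ Q i j := by
  rw [h]
  constructor
  · rintro ⟨i', j', _, he, hq⟩
    have e1 : i' = i := Fin.ext (by omega)
    have e2 : j' = j := Fin.ext (by omega)
    exact e1 ▸ e2 ▸ hq
  · intro hq
    exact ⟨i, j, hij, rfl, hq⟩

theorem BP.lor {m m' : ℕ} {Q Q' : Fin 4 → Fin 4 → Prop} (h : BP m Q) (h' : BP m' Q') :
    BP (Nat.lor m m') (fun i j => Q i j ∨ Q' i j) := by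
  intro k
  change (m ||| m').testBit k = true ↔ _
  rw [Nat.testBit_or, Bool.or_eq_true, h k, h' k]
  constructor
  · rintro (⟨i, j, hij, hi, hq⟩ | ⟨i, j, hij, hi, hq⟩)
    · exact ⟨i, j, hij, hi, Or.inl hq⟩
    · exact ⟨i, j, hij, hi, Or.inr hq⟩
  · rintro ⟨i, j, hij, hi, hq | hq⟩
    · exact Or.inl ⟨i, j, hij, hi, hq⟩
    · exact Or.inr ⟨i, j, hij, hi, hq⟩

theorem BP.land {m m' : ℕ} {Q Q' : Fin 4 → Fin 4 → Prop} (h : BP m Q) (h' : BP m' Q') :
    BP (Nat.land m m') (fun i j => Q i j ∧ Q' i j) := by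
  intro k
  change (m &&& m').testBit k = true ↔ _
  rw [Nat.testBit_and, Bool.and_eq_true, h k, h' k]
  constructor
  · rintro ⟨⟨i, j, hij, hi, hq⟩, ⟨i', j', _, hi', hq'⟩⟩
    have e1 : i' = i := Fin.ext (by omega)
    have e2 : j' = j := Fin.ext (by omega)
    exact ⟨i, j, hij, hi, hq, e1 ▸ e2 ▸ hq'⟩
  · rintro ⟨i, j, hij, hi, hq, hq'⟩
    exact ⟨⟨i, j, hij, hi, hq⟩, ⟨i, j, hij, hi, hq'⟩⟩

theorem BP.congr {m : ℕ} {Q Q' : Fin 4 → Fin 4 → Prop} (h : BP m Q)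
    (hq : ∀ i j, Q i j ↔ Q' i j) : BP m Q' := by
  have : Q = Q' := funext fun i => funext fun j => propext (hq i j)
  exact this ▸ h

theorem BP.eq_zero {m : ℕ} {Q : Fin 4 → Fin 4 → Prop} (h : BP m Q) :
    m = 0 ↔ ∀ i j, i < j → ¬ Q i j := by
  constructor
  · intro hm i j hij hq
    have := (h.iff' hij).2 hq
    rw [hm] at this
    simp at this
  · intro hq
    refine Nat.eq_of_testBit_eq fun k => ?_
    rw [Nat.zero_testBit]
    by_contra hc
    obtain ⟨i, j, hij, _, hi⟩ := (h k).1 (by simpa using hc)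
    exact hq i j hij hi

theorem BP.lt {m : ℕ} {Q : Fin 4 → Fin 4 → Prop} (h : BP m Q) : m < 65536 := by
  have : m < 2 ^ 16 := by
    refine Nat.lt_pow_two_of_testBit m fun k hk => ?_
    by_contra hc
    obtain ⟨i, j, _, hi, _⟩ := (h k).1 (by simpa using hc)
    omega
  simpa using this

end Pool.Agent.H16.FW
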