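import Pool.Agent.H16.FW.Hg

/-!
Branches realize vectors (stubs FW-NEM and FW-MON).
-/

set_option autoImplicit false

namespace Pool.Agent.H16.FW

open Finset Pool.Agent.TH362.TF Pool.Agent.TH362.TF.Four Q116.FF Pool.Agent.H16.FV

namespace NEM

theorem two (c : F) (hc : c ≠ 0) : ∃ a : F, a ≠ 0 ∧ c + a ≠ 0 := by
  revert hc; revert c; decide

theorem cc (c a : F) : (c + a) + a = c := by
  revert a; revert c; decide

variable {V E : Type} [Fintype V] [DecidableEq V] [DecidableEq E]

/-- the label values at a single vertex -/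
theorem base (hB : S_BASE) {s t : E → V} {S : Finset E} {x : Fin 4 → V}
    (hx : Function.Injective x) (hP : Par s t S) (v : V) (hv : ∀ i, x i ≠ v) :
    ((∃ i, La s t S x v i) → ∀ c : F, c ≠ 0 → ∃ p, Rz s t S x {v} v c p) ∧
    ((¬ ∃ i, La s t S x v i) → Rz s t S x {v} v 0 0) := by
  classical
  constructor
  · rintro ⟨i₀, hi₀⟩ c hc
    -- values on any set of labels containing `i₀`
    have key : ∀ L : Finset (Fin 4), L.Nonempty → ∀ c : F, c ≠ 0 →
        ∃ p : Fin 4 → F, (∀ i, i ∈ L ↔ p i ≠ 0) ∧ ∑ i, p i = c := by
      intro L hL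
      induction hL using Finset.Nonempty.cons_induction with
      | singleton a =>
        intro c hc
        refine ⟨fun i => if i = a then c else 0, ?_, ?_⟩
        · intro i
          rw [mem_singleton]
          by_cases h : i = a
          · simp [h, hc]
          · simp [h]
        · simp
      | cons a L ha hL ih =>
        intro c hc
        obtain ⟨b, hb, hcb⟩ := two c hc
        obtain ⟨p, h1, h2⟩ := ih (c + b) hcb
        have hpa : p a = 0 := by
          by_contra h
          exact ha ((h1 a).2 h)
        refine ⟨fun i => if i = a then b else p i, ?_, ?_⟩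
        · intro i
          rw [mem_cons]
          by_cases h : i = a
          · simp [h, hb]
          · simp [h, h1]
        · have h3 : ∀ i, (if i = a then b else p i) = p i + (if i = a then b else 0) := by
            intro i
            by_cases h : i = a
            · subst h; simp [hpa]
            · simp [h]
          rw [sum_congr rfl fun i _ => h3 i, sum_add_distrib, h2, sum_ite_eq' univ a,
            if_pos (mem_univ _), cc]
    obtain ⟨p, h1, h2⟩ := key (univ.filter (fun i => La s t S x v i))
      ⟨i₀, by simp [hi₀]⟩ c hc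
    refine ⟨p, hB V E s t S x hx hP v c p hv ?_ h2⟩
    intro i
    rw [← h1 i, mem_filter]
    simp
  · intro h
    refine hB V E s t S x hx hP v 0 0 hv ?_ (by simp)
    intro i
    constructor
    · intro h1
      exact absurd ⟨i, h1⟩ h
    · intro h1
      exact absurd rfl h1

theorem pa_empty (G : SimpleGraph V) (v : V) : pa G v ∅ = {v} := by
  unfold pa
  simp

theorem deg3 (hD : S_DEG) {s t : E → V} {S : Finset E} {x : Fin 4 → V} (hg : Hg s t S x)
    {v u : V} (h : (Fo s t S x).Adj v u) :
    3 ≤ Nat.card {i // La s t S x v i} + (nb' (Fo s t S x) v).card := by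
  classical
  have h1 := hD V E s t S x hg.inj hg.par v h.2.1
  have h2 : Nat.card {w // (Fo s t S x).Adj v w} = (nb' (Fo s t S x) v).card := by
    rw [Nat.card_eq_fintype_card, Fintype.card_subtype]
    unfold nb'
    rfl
  rw [h2] at h1
  have h3 : 0 < (nb' (Fo s t S x) v).card := by
    apply card_pos.2
    refine ⟨u, ?_⟩
    unfold nb'
    rw [mem_filter]
    exact ⟨mem_univ _, h⟩
  rw [← h1]
  apply hg.deg
  rw [← card_pos]
  omega

omit [DecidableEq V] in
theorem mem_nb {G : SimpleGraph V} {v u : V} : u ∈ nb' G v ↔ G.Adj v u := by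
  classical
  unfold nb'
  rw [mem_filter]
  simp

theorem ind (hB : S_BASE) (hSTEP : S_STEP) (hFOR : S_FOR) (hSTP : S_STP) {s t : E → V}
    {S : Finset E} {x : Fin 4 → V} (hg : Hg s t S x) (v : V) (hv : ∀ i, x i ≠ v)
    (W : Finset V) (hW : W ⊆ nb' (Fo s t S x) v)
    (hq : ∀ y ∈ W, ∀ a : F, a ≠ 0 → ∃ q, Rz s t S x (sd (Fo s t S x) y v) y a q) :
    ((W.Nonempty ∨ ∃ i, La s t S x v i) → ∀ c : F, c ≠ 0 →
      ∃ p, Rz s t S x (pa (Fo s t S x) v W) v c p) := by
  classical
  induction W using Finset.induction_on with
  | empty =>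
    intro h c hc
    rw [pa_empty]
    rcases h with h | h
    · exact absurd h (by simp)
    · exact (base hB hg.inj hg.par v hv).1 h c hc
  | insert y W hy ih =>
    intro _ c hc
    have hW' : W ⊆ nb' (Fo s t S x) v := (subset_insert _ _).trans hW
    have hyn : y ∈ nb' (Fo s t S x) v := hW (mem_insert_self _ _)
    by_cases h : W.Nonempty ∨ ∃ i, La s t S x v i
    · obtain ⟨a, ha, hca⟩ := two c hc
      obtain ⟨p, hp⟩ := ih hW' (fun y hy => hq y (mem_insert_of_mem hy)) h (c + a) hca
      obtain ⟨q, hq'⟩ := hq y (mem_insert_self _ _) a ha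
      have := hSTP hSTEP hFOR V E s t S x hg v W y hv hW' hyn hy (c + a) a p q ha hp hq'
      rw [cc] at this
      exact ⟨_, this⟩
    · push Not at h
      obtain ⟨h1, h2⟩ := h
      have hWe : W = ∅ := by
        rcases W.eq_empty_or_nonempty with h | h
        · exact h
        · exact absurd h (by simpa using h1)
      subst hWe
      have hp := (base hB hg.inj hg.par v hv).2 (by push Not; exact h2)
      rw [← pa_empty (Fo s t S x) v] at hp
      obtain ⟨q, hq'⟩ := hq y (mem_insert_self _ _) c hc
      have := hSTP hSTEP hFOR V E s t S x hg v ∅ y hv hW' hyn hy 0 c 0 q hc hp hq'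
      rw [zero_add] at this
      exact ⟨_, this⟩

end NEM

open NEM

theorem nem : S_NEM := by
  intro hSTEP hB _ hFOR hD hSTP V E _ _ _ s t S x hg
  classical
  obtain ⟨f1, _, f3, _, _, _, _⟩ := hFOR V (Fo s t S x) hg.acy
  have h1 : ∀ (n : ℕ) (v u : V), (sd (Fo s t S x) v u).card = n → (Fo s t S x).Adj v u →
      ∀ c : F, c ≠ 0 → ∃ p, Rz s t S x (sd (Fo s t S x) v u) v c p := by
    intro n
    induction n using Nat.strong_induction_on with
    | _ n ih =>
      intro v u hn hvu c hc
      rw [f3 v u hvu]
      refine ind hB hSTEP hFOR hSTP hg v hvu.2.1 _ sdiff_subset ?_ ?_ c hc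
      · intro y hy a ha
        have hy' : (Fo s t S x).Adj v y := mem_nb.1 (mem_sdiff.1 hy).1
        refine ih _ ?_ y v rfl hy'.symm a ha
        rw [← hn]
        apply card_lt_card
        rw [Finset.ssubset_iff_of_subset]
        · exact ⟨v, (f1 v u hvu).1, (f1 y v hy'.symm).2⟩
        · rw [f3 v u hvu]
          unfold pa
          intro w hw
          rw [mem_insert]
          right
          rw [mem_biUnion]
          exact ⟨y, hy, hw⟩
      · have h3 := deg3 hD hg hvu
        by_contra hcon
        push Not at hcon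
        obtain ⟨g1, g2⟩ := hcon
        have g3 : Nat.card {i // La s t S x v i} = 0 := by
          rw [Nat.card_eq_zero]
          left
          exact ⟨fun i => g2 i.1 i.2⟩
        have g4 : (nb' (Fo s t S x) v \ {u}).card = 0 := by
          rw [card_eq_zero]
          rcases (nb' (Fo s t S x) v \ {u}).eq_empty_or_nonempty with h | h
          · exact h
          · exact absurd h (by simpa using g1)
        have g5 := card_le_card_sdiff_add_card (s := nb' (Fo s t S x) v) (t := {u})
        rw [card_singleton] at g5
        omega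
  refine ⟨fun v u h c hc => h1 _ v u rfl h c hc, ?_⟩
  intro v W hW hv h c hc
  refine ind hB hSTEP hFOR hSTP hg v hv W hW ?_ h c hc
  intro y hy a ha
  exact h1 _ y v rfl (mem_nb.1 (hW hy)).symm a ha

end Pool.Agent.H16.FW
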