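import Pool.Agent.H16.FW.PIG

set_option autoImplicit false

namespace Pool.Agent.H16.FW

open Finset Pool.Agent.TH362.TF Pool.Agent.TH362.TF.Four Q116.FF Pool.Agent.H16.FV

/-- the element with a given code -/
def dc (n : ℕ) : F := ((n : ZMod 2), ((n / 2 : ℕ) : ZMod 2))

theorem cd_dc : ∀ n < 4, cd (dc n) = n := by decide
theorem cd_lt : ∀ a : F, cd a < 4 := by decide
theorem cd_inj : ∀ a b : F, cd a = cd b → a = b := by decide

theorem code_lt (p : Fin 4 → F) : code p < 64 := by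
  have h0 := cd_lt (p 0)
  have h1 := cd_lt (p 1)
  have h2 := cd_lt (p 2)
  unfold code
  omega

theorem code_inj {p q : Fin 4 → F} (h : code p = code q) : p 0 = q 0 ∧ p 1 = q 1 ∧ p 2 = q 2 := by
  have h0 := cd_lt (p 0)
  have h1 := cd_lt (p 1)
  have h2 := cd_lt (p 2)
  have k0 := cd_lt (q 0)
  have k1 := cd_lt (q 1)
  have k2 := cd_lt (q 2)
  unfold code at h
  exact ⟨cd_inj _ _ (by omega), cd_inj _ _ (by omega), cd_inj _ _ (by omega)⟩

/-- the vector with given code and sum -/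
def vec (c : F) (n : ℕ) : Fin 4 → F :=
  ![dc (n % 4), dc (n / 4 % 4), dc (n / 16 % 4), c + (dc (n % 4) + dc (n / 4 % 4) + dc (n / 16 % 4))]

theorem vec_sum (c : F) (n : ℕ) : ∑ i, vec c n i = c := by
  rw [Fin.sum_univ_four]
  show dc (n % 4) + dc (n / 4 % 4) + dc (n / 16 % 4) +
    (c + (dc (n % 4) + dc (n / 4 % 4) + dc (n / 16 % 4))) = c
  generalize dc (n % 4) + dc (n / 4 % 4) + dc (n / 16 % 4) = z
  rw [add_comm c z, ← add_assoc, F_add_self, zero_add]

theorem vec_code (c : F) (n : ℕ) (hn : n < 64) : code (vec c n) = n := by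
  show cd (dc (n % 4)) + 4 * cd (dc (n / 4 % 4)) + 16 * cd (dc (n / 16 % 4)) = n
  rw [cd_dc _ (by omega), cd_dc _ (by omega), cd_dc _ (by omega)]
  omega

theorem num : S_NUM := by
  intro hpc c q hq
  rw [hpc q hq]
  apply card_bij (fun p _ => code p)
  · intro p hp
    rw [mem_filter] at hp
    rw [mem_filter, mem_range]
    exact ⟨code_lt p, hp.2.2⟩
  · intro p hp p' hp' h
    rw [mem_filter] at hp hp'
    obtain ⟨h0, h1, h2⟩ := code_inj h
    exact inj3 hp.2.1 hp'.2.1 h0 h1 h2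
  · intro n hn
    rw [mem_filter, mem_range] at hn
    refine ⟨vec c n, ?_, vec_code c n hn.1⟩
    rw [mem_filter]
    exact ⟨mem_univ _, vec_sum c n, by rw [vec_code c n hn.1]; exact hn.2⟩

end Pool.Agent.H16.FW
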