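import Pool.Agent.H16.FW.SS

set_option autoImplicit false

namespace Pool.Agent.H16.FW

open Finset Pool.Agent.TH362.TF Pool.Agent.TH362.TF.Four Q116.FF Pool.Agent.H16.FV

/-- number of bits below `n` -/
def nbit (n a : ℕ) : ℕ := ((range n).filter (fun i => a.testBit i = true)).card

theorem nbit_split (n m a : ℕ) (hm : ∀ i < n, m.testBit i = true) :
    nbit (n + n) a = nbit n (Nat.land a m) + nbit n (Nat.shiftRight a n) := by
  unfold nbit
  rw [card_filter, card_filter, card_filter, sum_range_add]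
  congr 1
  · apply sum_congr rfl
    intro i hi
    rw [land_bit, hm i (mem_range.1 hi), Bool.and_true]
  · apply sum_congr rfl
    intro i hi
    rw [shr_bit]

theorem nbit_zero (n : ℕ) : nbit n 0 = 0 := by
  unfold nbit; simp

theorem c_step (n m : ℕ) (f : ℕ → ℕ) (hm : ∀ i < n, m.testBit i = true) (hm' : m < 2 ^ n)
    (hf : ∀ a < 2 ^ n, f a = nbit n a) (a : ℕ) (ha : a < 2 ^ (n + n)) :
    cond (Nat.beq a 0) 0 (Nat.add (f (Nat.land a m)) (f (Nat.shiftRight a n))) =
      nbit (n + n) a := by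
  cases h0 : Nat.beq a 0
  · rw [cond_false, nbit_split n m a hm]
    have hs : Nat.shiftRight a n < 2 ^ n := by
      have : a >>> n < 2 ^ n := by
        rw [Nat.shiftRight_eq_div_pow]
        apply Nat.div_lt_of_lt_mul
        rwa [← pow_add]
      exact this
    have hl : Nat.land a m < 2 ^ n :=
      lt_of_le_of_lt (show a &&& m ≤ m from Nat.and_le_right) hm'
    rw [hf _ hs, hf _ hl]
    rfl
  · rw [cond_true, Nat.eq_of_beq_eq_true h0, nbit_zero]

theorem id_bit (a : ℕ) (ha : a < 2 ^ 1) : (fun x : ℕ => x) a = nbit 1 a := by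
  have : a = 0 ∨ a = 1 := by omega
  rcases this with rfl | rfl <;> decide

theorem c1_bit (a : ℕ) (ha : a < 2 ^ 2) : c1 a = nbit 2 a :=
  c_step 1 1 (fun x => x) (by decide) (by norm_num) id_bit a ha
theorem c2_bit (a : ℕ) (ha : a < 2 ^ 4) : c2 a = nbit 4 a :=
  c_step 2 3 c1 (by decide) (by norm_num) c1_bit a ha
theorem c3_bit (a : ℕ) (ha : a < 2 ^ 8) : c3 a = nbit 8 a :=
  c_step 4 15 c2 (by decide) (by norm_num) c2_bit a ha
theorem c4_bit (a : ℕ) (ha : a < 2 ^ 16) : c4 a = nbit 16 a :=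
  c_step 8 255 c3 (by decide) (by norm_num) c3_bit a ha
theorem c5_bit (a : ℕ) (ha : a < 2 ^ 32) : c5 a = nbit 32 a :=
  c_step 16 65535 c4 (by decide) (by norm_num) c4_bit a ha

theorem pcs : S_PC := fun a ha =>
  c_step 32 4294967295 c5 (by decide) (by norm_num) c5_bit a ha

end Pool.Agent.H16.FW
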