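import Pool.Agent.H16.FW.Stm

set_option autoImplicit false

namespace Pool.Agent.H16.FW

open Finset Pool.Agent.TH362.TF Pool.Agent.TH362.TF.Four Q116.FF Pool.Agent.H16.FV

theorem F_add_self (a : F) : a + a = 0 := by
  revert a; decide

theorem inj3 {c : F} {p q : Fin 4 → F} (hp : ∑ i, p i = c) (hq : ∑ i, q i = c)
    (h0 : p 0 = q 0) (h1 : p 1 = q 1) (h2 : p 2 = q 2) : p = q := by
  rw [Fin.sum_univ_four] at hp hq
  have h3 : p 3 = q 3 := by
    have : p 0 + p 1 + p 2 + p 3 = p 0 + p 1 + p 2 + q 3 := by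
      rw [hp, h0, h1, h2, hq]
    exact add_left_cancel this
  funext i
  fin_cases i <;> assumption

theorem card_sum_le (c : F) (X : Finset (Fin 4 → F)) (hX : ∀ p ∈ X, ∑ i, p i = c) :
    X.card ≤ 64 := by
  have h : (X.image (fun p : Fin 4 → F => (p 0, p 1, p 2))).card = X.card := by
    apply card_image_of_injOn
    intro p hp q hq h
    simp only [Prod.mk.injEq] at h
    exact inj3 (hX p hp) (hX q hq) h.1 h.2.1 h.2.2
  rw [← h]
  refine (card_le_univ _).trans ?_
  decide

theorem pig : S_PIG := by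
  intro c d X Y hX hY hc r hr
  have hYi : (Y.image (fun q : Fin 4 → F => r + q)).card = Y.card :=
    card_image_of_injective _ (add_right_injective r)
  have hd : ¬ Disjoint X (Y.image (fun q : Fin 4 → F => r + q)) := by
    intro hd
    have h1 : (X ∪ Y.image (fun q : Fin 4 → F => r + q)).card ≤ 64 := by
      apply card_sum_le c
      intro p hp
      rw [mem_union, mem_image] at hp
      rcases hp with hp | ⟨q, hq, rfl⟩
      · exact hX p hp
      · simp only [Pi.add_apply, sum_add_distrib, hr, hY q hq, add_assoc, F_add_self, add_zero]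
    rw [card_union_of_disjoint hd, hYi] at h1
    omega
  rw [not_disjoint_iff] at hd
  obtain ⟨p, hp, hp'⟩ := hd
  rw [mem_image] at hp'
  obtain ⟨q, hq, rfl⟩ := hp'
  refine ⟨_, hp, q, hq, ?_⟩
  funext i
  simp only [Pi.add_apply, add_assoc, F_add_self, add_zero]

end Pool.Agent.H16.FW
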