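import Pool.Agent.H16.FW.Shp

/-!
FW-PNZ: a graph with a Petersen quotient has no nowhere-zero flow.
-/

set_option autoImplicit false

namespace Pool.Agent.H16.FW

open Finset Pool.Agent.TH362 Pool.Agent.TH362.TF Pool.Agent.TH362.TF.Four Q116.FF
  Pool.Agent.H16.FV

theorem pnz : S_PNZ := by
  intro V E _ _ _ _ s t hP hN
  obtain ⟨κ, hκ⟩ := hP
  obtain ⟨φ, hφ0, hφc⟩ := hN
  obtain ⟨eps, heps⟩ := Bond.eps_exists hκ
  refine Bond.petersen' (fun j => φ (eps j)) (fun j => hφ0 _ (Finset.mem_univ _)) (fun k => ?_)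
  have h1 := flow_cut (s := s) (t := t) (S := univ) (φ := φ) (fun v => decide (κ v = k)) fun v _ => hφc v
  rw [Bond.cut_eq hκ heps k, Finset.sum_image (fun a _ b _ hab => Bond.eps_inj heps hab)] at h1
  exact h1

end Pool.Agent.H16.FW
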