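import Pool.Agent.H16.FW.Stm
import Pool.Agent.H16.FV.L.Lift

set_option autoImplicit false

namespace Pool.Agent.H16.FW

open Finset Pool.Agent.TH362.TF Pool.Agent.TH362.TF.Four Q116.FF Pool.Agent.H16.FV

section
variable {V E : Type} [Fintype V] [DecidableEq V] [DecidableEq E]
set_option linter.unusedSectionVars false

theorem red_mem_cl {s t : E → V} {S : Finset E} {x : Fin 4 → V} {A : Finset V} {u : V} :
    u ∈ cl s t S x A ↔ u ∈ A ∨ ∃ i, 2 ≤ cnt s t S x A i ∧ x i = u := by
  classical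
  unfold cl
  rw [mem_union, mem_image]
  simp only [mem_filter, mem_univ, true_and]

theorem red_mem_CA {s t : E → V} {S : Finset E} {x : Fin 4 → V} {A : Finset V} {e : E} :
    e ∈ CA s t S x A ↔ e ∈ S ∧ s e ≠ t e ∧ (s e ∈ A ∨ t e ∈ A) ∧ (s e ∈ A ∨ ∃ i, x i = s e) ∧
      (t e ∈ A ∨ ∃ i, x i = t e) := by
  unfold CA
  rw [mem_filter]
  simp only [mem_image, mem_univ, true_and]

theorem red_mem_RA {s t : E → V} {S : Finset E} {x : Fin 4 → V} {A : Finset V} {e : E} :
    e ∈ RA s t S x A ↔ e ∈ S ∧ ((s e ∈ A ∧ t e ∉ A ∧ ¬ ∃ i, x i = t e) ∨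
      (t e ∈ A ∧ s e ∉ A ∧ ¬ ∃ i, x i = s e)) := by
  unfold RA
  rw [mem_filter]
  simp only [mem_image, mem_univ, true_and]

/-- an edge of `CA` at a hub has its other end in `A` -/
theorem red_hub {s t : E → V} {S : Finset E} {x : Fin 4 → V} {A : Finset V} {e : E} {i : Fin 4}
    (hA : ∀ i, x i ∉ A) (he : e ∈ CA s t S x A) (h : s e = x i ∨ t e = x i) :
    ∃ a ∈ A, Ends s t a (x i) e := by
  rw [red_mem_CA] at he
  obtain ⟨_, _, h2, _, _⟩ := he
  rcases h with h | h
  · refine ⟨t e, ?_, Or.inr ⟨h, rfl⟩⟩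
    rcases h2 with h2 | h2
    · rw [h] at h2; exact absurd h2 (hA i)
    · exact h2
  · refine ⟨s e, ?_, Or.inl ⟨rfl, h⟩⟩
    rcases h2 with h2 | h2
    · exact h2
    · rw [h] at h2; exact absurd h2 (hA i)

end

theorem red : S_RED := by
  classical
  intro V E _ _ _ s t S x hx hPar A v hA hvA hR hRv H a₀ ha₀ hNZ
  set T := cl s t S x A with hT
  set D := CA s t S x A with hD
  set C := D.filter (fun e => s e ∈ T ∧ t e ∈ T) with hC
  have AT : ∀ u ∈ A, u ∈ T := fun u hu => red_mem_cl.2 (Or.inl hu)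
  have xT : ∀ i, x i ∈ T ↔ 2 ≤ cnt s t S x A i := by
    intro i
    rw [hT, red_mem_cl]
    constructor
    · rintro (h | ⟨j, hj, h⟩)
      · exact absurd h (hA i)
      · rwa [hx h] at hj
    · intro h
      exact Or.inr ⟨i, h, rfl⟩
  have CD : C ⊆ D := filter_subset _ _
  have DS : D ⊆ S := filter_subset _ _
  have CS : C ⊆ S := CD.trans DS
  have hCT : ∀ e ∈ C, s e ∈ T ∧ t e ∈ T := fun e he => (mem_filter.1 he).2
  obtain ⟨φ, φ1, φ2, φ3⟩ := Q116.FF.setup ha₀ CS hCT hNZ
  have hub := fun {e : E} {i : Fin 4} (he : e ∈ D) (h : s e = x i ∨ t e = x i) =>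
    red_hub hA he h
  -- the only edge of `D` at a hub outside `T`
  have uni : ∀ i, x i ∉ T → ∀ e ∈ D, ∀ e' ∈ D, (s e = x i ∨ t e = x i) →
      (s e' = x i ∨ t e' = x i) → e = e' := by
    intro i hi e he e' he' h h'
    obtain ⟨a, ha, k⟩ := hub he h
    obtain ⟨a', ha', k'⟩ := hub he' h'
    have hc : cnt s t S x A i ≤ 1 := by
      by_contra hcon
      exact hi ((xT i).2 (by omega))
    unfold cnt at hc
    have : a = a' := by
      rw [card_le_one] at hc
      exact hc a (mem_filter.2 ⟨ha, e, DS he, k⟩) a' (mem_filter.2 ⟨ha', e', DS he', k'⟩)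
    subst this
    exact hPar a (x i) e e' (fun h5 => hA i (h5 ▸ ha)) (DS he) (DS he') k k'
  -- the sum at such a hub
  have one : ∀ (θ : E → F) (i : Fin 4), x i ∉ T → ∀ e ∈ D, (s e = x i ∨ t e = x i) →
      B s t D θ (x i) = θ e ∧ B s t (D \ C) θ (x i) = θ e := by
    intro θ i hi e he h
    have key : ∀ X : Finset E, X ⊆ D → e ∈ X → B s t X θ (x i) = θ e := by
      intro X hX heX
      unfold B
      rw [sum_eq_single e]
      · obtain ⟨a, ha, k⟩ := hub he h
        have hne : a ≠ x i := fun h5 => hA i (h5 ▸ ha)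
        rcases k with ⟨k1, k2⟩ | ⟨k1, k2⟩
        · rw [if_neg (by rw [k1]; exact hne), if_pos k2, zero_add]
        · rw [if_pos k1, if_neg (by rw [k2]; exact hne), add_zero]
      · intro e' he' hne
        rw [if_neg (fun h5 => hne (uni i hi e' (hX he') e he (Or.inl h5) h)),
          if_neg (fun h5 => hne (uni i hi e' (hX he') e he (Or.inr h5) h)), add_zero]
      · intro h5; exact absurd heX h5
    refine ⟨key D (Subset.refl _) he, key (D \ C) sdiff_subset ?_⟩
    rw [mem_sdiff]
    refine ⟨he, fun h5 => ?_⟩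
    have h6 := hCT e h5
    rcases h with h | h
    · rw [h] at h6; exact hi h6.1
    · rw [h] at h6; exact hi h6.2
  -- members of `D \ C`
  have DC : ∀ e ∈ D \ C, ∃ i, x i ∉ T ∧ (s e = x i ∨ t e = x i) := by
    intro e he
    rw [mem_sdiff] at he
    have h1 := he.1
    rw [hD, red_mem_CA] at h1
    obtain ⟨_, _, h2, h3, h4⟩ := h1
    by_contra hcon
    push Not at hcon
    apply he.2
    rw [hC, mem_filter]
    refine ⟨he.1, ?_, ?_⟩
    · rcases h3 with h3 | ⟨i, h3⟩
      · exact AT _ h3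
      · by_contra h5
        rw [← h3] at h5
        exact (hcon i h5).1 h3.symm
    · rcases h4 with h4 | ⟨i, h4⟩
      · exact AT _ h4
      · by_contra h5
        rw [← h4] at h5
        exact (hcon i h5).2 h4.symm
  -- no edge of `D \ C` at a hub in `T`
  have zer : ∀ (θ : E → F) (i : Fin 4), x i ∈ T → B s t (D \ C) θ (x i) = 0 := by
    intro θ i hi
    unfold B
    refine sum_eq_zero fun e he => ?_
    have key : ¬ (s e = x i ∨ t e = x i) := by
      intro h
      rw [mem_sdiff] at he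
      obtain ⟨a, ha, k⟩ := hub he.1 h
      exact he.2 (mem_filter.2 ⟨he.1, Q116.FF.ends_mem k (AT a ha) hi⟩)
    rw [if_neg (fun h => key (Or.inl h)), if_neg (fun h => key (Or.inr h)), add_zero]
  -- the root edge
  set c : F := ∑ e ∈ RA s t S x A, φ e with hc
  have RS : ∀ e ∈ RA s t S x A, e ∈ S ∧ e ∉ D := by
    intro e he
    rw [red_mem_RA] at he
    refine ⟨he.1, fun h => ?_⟩
    rw [hD, red_mem_CA] at h
    obtain ⟨_, _, _, h3, h4⟩ := h
    rcases he.2 with ⟨_, h6, h7⟩ | ⟨_, h6, h7⟩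
    · exact h4.elim h6 h7
    · exact h3.elim h6 h7
  have c0 : RA s t S x A = ∅ → c = 0 := by
    intro h
    rw [hc, h, sum_empty]
  have c1 : RA s t S x A ≠ ∅ → c ≠ 0 := by
    intro h
    obtain ⟨e, he⟩ := nonempty_iff_ne_empty.2 h
    have h1 : RA s t S x A = {e} := by
      rw [card_le_one] at hR
      ext e'
      rw [mem_singleton]
      exact ⟨fun h' => hR e' h' e he, fun h' => h' ▸ he⟩
    rw [hc, h1, sum_singleton]
    exact φ1 e (mem_sdiff.2 ⟨(RS e he).1, fun h5 => (RS e he).2 (CD h5)⟩)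
  have Rsum : ∀ u ∈ A, B s t (RA s t S x A) φ u = pt v c u := by
    intro u hu
    unfold B pt
    rw [hc]
    by_cases huv : u = v
    · rw [if_pos huv]
      refine sum_congr rfl fun e he => ?_
      have h1 := hRv e he
      rw [red_mem_RA] at he
      rcases he.2 with ⟨h5, h6, _⟩ | ⟨h5, h6, _⟩
      · have h7 : t e ≠ v := fun h => h6 (h ▸ hvA)
        rw [huv, if_neg h7, if_pos (h1.resolve_right h7), add_zero]
      · have h7 : s e ≠ v := fun h => h6 (h ▸ hvA)
        rw [huv, if_neg h7, if_pos (h1.resolve_left h7), zero_add]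
    · rw [if_neg huv]
      refine sum_eq_zero fun e he => ?_
      have h1 := hRv e he
      rw [red_mem_RA] at he
      rcases he.2 with ⟨h5, h6, _⟩ | ⟨h5, h6, _⟩
      · have h7 : t e ≠ v := fun h => h6 (h ▸ hvA)
        have k1 : s e ≠ u := fun h => huv (h.symm.trans (h1.resolve_right h7))
        have k2 : t e ≠ u := fun h => h6 (h ▸ hu)
        rw [if_neg k1, if_neg k2, add_zero]
      · have h7 : s e ≠ v := fun h => h6 (h ▸ hvA)
        have k1 : t e ≠ u := fun h => huv (h.symm.trans (h1.resolve_left h7))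
        have k2 : s e ≠ u := fun h => h6 (h ▸ hu)
        rw [if_neg k2, if_neg k1, add_zero]
  -- the sum at a vertex of `A`
  have Asum : ∀ u ∈ A, B s t (S \ C) φ u = pt v c u + B s t (D \ C) φ u := by
    intro u hu
    rw [← Rsum u hu]
    have hdis : Disjoint (RA s t S x A) (D \ C) := by
      rw [disjoint_left]
      intro e he h
      exact (RS e he).2 (mem_sdiff.1 h).1
    unfold B
    rw [← sum_union hdis]
    symm
    apply sum_subset
    · intro e he
      rcases mem_union.1 he with h | h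
      · exact mem_sdiff.2 ⟨(RS e h).1, fun h5 => (RS e h).2 (CD h5)⟩
      · exact mem_sdiff.2 ⟨DS (mem_sdiff.1 h).1, (mem_sdiff.1 h).2⟩
    · intro e he h
      rw [mem_sdiff] at he
      rw [mem_union, not_or, mem_sdiff] at h
      obtain ⟨h1, h2⟩ := h
      have h3 : e ∉ D := fun h5 => h2 ⟨h5, he.2⟩
      by_cases hst : s e = t e
      · rw [hst]
        exact Q116.FF.eq_of_addF (by rw [add_zero]; exact addF _) 
      · have hs : s e ≠ u := by
          intro hs
          apply h3
          rw [hD, red_mem_CA]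
          rw [red_mem_RA] at h1
          have hsA : s e ∈ A := hs ▸ hu
          refine ⟨he.1, hst, Or.inl hsA, Or.inl hsA, ?_⟩
          by_contra h6
          rw [not_or] at h6
          exact h1 ⟨he.1, Or.inl ⟨hsA, h6.1, h6.2⟩⟩
        have ht : t e ≠ u := by
          intro hs
          apply h3
          rw [hD, red_mem_CA]
          rw [red_mem_RA] at h1
          have hsA : t e ∈ A := hs ▸ hu
          refine ⟨he.1, hst, Or.inr hsA, ?_, Or.inl hsA⟩
          by_contra h6
          rw [not_or] at h6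
          exact h1 ⟨he.1, Or.inr ⟨hsA, h6.1, h6.2⟩⟩
        rw [if_neg hs, if_neg ht, add_zero]
  -- the wanted sums at the hubs
  set p : Fin 4 → F := fun i => if x i ∈ T then B s t (S \ C) φ (x i) else
    B s t (D \ C) φ (x i) with hp
  have p0 : ∀ i, cnt s t S x A i = 0 → p i = 0 := by
    intro i hi
    have h1 : x i ∉ T := by rw [xT]; omega
    simp only [hp, if_neg h1]
    unfold B
    refine sum_eq_zero fun e he => ?_
    have key : ¬ (s e = x i ∨ t e = x i) := by
      intro h
      obtain ⟨a, ha, k⟩ := hub (mem_sdiff.1 he).1 h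
      unfold cnt at hi
      rw [card_eq_zero] at hi
      have : a ∈ A.filter (fun a => La s t S x a i) :=
        mem_filter.2 ⟨ha, e, DS (mem_sdiff.1 he).1, k⟩
      rw [hi] at this
      exact absurd this (notMem_empty a)
    rw [if_neg (fun h => key (Or.inl h)), if_neg (fun h => key (Or.inr h)), add_zero]
  have p1 : ∀ i, cnt s t S x A i = 1 → p i ≠ 0 := by
    intro i hi
    have h1 : x i ∉ T := by rw [xT]; omega
    simp only [hp, if_neg h1]
    unfold cnt at hi
    obtain ⟨a, ha⟩ := card_pos.1 (by rw [hi]; exact Nat.one_pos)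
    obtain ⟨haA, e, heS, k⟩ := mem_filter.1 ha
    have hne : a ≠ x i := fun h5 => hA i (h5 ▸ haA)
    have hend : s e = x i ∨ t e = x i := by
      rcases k with ⟨_, k⟩ | ⟨k, _⟩
      · exact Or.inr k
      · exact Or.inl k
    have heD : e ∈ D := by
      rw [hD, red_mem_CA]
      rcases k with ⟨k1, k2⟩ | ⟨k1, k2⟩
      · refine ⟨heS, by rw [k1, k2]; exact hne, Or.inl (k1 ▸ haA), Or.inl (k1 ▸ haA),
          Or.inr ⟨i, k2.symm⟩⟩
      · refine ⟨heS, by rw [k1, k2]; exact hne.symm, Or.inr (k2 ▸ haA), Or.inr ⟨i, k1.symm⟩,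
          Or.inl (k2 ▸ haA)⟩
    rw [(one φ i h1 e heD hend).2]
    refine φ1 e (mem_sdiff.2 ⟨heS, fun h5 => ?_⟩)
    have h6 := hCT e h5
    rcases hend with h | h
    · rw [h] at h6; exact h1 h6.1
    · rw [h] at h6; exact h1 h6.2
  have psum : ∑ i, p i = c := by
    -- the sum over `T`
    have hTu : T = A ∪ (univ.filter (fun i => x i ∈ T)).image x := by
      ext u
      rw [mem_union, mem_image]
      simp only [mem_filter, mem_univ, true_and]
      constructor
      · intro h
        rw [hT, red_mem_cl] at h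
        rcases h with h | ⟨i, hi, h⟩
        · exact Or.inl h
        · exact Or.inr ⟨i, (xT i).2 hi, h⟩
      · rintro (h | ⟨i, hi, rfl⟩)
        · exact AT u h
        · exact hi
    have hdis : Disjoint A ((univ.filter (fun i => x i ∈ T)).image x) := by
      rw [disjoint_left]
      intro u h1 h2
      obtain ⟨i, _, rfl⟩ := mem_image.1 h2
      exact hA i h1
    have e1 : ∑ u ∈ A, B s t (S \ C) φ u + ∑ i ∈ univ.filter (fun i => x i ∈ T),
        B s t (S \ C) φ (x i) = 0 := by
      rw [← φ3]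
      conv_rhs => rw [hTu]
      rw [sum_union hdis, sum_image (fun i _ j _ h => hx h)]
    have e2 : ∑ u ∈ A, B s t (S \ C) φ u = c + ∑ u ∈ A, B s t (D \ C) φ u := by
      rw [sum_congr rfl Asum, sum_add_distrib]
      congr 1
      unfold pt
      rw [sum_ite_eq', if_pos hvA]
    -- the sum over `A` and all hubs
    have e3 : ∑ u ∈ A ∪ univ.image x, B s t (D \ C) φ u = 0 := by
      refine (Q116.FF.B_inside (T := A ∪ univ.image x) ?_ φ).2
      intro e he
      have h1 := (mem_sdiff.1 he).1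
      rw [hD, red_mem_CA] at h1
      obtain ⟨_, _, _, h3, h4⟩ := h1
      refine ⟨mem_union.2 (h3.imp id fun ⟨i, h⟩ => mem_image.2 ⟨i, mem_univ i, h⟩),
        mem_union.2 (h4.imp id fun ⟨i, h⟩ => mem_image.2 ⟨i, mem_univ i, h⟩)⟩
    have hdis2 : Disjoint A (univ.image x) := by
      rw [disjoint_left]
      intro u h1 h2
      obtain ⟨i, _, rfl⟩ := mem_image.1 h2
      exact hA i h1
    rw [sum_union hdis2, sum_image (fun i _ j _ h => hx h)] at e3
    have e4 : ∑ i, p i = ∑ i ∈ univ.filter (fun i => x i ∈ T), B s t (S \ C) φ (x i) +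
        ∑ i, B s t (D \ C) φ (x i) := by
      rw [sum_filter, ← sum_add_distrib]
      refine sum_congr rfl fun i _ => ?_
      by_cases hi : x i ∈ T
      · simp only [hp, if_pos hi, zer φ i hi, add_zero]
      · simp only [hp, if_neg hi, zero_add]
    rw [e4]
    rw [e2] at e1
    have e5 := Q116.FF.eq_of_addF e3
    rw [e5] at e1
    apply Q116.FF.eq_of_addF
    rw [← e1]
    ring
  obtain ⟨ψ, ψ1, ψ2, ψ3⟩ := H c p c0 c1 psum p0 p1
  refine Q116.FF.finish CS φ ψ φ1 (fun e he => ψ1 e (CD he)) ?_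
  have same : ∀ e ∈ D \ C, φ e = ψ e := by
    intro e he
    obtain ⟨i, hi, h⟩ := DC e he
    have h1 := (one ψ i hi e (mem_sdiff.1 he).1 h).1
    have h2 := (one φ i hi e (mem_sdiff.1 he).1 h).2
    have h3 := ψ3 i
    rw [← h1, ← h2]
    rw [h3]
    simp only [hp, if_neg hi]
  intro u
  by_cases huT : u ∈ T
  · by_cases huA : u ∈ A
    · have h1 := ψ2 u huA
      rw [Q116.FF.B_split s t CD] at h1
      rw [Asum u huA, Q116.FF.B_congr s t same u, ← h1]
      have := addF (B s t (D \ C) ψ u)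
      have h3 := addF (B s t C ψ u)
      linear_combination this + h3
    · rw [hT, red_mem_cl] at huT
      obtain ⟨i, hi, rfl⟩ := huT.resolve_left huA
      have h1 := ψ3 i
      rw [Q116.FF.B_split s t CD, zer ψ i ((xT i).2 hi), zero_add] at h1
      rw [h1]
      simp only [hp, if_pos ((xT i).2 hi)]
      exact addF _
  · rw [φ2 u huT, (Q116.FF.B_inside hCT ψ).1 u huT, add_zero]

end Pool.Agent.H16.FW
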