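import Pool.Agent.H16.FW.Shp

/-!
FW-REL: the cut space of a Petersen quotient.
-/

set_option autoImplicit false

namespace Pool.Agent.H16.FW

open Finset Pool.Agent.TH362 Pool.Agent.TH362.TF Pool.Agent.TH362.TF.Four Q116.FF
  Pool.Agent.H16.FV

open TF.Contr in
theorem rel : S_REL := by
  intro V E _ _ _ _ s t κ eps h1 hκ heps a ha
  classical
  have hc : ∀ k : Fin 10, ∃ c : V, κ c = k ∧
      ∃ e0 : E, (s e0 = c ∧ κ (t e0) ≠ κ c) ∨ (t e0 = c ∧ κ (s e0) ≠ κ c) := by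
    intro k
    obtain ⟨e, _, he⟩ := hκ.2 k (nb k 0) (padj_nb k 0)
    have h4 := nb_ne k 0
    rcases he with ⟨a, b⟩ | ⟨a, b⟩
    · refine ⟨s e, a, e, Or.inl ⟨rfl, ?_⟩⟩
      rw [a, b]
      exact h4
    · refine ⟨t e, b, e, Or.inr ⟨rfl, ?_⟩⟩
      rw [a, b]
      exact h4
  choose c hck e0 he0 using hc
  have hends : ∀ (k : Fin 10) (e : E), (κ (s e) = k → κ (t e) ≠ k → s e ∈ Bc s t κ (c k)) ∧
      (κ (t e) = k → κ (s e) ≠ k → t e ∈ Bc s t κ (c k)) := by
    intro k e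
    have h2 := Bc_ends s t h1 κ hκ (c k) (e0 k) (he0 k) e
    rw [hck] at h2
    exact h2
  -- edges inside a class are not `eps j`
  have hin : ∀ (k : Fin 10) (e : E), κ (s e) = k → κ (t e) = k → ∀ j, e ≠ eps j := by
    rintro k e h2 h3 j rfl
    have h4 := Bond.pab j
    rcases heps j with ⟨b, d⟩ | ⟨b, d⟩
    · exact h4 (by rw [← b, ← d, h2, h3])
    · exact h4 (by rw [← b, ← d, h2, h3])
  have hconst : ∀ (k : Fin 10) (v : V), v ∈ Bc s t κ (c k) → a v = a (c k) := by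
    intro k v hv
    have h' : Multi.Linked s t {e | κ (s e) = κ (c k) ∧ κ (t e) = κ (c k)} (c k) v := hv
    unfold Multi.Linked at h'
    induction h' with
    | refl => rfl
    | @tail u w h2 h3 ih =>
      have h4 := ih h2
      obtain ⟨e, he, ⟨h5, h6⟩ | ⟨h5, h6⟩⟩ := h3
      · rw [← h6, ← ha e (hin (κ (c k)) e he.1 he.2), h5, h4]
      · rw [← h5, ha e (hin (κ (c k)) e he.1 he.2), h6, h4]
  refine ⟨fun k => a (c k), fun j => ?_⟩
  have h4 := Bond.pab j
  rcases heps j with ⟨b, d⟩ | ⟨b, d⟩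
  · rw [hconst (Bond.pa j) _ ((hends _ _).1 b (by rw [d]; exact h4.symm)),
      hconst (Bond.pb j) _ ((hends _ _).2 d (by rw [b]; exact h4))]
  · rw [hconst (Bond.pb j) _ ((hends _ _).1 b (by rw [d]; exact h4)),
      hconst (Bond.pa j) _ ((hends _ _).2 d (by rw [b]; exact h4.symm)), add_comm]

end Pool.Agent.H16.FW
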