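import Pool.Agent.H16.FW.Shp
import Pool.Agent.H16.FV.Fin

/-!
# PROJECT FW (helper16): the result for feedback vertex number at most four
-/

set_option autoImplicit false
set_option linter.unusedSectionVars false

namespace Pool.Agent.H16.FW

open Finset Pool.Agent.TH362 Pool.Agent.TH362.TF Pool.Agent.TH362.TF.Four Q116.FF
  Pool.Agent.H16.FV

/-- the theorem `fvn4_of` -/
def S_FVN : Prop :=
  ∀ (V E : Type) [Fintype V] [DecidableEq V] [DecidableEq E] (s t : E → V) (S : Finset E),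
    N1 s t S → ∀ X : Finset V, X.card ≤ 4 → Fb s t S X → NZ s t S ∨ PQ s t S

section
variable {V E : Type} [Fintype V] [DecidableEq V] [Fintype E] [DecidableEq E]

theorem pm_of_ctp {s t : E → V} (h : Multi.ContractsToPetersen s t) : PM s t := by
  obtain ⟨B, h1, h2, h3, _⟩ := h
  exact ⟨B, h1, h2, fun i j hij => (h3 i j hij).exists⟩

theorem res4 (fvn : S_FVN) (ctp : S_CTP) (pnz : S_PNZ) {s t : E → V} (hn : Ni s t) {X : Finset V}
    (hX : X.card ≤ 4) (hM : Mt s t X) :
    (TC s t ↔ ¬ Multi.ContractsToPetersen s t) ∧ (¬ PM s t → TC s t) := by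
  have hn1 := n1_of_ni hn
  have h1 : TC s t ↔ ¬ Multi.ContractsToPetersen s t := by
    rw [tc_iff]
    constructor
    · exact fun h h' => pnz V E s t (ctp V E s t h') h
    · intro h
      rcases fvn V E s t univ hn1 X hX (fb_of_mt hM) with h' | h'
      · exact h'
      · exact absurd (contracts s t hn1 h') h
  exact ⟨h1, fun h => h1.2 fun h' => h (pm_of_ctp h')⟩

/-- the sharpness -/
theorem sharp (bln : S_BLN) (blp : S_BLP) (blf : S_BLF) (bli : S_BLI) (ctp : S_CTP) :
    Ni bls blt ∧ (∃ X : Finset (Fin 18), X.card ≤ 5 ∧ Mt bls blt X) ∧ ¬ TC bls blt ∧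
      ¬ Multi.ContractsToPetersen bls blt := by
  refine ⟨ni_of_n1 bli, ⟨{0, 1, 8, 10, 16}, by decide, ?_⟩, ?_, ?_⟩
  · intro C h1 h2
    obtain ⟨e, he, h⟩ := blf C h1 h2
    exact ⟨e, he, Or.inr h⟩
  · rw [tc_iff]
    exact bln
  · exact fun h => blp (ctp _ _ _ _ h)

end

end Pool.Agent.H16.FW
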