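import Pool.Agent.H16.FW.K35

/-!
Root edges of branches and components (FW-ROOT, helper35).
-/

set_option autoImplicit false

namespace Pool.Agent.H16.FW

open Finset Pool.Agent.TH362.TF Pool.Agent.TH362.TF.Four Q116.FF Pool.Agent.H16.FV K35

theorem root : S_ROOT := by
  intro hFOR V E _ _ _ s t S x H
  obtain ⟨f1, f2, f3, f4, f5, f6, f7⟩ := hFOR V (Fo s t S x) H.acy
  have c1 : ∀ v, ∀ W ⊆ nb' (Fo s t S x) v, (∀ i, x i ≠ v) →
      ∀ i, x i ∉ pa (Fo s t S x) v W := by
    intro v W hW hv i hi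
    exact lk_nonhub (f7 v W hW _ hi) hv i rfl
  have c2 : ∀ v u, (Fo s t S x).Adj v u → ∀ i, x i ∉ sd (Fo s t S x) v u := by
    intro v u huv i hi
    rw [f3 v u huv] at hi
    exact c1 v _ sdiff_subset huv.2.1 i hi
  have cl1 : ∀ v, ∀ a ∈ pa (Fo s t S x) v (nb' (Fo s t S x) v), ∀ b, (Fo s t S x).Adj a b →
      b ∈ pa (Fo s t S x) v (nb' (Fo s t S x) v) := by
    intro v a ha b hab
    rw [f6] at ha ⊢
    exact ha.trans hab.reachable
  refine ⟨c1, c2, ?_, ?_, ?_⟩
  · intro v hv
    rw [eq_empty_iff_forall_notMem]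
    intro e he
    obtain ⟨a, b, ha, hb, -, -, hab⟩ := ra_adj (c1 v _ (Subset.refl _) hv) he
    exact hb (cl1 v a ha b hab)
  · intro v v' hv hv'
    rw [eq_empty_iff_forall_notMem]
    intro e he
    obtain ⟨a, b, ha, hb, -, -, hab⟩ := ra_adj (fun i hi => by
      rw [mem_union] at hi
      rcases hi with hi | hi
      · exact c1 v _ (Subset.refl _) hv i hi
      · exact c1 v' _ (Subset.refl _) hv' i hi) he
    rw [mem_union] at ha hb
    rcases ha with ha | ha
    · exact hb (Or.inl (cl1 v a ha b hab))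
    · exact hb (Or.inr (cl1 v' a ha b hab))
  · intro v u huv
    have key : ∀ e ∈ RA s t S x (sd (Fo s t S x) v u), e ∈ S ∧ Ends s t v u e := by
      intro e he
      obtain ⟨a, b, ha, hb, heS, hab', hab⟩ := ra_adj (c2 v u huv) he
      rcases f2 v u huv a ha b hab with h | ⟨h1, h2⟩
      · exact absurd h hb
      · subst h1 h2; exact ⟨heS, hab'⟩
    refine ⟨?_, ?_, ?_⟩
    · obtain ⟨h1, h2, h3, e, he, k⟩ := huv
      have huv : (Fo s t S x).Adj v u := ⟨h1, h2, h3, e, he, k⟩
      intro hcon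
      rw [eq_empty_iff_forall_notMem] at hcon
      apply hcon e
      unfold RA
      rw [mem_filter]
      obtain ⟨g1, g2⟩ := f1 v u huv
      have g3 : u ∉ univ.image x := not_mem_img.2 h3
      refine ⟨he, ?_⟩
      rcases k with ⟨k1, k2⟩ | ⟨k1, k2⟩
      · left; rw [k1, k2]; exact ⟨g1, g2, g3⟩
      · right; rw [k1, k2]; exact ⟨g1, g2, g3⟩
    · rw [card_le_one]
      intro e he e' he'
      exact H.par v u e e' huv.1 (key e he).1 (key e' he').1 (key e he).2 (key e' he').2
    · intro e he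
      rcases (key e he).2 with ⟨h, _⟩ | ⟨_, h⟩
      · exact Or.inl h
      · exact Or.inr h

end Pool.Agent.H16.FW
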