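import Pool.Agent.H16.FW.K35

/-!
Automorphisms of `F` applied to the realized vectors (FW-SCL, helper35).
-/

set_option autoImplicit false

namespace Pool.Agent.H16.FW

open Finset Pool.Agent.TH362.TF Pool.Agent.TH362.TF.Four Q116.FF Pool.Agent.H16.FV K35

theorem scl : S_SCL := by
  intro V E _ _ _ s t S x A v c p h
  refine ⟨rz_hom h12 ?_ h, rz_hom h13 ?_ h, rz_hom h23 ?_ h⟩
  · show ∀ a : F, a ≠ 0 → g12 a ≠ 0
    decide
  · show ∀ a : F, a ≠ 0 → g13 a ≠ 0
    decide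
  · show ∀ a : F, a ≠ 0 → g23 a ≠ 0
    decide

end Pool.Agent.H16.FW
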