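import Pool.Agent.H16.FW.H73

/-!
# PROJECT FW: S_STEP (helper73)
-/

set_option autoImplicit false

namespace Pool.Agent.H16.FW

open Finset Pool.Agent.TH362.TF Pool.Agent.TH362.TF.Four Q116.FF Pool.Agent.H16.FV
open H73

theorem step : S_STEP := by
  intro V E _ _ _ s t S x A A' v w e₀ hA hA' hd hv hw h0 he hone c a p q ha ⟨ψ, h1, h2, h3⟩
    ⟨ψ', h1', h2', h3'⟩
  have hvw : v ≠ w := by
    rintro rfl
    exact Finset.disjoint_left.1 hd hv hw
  have hD : ∀ e, e ∈ ({e₀} : Finset E) ↔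
      e ∈ S ∧ (s e ∈ A ∧ t e ∈ A' ∨ s e ∈ A' ∧ t e ∈ A) := by
    intro e
    rw [Finset.mem_singleton]
    constructor
    · rintro rfl
      refine ⟨h0, ?_⟩
      rcases he with ⟨ha1, ha2⟩ | ⟨ha1, ha2⟩
      · rw [ha1, ha2]
        exact Or.inl ⟨hv, hw⟩
      · rw [ha1, ha2]
        exact Or.inr ⟨hw, hv⟩
    · rintro ⟨hs, hh⟩
      exact hone e hs hh
  obtain ⟨χ, g1, g2⟩ := glue (s := s) (t := t) (S := S) hA hA' hd {e₀} hD ψ ψ' (fun _ => a) h1 h1'
    (fun _ _ => ha)
  have hB : ∀ u, B s t ({e₀} : Finset E) (fun _ => a) u =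
      (if u = v then a else 0) + (if u = w then a else 0) := by
    intro u
    unfold B
    rw [Finset.sum_singleton]
    rcases he with ⟨ha1, ha2⟩ | ⟨ha1, ha2⟩
    · rw [ha1, ha2]
      simp only [eq_comm]
    · rw [ha1, ha2, add_comm]
      simp only [eq_comm]
  refine ⟨χ, g1, ?_, ?_⟩
  · intro u hu
    rw [g2, hB]
    rcases Finset.mem_union.1 hu with hu | hu
    · have e1 : u ≠ w := by
        rintro rfl
        exact Finset.disjoint_left.1 hd hu hw
      have e2 : B s t (CA s t S x A') ψ' u = 0 := B_other hA hd.symm ψ' hu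
      rw [h2 u hu, e2, if_neg e1, add_zero, add_zero]
      unfold pt
      split_ifs
      · rfl
      · rw [add_zero]
    · have e1 : u ≠ v := by
        rintro rfl
        exact Finset.disjoint_left.1 hd hv hu
      have e2 : B s t (CA s t S x A) ψ u = 0 := B_other hA' hd ψ hu
      rw [h2' u hu, e2, if_neg e1, zero_add, zero_add]
      unfold pt
      rw [if_neg e1]
      split_ifs
      · exact F_self a
      · rw [add_zero]
  · intro i
    have e1 : x i ≠ v := fun h => hA i (h ▸ hv)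
    have e2 : x i ≠ w := fun h => hA' i (h ▸ hw)
    rw [g2, hB, h3, h3', if_neg e1, if_neg e2, add_zero, add_zero]
    rfl

end Pool.Agent.H16.FW
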