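import Pool.Agent.H16.FW.K35

/-!
One more branch at a vertex (FW-STP, helper35).
-/

set_option autoImplicit false

namespace Pool.Agent.H16.FW

open Finset Pool.Agent.TH362.TF Pool.Agent.TH362.TF.Four Q116.FF Pool.Agent.H16.FV K35

theorem stp : S_STP := by
  intro hSTEP hFOR V E _ _ _ s t S x H v W y hv hW hy hyW c a p q ha hp hq
  obtain ⟨f1, f2, f3, f4, f5, f6, f7⟩ := hFOR V (Fo s t S x) H.acy
  rw [mem_nb'] at hy
  have hA : ∀ i, x i ∉ pa (Fo s t S x) v W := fun i hi => lk_nonhub (f7 v W hW _ hi) hv i rfl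
  have hA' : ∀ i, x i ∉ sd (Fo s t S x) y v := by
    intro i hi
    rw [f3 y v hy.symm] at hi
    exact lk_nonhub (f7 y _ sdiff_subset _ hi) hy.2.2.1 i rfl
  obtain ⟨g1, g2⟩ := f1 y v hy.symm
  have hdis : Disjoint (pa (Fo s t S x) v W) (sd (Fo s t S x) y v) := by
    rw [disjoint_left]
    intro w hw hw'
    unfold pa at hw
    rw [mem_insert, mem_biUnion] at hw
    rcases hw with hw | ⟨y', hy', hw⟩
    · exact g2 (hw ▸ hw')
    · have h1 : (Fo s t S x).Adj v y' := mem_nb'.1 (hW hy')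
      exact (disjoint_left.1 (f4 v y' y h1 hy (fun h => hyW (h ▸ hy')))) hw hw'
  have heq : pa (Fo s t S x) v (insert y W) = pa (Fo s t S x) v W ∪ sd (Fo s t S x) y v := by
    unfold pa
    rw [biUnion_insert, insert_union, union_comm]
  obtain ⟨h1, h2, h3, e, he, k⟩ := hy
  have key : ∀ b ∈ sd (Fo s t S x) y v, ∀ a' ∈ pa (Fo s t S x) v W, ∀ e' ∈ S,
      Ends s t a' b e' → e' = e := by
    intro b hb a' ha' e' he' k'
    have hadj : (Fo s t S x).Adj b a' := by
      refine ⟨?_, ?_, ?_, e', he', ends_sy k'⟩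
      · intro h; rw [h] at hb; exact disjoint_left.1 hdis ha' hb
      · intro i h; exact hA' i (h ▸ hb)
      · intro i h; exact hA i (h ▸ ha')
    rcases f2 y v ⟨h1.symm, h3, h2, e, he, ends_sy k⟩ b hb a' hadj with h4 | ⟨h4, h5⟩
    · exact absurd h4 (disjoint_left.1 hdis ha')
    · subst h4 h5
      exact H.par _ _ e' e h1 he' he k' k
  rw [heq]
  refine hSTEP V E s t S x _ _ v y e hA hA' hdis (mem_insert_self _ _) g1 he k ?_ c a p q ha hp hq
  intro e' he' h
  rcases h with ⟨h4, h5⟩ | ⟨h4, h5⟩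
  · exact key _ h5 _ h4 e' he' (Or.inl ⟨rfl, rfl⟩)
  · exact key _ h4 _ h5 e' he' (Or.inr ⟨rfl, rfl⟩)

end Pool.Agent.H16.FW
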