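import Pool.Agent.H16.FW.H73

/-!
# PROJECT FW: S_SUM (helper73)
-/

set_option autoImplicit false

namespace Pool.Agent.H16.FW

open Finset Pool.Agent.TH362.TF Pool.Agent.TH362.TF.Four Q116.FF Pool.Agent.H16.FV
open H73

theorem sum : S_SUM := by
  intro V E _ _ _ s t S x hx A v c p hA hv ⟨ψ, h1, h2, h3⟩
  have h := total (s := s) (t := t) (S := S) hx hA ψ
  rw [Finset.sum_congr rfl h2, Finset.sum_congr rfl (fun i _ => h3 i)] at h
  have h4 : ∑ u ∈ A, pt v c u = c := by
    unfold pt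
    rw [Finset.sum_ite_eq' A v (fun _ => c), if_pos hv]
  rw [h4] at h
  exact F_eq_of_add h

end Pool.Agent.H16.FW
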