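import Pool.Agent.H16.FW.H73

/-!
# PROJECT FW: S_SUPP (helper73)
-/

set_option autoImplicit false

namespace Pool.Agent.H16.FW

open Finset Pool.Agent.TH362.TF Pool.Agent.TH362.TF.Four Q116.FF Pool.Agent.H16.FV
open H73

theorem supp : S_SUPP := by
  classical
  intro V E _ _ _ s t S x hx hpar A c p hA ⟨ψ, h1, h2, h3⟩
  -- an edge of `CA A` at a hub has its other end in `A`
  have key : ∀ e ∈ CA s t S x A, ∀ i, (s e = x i ∨ t e = x i) →
      ∃ a ∈ A, Ends s t a (x i) e := by
    intro e he i hi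
    rw [mem_CA] at he
    rcases hi with hi | hi
    · have h4 : s e ∉ A := by rw [hi]; exact hA i
      refine ⟨t e, ?_, Or.inr ⟨hi, rfl⟩⟩
      tauto
    · have h4 : t e ∉ A := by rw [hi]; exact hA i
      refine ⟨s e, ?_, Or.inl ⟨rfl, hi⟩⟩
      tauto
  have keyLa : ∀ e ∈ CA s t S x A, ∀ i, ∀ a, Ends s t a (x i) e → La s t S x a i :=
    fun e he i a hh => ⟨e, (mem_CA.1 he).1, hh⟩
  refine ⟨?_, ?_⟩
  · intro i hi
    rw [← h3]
    refine B_zero fun e he => ?_
    have hno : ¬ (s e = x i ∨ t e = x i) := by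
      intro hh
      obtain ⟨a, ha, hE⟩ := key e he i hh
      have h5 : a ∈ A.filter (fun a => La s t S x a i) :=
        Finset.mem_filter.2 ⟨ha, keyLa e he i a hE⟩
      unfold cnt at hi
      rw [Finset.card_eq_zero] at hi
      have h6 : a ∈ (∅ : Finset V) := by
        rw [← hi]
        convert h5
      exact absurd h6 (Finset.notMem_empty _)
    tauto
  · intro i hi
    unfold cnt at hi
    obtain ⟨a, ha⟩ := Finset.card_eq_one.1 hi
    have ha' : a ∈ A ∧ La s t S x a i := by
      have : a ∈ ({a} : Finset V) := Finset.mem_singleton_self a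
      rw [← ha] at this
      exact Finset.mem_filter.1 this
    have huniq : ∀ b ∈ A, La s t S x b i → b = a := by
      intro b hb hL
      have h5 : b ∈ A.filter (fun a => La s t S x a i) := Finset.mem_filter.2 ⟨hb, hL⟩
      have h6 : b ∈ ({a} : Finset V) := by
        rw [← ha]
        convert h5
      exact Finset.mem_singleton.1 h6
    obtain ⟨haA, e₀, he₀S, he₀⟩ := ha'
    have hne : a ≠ x i := fun h => hA i (h ▸ haA)
    have he₀CA : e₀ ∈ CA s t S x A := by
      rw [mem_CA]
      have hxi : x i ∈ univ.image x := Finset.mem_image_of_mem x (Finset.mem_univ i)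
      rcases he₀ with ⟨h5, h6⟩ | ⟨h5, h6⟩
      · rw [h5, h6]
        exact ⟨he₀S, hne, Or.inl haA, Or.inl haA, Or.inr hxi⟩
      · rw [h5, h6]
        exact ⟨he₀S, hne.symm, Or.inr haA, Or.inr hxi, Or.inl haA⟩
    have h7 : B s t (CA s t S x A) ψ (x i) = ψ e₀ := by
      refine B_one he₀CA (mem_CA.1 he₀CA).2.1 ?_ ?_
      · rcases he₀ with ⟨h5, h6⟩ | ⟨h5, h6⟩
        · exact Or.inr h6
        · exact Or.inl h5
      · intro e he hee
        have hno : ¬ (s e = x i ∨ t e = x i) := by
          intro hh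
          obtain ⟨b, hb, hE⟩ := key e he i hh
          have h8 := huniq b hb (keyLa e he i b hE)
          rw [h8] at hE
          exact hee (hpar a (x i) e e₀ hne (mem_CA.1 he).1 he₀S hE he₀)
        tauto
    rw [← h3, h7]
    exact h1 e₀ he₀CA

end Pool.Agent.H16.FW
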