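import Pool.Agent.H16.FV.Fin
import Pool.Agent.H16.FW.L.Contr
import Pool.Agent.H16.FW.L.Bond

/-!
# PROJECT FW (helper16), fourth batch: Petersen quotients, the Blanusa snark
-/

set_option autoImplicit false

namespace Pool.Agent.H16.FW

open Finset Pool.Agent.TH362 Pool.Agent.TH362.TF Pool.Agent.TH362.TF.Four Q116.FF
  Pool.Agent.H16.FV

/-- CTP (80 lines).  If a component contracts to the Petersen graph then the graph has a Petersen
quotient (the vertices outside of the ten sets go to the class 0).  `TF.Contr.pr`, `pr_inj`,
`pr_surj`, `pr_padj` relate `Fin 10` and the pairs (FW/L/Contr.lean); exactly three edges leave each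
class (one to each adjacent class, by `∃!`; no others). -/
def S_CTP : Prop :=
  ∀ (V E : Type) [Fintype V] [DecidableEq V] [Fintype E] [DecidableEq E] (s t : E → V),
    Multi.ContractsToPetersen s t → PQ s t univ

/-- REL (80 lines).  `a` is constant along all edges except for the fifteen edges `eps j` of a
Petersen quotient; then the cut of `a` is a cut of the Petersen graph.

Proof.  See `TF.Contr.contracts`, `Bc_ends`, `Bc_class` (FW/L/Contr.lean): in each class `k` the ends
of the edges which leave the class are linked by edges inside the class, so `a` has one value `y k`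
there. -/
def S_REL : Prop :=
  ∀ (V E : Type) [Fintype V] [DecidableEq V] [Fintype E] [DecidableEq E] (s t : E → V)
    (κ : V → Fin 10) (eps : Fin 15 → E), N1 s t univ → IsPQ s t univ κ →
    (∀ j, Joins κ s t (Bond.pa j) (Bond.pb j) (eps j)) →
    ∀ a : V → ZMod 2, (∀ e, (∀ j, e ≠ eps j) → a (s e) = a (t e)) →
      ∃ y : Fin 10 → ZMod 2, ∀ j, a (s (eps j)) + a (t (eps j)) =
        y (Bond.pa j) + y (Bond.pb j)

/-- PNZ (40 lines).  A graph with a Petersen quotient has no nowhere-zero flow: sum the conservation
over the classes and use `Bond.petersen'`, `Bond.eps_exists`, `Bond.cut_eq`. -/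
def S_PNZ : Prop :=
  ∀ (V E : Type) [Fintype V] [DecidableEq V] [Fintype E] [DecidableEq E] (s t : E → V),
    PQ s t univ → ¬ NZ s t univ

/-- first ends of the edges of a Blanusa snark -/
def bls : Fin 27 → Fin 18 :=
  ![1, 3, 4, 5, 6, 7, 8, 9, 0, 1, 2, 3, 4, 10, 11, 13, 14, 15, 16, 17, 10, 11, 12, 0, 1, 2, 3]

/-- second ends of the edges of a Blanusa snark -/
def blt : Fin 27 → Fin 18 :=
  ![2, 4, 0, 7, 8, 9, 5, 6, 5, 6, 7, 8, 9, 11, 12, 15, 16, 17, 13, 14, 15, 16, 17, 12, 13, 10, 14]

/-- BLN (80 lines).  No nowhere-zero 4-flow (no 3-edge-colouring; a backtracking search in breadth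
first order of the edges has about 1200 nodes). -/
def S_BLN : Prop := ¬ NZ bls blt univ

/-- BLP (60 lines).  No Petersen quotient.  Each class has exactly three leaving edges; all degrees
are three, so the classes have odd cardinality; 18 = sum of ten odd numbers, so some class has
between 3 and 9 elements; no such set has exactly three leaving edges (check of the sets of 3, 5, 7,
9 vertices, or: a backtracking search for `κ`). -/
def S_BLP : Prop := ¬ PQ bls blt univ

/-- BLF (40 lines).  The five vertices 0, 1, 8, 10, 16 meet all circuits. -/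
def S_BLF : Prop :=
  ∀ C : Finset (Fin 27), C.Nonempty → (∀ v, Even (dg bls blt C v)) →
    ∃ e ∈ C, bls e ∈ ({0, 1, 8, 10, 16} : Finset (Fin 18)) ∨
      blt e ∈ ({0, 1, 8, 10, 16} : Finset (Fin 18))

/-- BLI (40 lines).  No isthmus.  E.g. cover the edges by sets with even degrees, each of which
meets each cut in an even number of edges. -/
def S_BLI : Prop := N1 bls blt univ

end Pool.Agent.H16.FW
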