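import Pool.Agent.H16.FV.Str
import Pool.Agent.H16.FW.Tab
import Mathlib.Combinatorics.SimpleGraph.Acyclic
import Mathlib.Combinatorics.SimpleGraph.Paths
import Mathlib.Data.Nat.Bitwise

/-!
# PROJECT FW (helper16): Tutte's 4-flow conjecture for feedback vertex number at most four

THEOREM.  Every bridgeless multigraph in which some four vertices meet all circuits has a
nowhere-zero 4-flow or a Petersen quotient.

A graph is given by `s t : E → V` and `S : Finset E`; `x : Fin 4 → V` are the four hubs, the graph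
without the hubs is a forest `Fo`.  `Re A c p`: the edges inside `A` and from `A` to the hubs (`CA`)
have nonzero values such that the sum at `u ∈ A` is `c u` and the sum at the hub `x i` is `p i`.

Stubs.  Each statement is a `def S_... : Prop`; a stub is a theorem `xyz : S_XYZ` in a file
`Pool/Agent/H16/FW/XYZ.lean` which imports this file (axioms: the usual three only).
-/

set_option autoImplicit false

namespace Pool.Agent.H16.FW

open Finset Pool.Agent.TH362.TF Pool.Agent.TH362.TF.Four Q116.FF Pool.Agent.H16.FV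

section
variable {V E : Type} [Fintype V] [DecidableEq V] [DecidableEq E]

/-- the vertex `v` is joined to the hub `x i` -/
def La (s t : E → V) (S : Finset E) (x : Fin 4 → V) (v : V) (i : Fin 4) : Prop :=
  ∃ e ∈ S, Ends s t v (x i) e

/-- the forest outside of the hubs -/
def Fo (s t : E → V) (S : Finset E) (x : Fin 4 → V) : SimpleGraph V where
  Adj a b := a ≠ b ∧ (∀ i, x i ≠ a) ∧ (∀ i, x i ≠ b) ∧ ∃ e ∈ S, Ends s t a b e
  symm := ⟨fun _ _ h => ⟨h.1.symm, h.2.2.1, h.2.1, h.2.2.2.imp fun _ k => ⟨k.1, Or.symm k.2⟩⟩⟩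
  loopless := ⟨fun _ h => h.1 rfl⟩

/-- the inner edges of `A`: edges inside `A` and between `A` and the hubs -/
def CA (s t : E → V) (S : Finset E) (x : Fin 4 → V) (A : Finset V) : Finset E :=
  S.filter (fun e => s e ≠ t e ∧ (s e ∈ A ∨ t e ∈ A) ∧ (s e ∈ A ∨ s e ∈ univ.image x) ∧
    (t e ∈ A ∨ t e ∈ univ.image x))

/-- the root edges of `A`: edges from `A` to vertices which are not in `A` and not hubs -/
def RA (s t : E → V) (S : Finset E) (x : Fin 4 → V) (A : Finset V) : Finset E :=
  S.filter (fun e => (s e ∈ A ∧ t e ∉ A ∧ t e ∉ univ.image x) ∨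
    (t e ∈ A ∧ s e ∉ A ∧ s e ∉ univ.image x))

/-- nonzero values on the inner edges with given sums -/
def Re (s t : E → V) (S : Finset E) (x : Fin 4 → V) (A : Finset V) (c : V → F)
    (p : Fin 4 → F) : Prop :=
  ∃ ψ : E → F, (∀ e ∈ CA s t S x A, ψ e ≠ 0) ∧ (∀ u ∈ A, B s t (CA s t S x A) ψ u = c u) ∧
    ∀ i, B s t (CA s t S x A) ψ (x i) = p i

/-- the value `c` at `v`, zero elsewhere -/
def pt (v : V) (c : F) : V → F := fun u => if u = v then c else 0

open Classical in
/-- the number of the vertices of `A` joined to the hub `x i` -/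
noncomputable def cnt (s t : E → V) (S : Finset E) (x : Fin 4 → V) (A : Finset V) (i : Fin 4) : ℕ :=
  (A.filter (fun a => La s t S x a i)).card

open Classical in
/-- `A` together with the hubs which are used at least twice by `A` -/
noncomputable def cl (s t : E → V) (S : Finset E) (x : Fin 4 → V) (A : Finset V) : Finset V :=
  A ∪ (univ.filter (fun i => 2 ≤ cnt s t S x A i)).image x

end

/-- at most one edge between two different vertices -/
def Par {V E : Type} (s t : E → V) (S : Finset E) : Prop :=
  ∀ a b e e', a ≠ b → e ∈ S → e' ∈ S → Ends s t a b e → Ends s t a b e' → e = e'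

/-- RED (150 lines).  `A` is a set of vertices outside of the hubs with at most one root edge, which
ends at `v`.  If all sums `p` with `p i = 0` for the hubs which are not used by `A`, `p i ≠ 0` for
those used once are realized by `A` (with value `c` at `v`; `c ≠ 0` if there is a root edge and
`c = 0` otherwise), then the contraction of `T = A ∪ {hubs used at least twice}` preserves the
non-existence of nowhere-zero flows.

Proof.  `Q116.FF.setup` with `T = cl A` and `C` = the members of `CA A` with both ends in `T`: values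
`φ` outside `C` with `B s t (S \ C) φ u = 0` outside `T`, sum zero on `T`.  `c` = the value of the
root edge (or 0); `p i = B s t (S \ C) φ (x i)` if the hub is used at least twice, `p i` = the value
of the only edge between `A` and `x i` if it is used once (one edge by `Par`), `0` otherwise.  At a
vertex `u` of `A` the sum `B s t (S \ C) φ u` is the sum of the values of the root edge (if `u = v`)
and the edges to hubs used once; so `∑ p i = c` follows from sum zero on `T`.  The hypothesis gives
`ψ` on `CA A`; by the sums at the hubs used once `ψ = φ` on the edges to these (the only member of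
`CA A` at that hub).  `Q116.FF.finish` with `ψ` on `C`.  Similar: `FV/Solve.lean`. -/
def S_RED : Prop :=
  ∀ (V E : Type) [Fintype V] [DecidableEq V] [DecidableEq E] (s t : E → V) (S : Finset E)
    (x : Fin 4 → V), Function.Injective x → Par s t S →
    ∀ (A : Finset V) (v : V), (∀ i, x i ∉ A) → v ∈ A → (RA s t S x A).card ≤ 1 →
    (∀ e ∈ RA s t S x A, s e = v ∨ t e = v) →
    (∀ (c : F) (p : Fin 4 → F), (RA s t S x A = ∅ → c = 0) → (RA s t S x A ≠ ∅ → c ≠ 0) →
      ∑ i, p i = c → (∀ i, cnt s t S x A i = 0 → p i = 0) →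
      (∀ i, cnt s t S x A i = 1 → p i ≠ 0) → Re s t S x A (pt v c) p) →
    ∀ a₀ ∈ cl s t S x A,
      NZ (fun e => mrg (cl s t S x A) a₀ (s e)) (fun e => mrg (cl s t S x A) a₀ (t e)) S →
      NZ s t S

/-- BASE (60 lines).  A single vertex `v` outside of the hubs: choose the value `p i` for the edge to
`x i`.  `CA {v}` consists of the edges between `v` and the hubs, at most one for each hub. -/
def S_BASE : Prop :=
  ∀ (V E : Type) [Fintype V] [DecidableEq V] [DecidableEq E] (s t : E → V) (S : Finset E)
    (x : Fin 4 → V), Function.Injective x → Par s t S →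
    ∀ (v : V) (c : F) (p : Fin 4 → F), (∀ i, x i ≠ v) → (∀ i, La s t S x v i ↔ p i ≠ 0) →
      ∑ i, p i = c → Re s t S x {v} (pt v c) p

/-- STEP (120 lines).  `A` and `A'` are disjoint, `e₀` joins `v ∈ A` and `w ∈ A'` and is the only
edge between `A` and `A'`.  Then `CA (A ∪ A')` is the disjoint union of `CA A`, `CA A'` and `{e₀}`;
glue the values, with the value `a` for `e₀`. -/
def S_STEP : Prop :=
  ∀ (V E : Type) [Fintype V] [DecidableEq V] [DecidableEq E] (s t : E → V) (S : Finset E)
    (x : Fin 4 → V) (A A' : Finset V) (v w : V) (e₀ : E), (∀ i, x i ∉ A) → (∀ i, x i ∉ A') →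
    Disjoint A A' → v ∈ A → w ∈ A' → e₀ ∈ S → Ends s t v w e₀ →
    (∀ e ∈ S, (s e ∈ A ∧ t e ∈ A' ∨ s e ∈ A' ∧ t e ∈ A) → e = e₀) →
    ∀ (c a : F) (p q : Fin 4 → F), a ≠ 0 → Re s t S x A (pt v c) p → Re s t S x A' (pt w a) q →
      Re s t S x (A ∪ A') (pt v (c + a)) (p + q)

/-- UNI (70 lines).  The same without an edge between `A` and `A'`. -/
def S_UNI : Prop :=
  ∀ (V E : Type) [Fintype V] [DecidableEq V] [DecidableEq E] (s t : E → V) (S : Finset E)
    (x : Fin 4 → V) (A A' : Finset V), (∀ i, x i ∉ A) → (∀ i, x i ∉ A') → Disjoint A A' →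
    (∀ e ∈ S, ¬ (s e ∈ A ∧ t e ∈ A' ∨ s e ∈ A' ∧ t e ∈ A)) →
    ∀ (p q : Fin 4 → F), Re s t S x A (fun _ => 0) p → Re s t S x A' (fun _ => 0) q →
      Re s t S x (A ∪ A') (fun _ => 0) (p + q)

/-- SUM (40 lines).  The sum of all values at vertices is zero (characteristic two). -/
def S_SUM : Prop :=
  ∀ (V E : Type) [Fintype V] [DecidableEq V] [DecidableEq E] (s t : E → V) (S : Finset E)
    (x : Fin 4 → V), Function.Injective x → ∀ (A : Finset V) (v : V) (c : F) (p : Fin 4 → F),
    (∀ i, x i ∉ A) → v ∈ A → Re s t S x A (pt v c) p → ∑ i, p i = c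

/-- SUPP (60 lines).  A hub used by no vertex of `A` gets sum zero, a hub used once a nonzero sum. -/
def S_SUPP : Prop :=
  ∀ (V E : Type) [Fintype V] [DecidableEq V] [DecidableEq E] (s t : E → V) (S : Finset E)
    (x : Fin 4 → V), Function.Injective x → Par s t S →
    ∀ (A : Finset V) (c : V → F) (p : Fin 4 → F), (∀ i, x i ∉ A) → Re s t S x A c p →
    (∀ i, cnt s t S x A i = 0 → p i = 0) ∧ (∀ i, cnt s t S x A i = 1 → p i ≠ 0)

/-- ACY (60 lines).  The graph outside of the hubs is a forest.

Proof.  `Pool.Agent.H16.FV.ori` (file `FV/Ori.lean`, statement `S_ORI`) gives `c p : E → V`, `r`: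
each edge `e` outside of `X` has a lower end `c e` and an upper end `p e` with `r (c e) < r (p e)`,
different edges have different lower ends.  In a cycle of `Fo` a vertex of smallest rank is the lower
end of two different edges. -/
def S_ACY : Prop :=
  ∀ (V E : Type) [Fintype V] [DecidableEq V] [DecidableEq E] (s t : E → V) (S : Finset E)
    (x : Fin 4 → V), Fb s t S (univ.image x) → (Fo s t S x).IsAcyclic

/-- DEG (60 lines).  The degree (number of edges which are not loops) of a vertex outside of the
hubs. -/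
def S_DEG : Prop :=
  ∀ (V E : Type) [Fintype V] [DecidableEq V] [DecidableEq E] (s t : E → V) (S : Finset E)
    (x : Fin 4 → V), Function.Injective x → Par s t S → ∀ v : V, (∀ i, x i ≠ v) →
    (cut s t S (fun u => decide (u = v))).card =
      Nat.card {i // La s t S x v i} + Nat.card {w // (Fo s t S x).Adj v w}

section
variable {V : Type} [Fintype V] [DecidableEq V]

open Classical in
/-- the side of `v` of the edge `vu` of a forest -/
noncomputable def sd (G : SimpleGraph V) (v u : V) : Finset V :=
  univ.filter (fun w => (G.deleteEdges {s(v, u)}).Reachable v w)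

/-- `v` with the branches at `v` which begin with the vertices in `W` -/
noncomputable def pa (G : SimpleGraph V) (v : V) (W : Finset V) : Finset V :=
  insert v (W.biUnion (fun y => sd G y v))

open Classical in
/-- the neighbours of `v` -/
noncomputable def nb' (G : SimpleGraph V) (v : V) : Finset V := univ.filter (fun w => G.Adj v w)

/-- paths in the set `A` -/
def Lk' (G : SimpleGraph V) (A : Finset V) (a b : V) : Prop :=
  Relation.ReflTransGen (fun a b => a ∈ A ∧ b ∈ A ∧ G.Adj a b) a b

end

/-- FOR (150 lines).  The sides of the edges of a forest.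

Proof.  (1), (2): `isAcyclic_iff_forall_adj_isBridge`, `isBridge_iff`.  (3) if `ab` is not the deleted
edge, `b` is reachable too; `a = u` is impossible by (2).  (4) `→`: take a path from `v` to `w`
(`w ≠ v`) in `G` without `vu`, its second vertex is `y`, and the rest of the path does not use `v`
again, so it is a path without `yv`.  `←`: a path from `y` to `w` without `yv` does not meet `v` (by
(2) `v ∉ sd y v`), hence it does not use `vu`; put `v` in front.  (5) a common vertex would give two
different paths from `v` to it (or: `y' ∈ sd y v` by (3)-like closure, then `v ∈ sd y v`).  (6) by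
(4)-like arguments.  (7) Reachability inside the set: all vertices on the path are in it. -/
def S_FOR : Prop :=
  ∀ (V : Type) [Fintype V] [DecidableEq V] (G : SimpleGraph V), G.IsAcyclic →
    (∀ v u, G.Adj v u → v ∈ sd G v u ∧ u ∉ sd G v u) ∧
    (∀ v u, G.Adj v u → ∀ a ∈ sd G v u, ∀ b, G.Adj a b → b ∈ sd G v u ∨ (a = v ∧ b = u)) ∧
    (∀ v u, G.Adj v u → sd G v u = pa G v (nb' G v \ {u})) ∧
    (∀ v y y', G.Adj v y → G.Adj v y' → y ≠ y' → Disjoint (sd G y v) (sd G y' v)) ∧
    (∀ v u, G.Adj v u → pa G v (nb' G v) = sd G v u ∪ sd G u v ∧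
      Disjoint (sd G v u) (sd G u v)) ∧
    (∀ v w, w ∈ pa G v (nb' G v) ↔ G.Reachable v w) ∧
    (∀ v, ∀ W ⊆ nb' G v, ∀ w ∈ pa G v W, Lk' G (pa G v W) v w)

/-- the code of an element of `F` -/
def cd (a : F) : ℕ := a.1.val + 2 * a.2.val

/-- the code of a vector (the last coordinate is determined by the sum) -/
def code (p : Fin 4 → F) : ℕ := cd (p 0) + 4 * cd (p 1) + 16 * cd (p 2)

/-- exchange of `(1,0)` and `(0,1)` -/
def g12 (a : F) : F := (a.2, a.1)
/-- exchange of `(1,0)` and `(1,1)` -/
def g13 (a : F) : F := (a.1, a.1 + a.2)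
/-- exchange of `(0,1)` and `(1,1)` -/
def g23 (a : F) : F := (a.1 + a.2, a.2)

/-- SS (100 lines).  Soundness of `s6`.

Proof.  First `(w_j b).testBit k = b.testBit (k ^^^ 2 ^ j)` for `k < 64` (`interval_cases k` and
`simp [w_j, Nat.testBit_lor, Nat.testBit_land, Nat.testBit_shiftLeft, Nat.testBit_shiftRight]`).
Then by steps, for `s_j` with `a < 2 ^ 2 ^ j`, `i < 2 ^ j`. -/
def S_SS : Prop :=
  ∀ r a b k : ℕ, a < 2 ^ 64 → k < 64 → (s6 r a b).testBit k = true →
    r.testBit k = true ∨ ∃ i < 64, a.testBit i = true ∧ b.testBit (i ^^^ k) = true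

/-- PC (60 lines).  Soundness of `pc`: the number of the bits. -/
def S_PC : Prop :=
  ∀ a : ℕ, a < 2 ^ 64 → pc a = ((range 64).filter (fun i => a.testBit i = true)).card

/-- TAU (60 lines).  The maps `r12`, `r13`, `r23` (also the bounds). -/
def S_TAU : Prop :=
  (∀ (q : ℕ) (p : Fin 4 → F), (r12 q).testBit (code p) = q.testBit (code (fun i => g12 (p i)))) ∧
  (∀ (q : ℕ) (p : Fin 4 → F), (r13 q).testBit (code p) = q.testBit (code (fun i => g13 (p i)))) ∧
  (∀ (q : ℕ) (p : Fin 4 → F), (r23 q).testBit (code p) = q.testBit (code (fun i => g23 (p i)))) ∧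
  (∀ q < 2 ^ 64, r12 q < 2 ^ 64 ∧ r13 q < 2 ^ 64 ∧ r23 q < 2 ^ 64) ∧
  (∀ r a b, r < 2 ^ 64 → b < 2 ^ 64 → s6 r a b < 2 ^ 64)

/-- the members of the set `q` of vectors with sum `c` satisfy `R` -/
def Mc (c : F) (q : ℕ) (R : (Fin 4 → F) → Prop) : Prop :=
  q < 2 ^ 64 ∧ ∀ p, ∑ i, p i = c → q.testBit (code p) = true → R p

/-- ATT (100 lines; uses SS and TAU as hypotheses).  The sums of the partial state with one more
branch.  `R c p`: the vector `p` is realized with value `c` at the vertex, `R'` for the branch.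

Proof.  `code p < 64`, `code (p + q) = code p ^^^ code q`, and each index `i < 64` is the code of
exactly one `p` with sum `c`.  `q0`: an element of `s6 0 t.q p.q1` is the sum of `a ∈ t.q` and
`b ∈ p.q1`, use `H (1,0) (1,0) b a`; the other two parts of `q0` are images under `g12` and `g13`.
`q1`: an element of `s6 0 (r12 t.q) (r13 p.q1)` is the sum of `a` with `g12 a ∈ t.q` (sum
`(0,1)`) and `b` with `g13 b ∈ p.q1` (sum `(1,1)`); then its image under `g23` (which fixes
`(1,0)`), and the sums of `t.q` and `p.q0`. -/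
def S_ATT : Prop :=
  S_SS → S_TAU → ∀ (R R' Q : F → (Fin 4 → F) → Prop),
    (∀ c p, R c p → R (g12 c) (fun i => g12 (p i)) ∧ R (g13 c) (fun i => g13 (p i)) ∧
      R (g23 c) (fun i => g23 (p i))) →
    (∀ c p, R' c p → R' (g12 c) (fun i => g12 (p i)) ∧ R' (g13 c) (fun i => g13 (p i)) ∧
      R' (g23 c) (fun i => g23 (p i))) →
    (∀ c p, Q c p → Q (g12 c) (fun i => g12 (p i)) ∧ Q (g13 c) (fun i => g13 (p i)) ∧
      Q (g23 c) (fun i => g23 (p i))) →
    (∀ c a p q, a ≠ 0 → R c p → R' a q → Q (c + a) (p + q)) →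
    ∀ (p : P) (t : T), Mc 0 p.q0 (R 0) → Mc (1, 0) p.q1 (R (1, 0)) → Mc (1, 0) t.q (R' (1, 0)) →
      Mc 0 (att p t).q0 (Q 0) ∧ Mc (1, 0) (att p t).q1 (Q (1, 0))

/-- IDL (60 lines).  The vectors which have to be realized are in `idl`; `U i`: the label is used,
`W i`: it is used twice. -/
def S_IDL : Prop :=
  ∀ (u v : ℕ) (U W : Fin 4 → Prop), (∀ i : Fin 4, u.testBit i = true ↔ U i) →
    (∀ i : Fin 4, v.testBit i = true ↔ W i) → ∀ p : Fin 4 → F, (∀ i, ¬ U i → p i = 0) →
    (∀ i, U i → ¬ W i → p i ≠ 0) → (∀ i, W i → U i) →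
    (∑ i, p i = 0 → (idl z0 u v).testBit (code p) = true) ∧
    (∑ i, p i = (1, 0) → (idl z1 u v).testBit (code p) = true)

/-- PIG (60 lines).  Two sets of vectors with more than 64 elements together have all sums.

Proof.  There are 64 vectors with sum `c` (`code` is injective on them).  For a target `r` the maps
`p ↦ p` and `p ↦ r + p` send the two sets to sets of vectors with sum `c`, which meet. -/
def S_PIG : Prop :=
  ∀ (c d : F) (X Y : Finset (Fin 4 → F)), (∀ p ∈ X, ∑ i, p i = c) → (∀ p ∈ Y, ∑ i, p i = d) →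
    64 < X.card + Y.card → ∀ r : Fin 4 → F, ∑ i, r i = c + d → ∃ p ∈ X, ∃ q ∈ Y, p + q = r

/-- NUM (50 lines).  The number of the vectors coded by `q`; uses PC. -/
def S_NUM : Prop :=
  S_PC → ∀ (c : F) (q : ℕ), q < 2 ^ 64 →
    (univ.filter (fun p : Fin 4 → F => ∑ i, p i = c ∧ q.testBit (code p) = true)).card = pc q

/-- FEW (50 lines).  At most 27 vectors with a fixed sum if each coordinate is always zero or always
nonzero (the first three coordinates determine the vector). -/
def S_FEW : Prop :=
  ∀ (c : F) (X : Finset (Fin 4 → F)), (∀ p ∈ X, ∑ i, p i = c) →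
    (∀ i, (∀ p ∈ X, p i = 0) ∨ (∀ p ∈ X, p i ≠ 0)) → X.card ≤ 27

/-- LPN (40 lines).  What the check says: a state from which a chain of at most `n` branches leads
to the state `p'`. -/
def S_LPN : Prop :=
  ∀ (l0 : List T) (m n : ℕ) (p : P) (l : List T), chk l0 m (n + 1) p l = true → l.length ≤ m →
    okc l0 p = true ∧ (fat p = false → ∀ (k : ℕ) (t : T), l[k]? = some t → cmp p t = true →
      chk l0 m n (att p t) (l.drop k) = true)

end Pool.Agent.H16.FW
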