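import Pool.Agent.H16.FW.SS

set_option autoImplicit false

namespace Pool.Agent.H16.FW

open Finset Pool.Agent.TH362.TF Pool.Agent.TH362.TF.Four Q116.FF Pool.Agent.H16.FV

/-- the index after the exchange -/
def tx (m d k : ℕ) : ℕ :=
  cond (m.testBit k) (d + k) (cond (Nat.ble d k && m.testBit (k - d)) (k - d) k)

theorem ds_bit (m d : ℕ) (h : ∀ k < 64, m.testBit k = true → d ≤ k → m.testBit (k - d) = false)
    (q k : ℕ) (hk : k < 64) : (ds m d q).testBit k = q.testBit (tx m d k) := by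
  unfold ds tx
  rw [xor_bit, xor_bit, land_bit, xor_bit, shr_bit, shl_bit, land_bit, xor_bit, shr_bit]
  cases hm : m.testBit k
  · rw [cond_false]
    by_cases hd : d ≤ k
    · have hb : Nat.ble d k = true := Nat.ble_eq_true_of_le hd
      rw [hb, Bool.true_and]
      cases hm' : m.testBit (k - d)
      · simp
      · have : d + (k - d) = k := by omega
        rw [this, cond_true, decide_eq_true hd]
        cases q.testBit k <;> cases q.testBit (k - d) <;> simp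
    · have hb : Nat.ble d k = false := by
        cases hb : Nat.ble d k
        · rfl
        · exact absurd (Nat.le_of_ble_eq_true hb) hd
      rw [hb, decide_eq_false hd]
      simp
  · rw [cond_true]
    by_cases hd : d ≤ k
    · rw [h k hk hm hd]
      cases q.testBit k <;> cases q.testBit (d + k) <;> simp
    · rw [decide_eq_false hd]
      cases q.testBit k <;> cases q.testBit (d + k) <;> simp

theorem ds_lt (m d q : ℕ) (h : m * 2 ^ d < 2 ^ 64) (hq : q < 2 ^ 64) : ds m d q < 2 ^ 64 := by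
  have hm : m < 2 ^ 64 := lt_of_le_of_lt (Nat.le_mul_of_pos_right m (by positivity)) h
  have h1 : ∀ x : ℕ, x &&& m < 2 ^ 64 := fun x => lt_of_le_of_lt Nat.and_le_right hm
  have h2 : ∀ x : ℕ, (x &&& m) <<< d < 2 ^ 64 := fun x => by
    rw [Nat.shiftLeft_eq]
    exact lt_of_le_of_lt (Nat.mul_le_mul_right _ Nat.and_le_right) h
  exact Nat.xor_lt_two_pow (Nat.xor_lt_two_pow hq (h1 _)) (h2 _)

theorem tau12 (q : ℕ) (a b c : F) : (r12 q).testBit (cd a + 4 * cd b + 16 * cd c) =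
    q.testBit (cd (g12 a) + 4 * cd (g12 b) + 16 * cd (g12 c)) := by
  unfold r12
  rw [ds_bit _ _ (by decide) _ _ (by revert a b c; decide),
    ds_bit _ _ (by decide) _ _ (by revert a b c; decide),
    ds_bit _ _ (by decide) _ _ (by revert a b c; decide)]
  congr 1
  revert a b c; decide

theorem tau13 (q : ℕ) (a b c : F) : (r13 q).testBit (cd a + 4 * cd b + 16 * cd c) =
    q.testBit (cd (g13 a) + 4 * cd (g13 b) + 16 * cd (g13 c)) := by
  unfold r13
  rw [ds_bit _ _ (by decide) _ _ (by revert a b c; decide),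
    ds_bit _ _ (by decide) _ _ (by revert a b c; decide),
    ds_bit _ _ (by decide) _ _ (by revert a b c; decide)]
  congr 1
  revert a b c; decide

theorem tau23 (q : ℕ) (a b c : F) : (r23 q).testBit (cd a + 4 * cd b + 16 * cd c) =
    q.testBit (cd (g23 a) + 4 * cd (g23 b) + 16 * cd (g23 c)) := by
  unfold r23
  rw [ds_bit _ _ (by decide) _ _ (by revert a b c; decide),
    ds_bit _ _ (by decide) _ _ (by revert a b c; decide),
    ds_bit _ _ (by decide) _ _ (by revert a b c; decide)]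
  congr 1
  revert a b c; decide

theorem wj_lt (m d : ℕ) (h : m * 2 ^ d < 2 ^ 64) (b : ℕ) :
    Nat.lor (Nat.shiftLeft (Nat.land b m) d) (Nat.land (Nat.shiftRight b d) m) < 2 ^ 64 := by
  have hm : m < 2 ^ 64 := lt_of_le_of_lt (Nat.le_mul_of_pos_right m (by positivity)) h
  have h1 : ∀ x : ℕ, x &&& m < 2 ^ 64 := fun x => lt_of_le_of_lt Nat.and_le_right hm
  have h2 : ∀ x : ℕ, (x &&& m) <<< d < 2 ^ 64 := fun x => by
    rw [Nat.shiftLeft_eq]
    exact lt_of_le_of_lt (Nat.mul_le_mul_right _ Nat.and_le_right) h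
  exact Nat.or_lt_two_pow (h2 _) (h1 _)

theorem s_lt_step (n m : ℕ) (f : ℕ → ℕ → ℕ → ℕ) (w : ℕ → ℕ)
    (hf : ∀ r a b : ℕ, r < 2 ^ 64 → b < 2 ^ 64 → f r a b < 2 ^ 64)
    (hw : ∀ b : ℕ, w b < 2 ^ 64) (r a b : ℕ) (hr : r < 2 ^ 64) (hb : b < 2 ^ 64) :
    (cond (Nat.beq a 0) r (cond (Nat.beq r 0xFFFFFFFFFFFFFFFF) r
      (f (f r (Nat.land a m) b) (Nat.shiftRight a n) (w b)))) < 2 ^ 64 := by
  cases Nat.beq a 0
  · cases Nat.beq r 0xFFFFFFFFFFFFFFFF
    · exact hf _ _ _ (hf _ _ _ hr hb) (hw b)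
    · exact hr
  · exact hr

theorem s0_lt (r a b : ℕ) (hr : r < 2 ^ 64) (hb : b < 2 ^ 64) : s0 r a b < 2 ^ 64 := by
  unfold s0
  cases Nat.beq a 0
  · exact Nat.or_lt_two_pow hr hb
  · exact hr

theorem s1_lt (r a b : ℕ) (hr : r < 2 ^ 64) (hb : b < 2 ^ 64) : s1 r a b < 2 ^ 64 :=
  s_lt_step 1 1 s0 w0 s0_lt (wj_lt _ 1 (by norm_num)) r a b hr hb
theorem s2_lt (r a b : ℕ) (hr : r < 2 ^ 64) (hb : b < 2 ^ 64) : s2 r a b < 2 ^ 64 :=
  s_lt_step 2 3 s1 w1 s1_lt (wj_lt _ 2 (by norm_num)) r a b hr hb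
theorem s3_lt (r a b : ℕ) (hr : r < 2 ^ 64) (hb : b < 2 ^ 64) : s3 r a b < 2 ^ 64 :=
  s_lt_step 4 15 s2 w2 s2_lt (wj_lt _ 4 (by norm_num)) r a b hr hb
theorem s4_lt (r a b : ℕ) (hr : r < 2 ^ 64) (hb : b < 2 ^ 64) : s4 r a b < 2 ^ 64 :=
  s_lt_step 8 255 s3 w3 s3_lt (wj_lt _ 8 (by norm_num)) r a b hr hb
theorem s5_lt (r a b : ℕ) (hr : r < 2 ^ 64) (hb : b < 2 ^ 64) : s5 r a b < 2 ^ 64 :=
  s_lt_step 16 65535 s4 w4 s4_lt (wj_lt _ 16 (by norm_num)) r a b hr hb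

theorem tau : S_TAU := by
  refine ⟨fun q p => tau12 q _ _ _, fun q p => tau13 q _ _ _, fun q p => tau23 q _ _ _,
    fun q hq => ⟨?_, ?_, ?_⟩, fun r a b hr hb => ?_⟩
  · exact ds_lt _ _ _ (by norm_num) (ds_lt _ _ _ (by norm_num) (ds_lt _ _ _ (by norm_num) hq))
  · exact ds_lt _ _ _ (by norm_num) (ds_lt _ _ _ (by norm_num) (ds_lt _ _ _ (by norm_num) hq))
  · exact ds_lt _ _ _ (by norm_num) (ds_lt _ _ _ (by norm_num) (ds_lt _ _ _ (by norm_num) hq))
  · exact s_lt_step 32 4294967295 s5 w5 s5_lt (wj_lt _ 32 (by norm_num)) r a b hr hb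

end Pool.Agent.H16.FW
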