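import Pool.Agent.H16.FW.GD0

/-! FW-TWO (helper63) -/

set_option autoImplicit false

namespace Pool.Agent.H16.FW

open Finset Pool.Agent.TH362.TF Pool.Agent.TH362.TF.Four Q116.FF Pool.Agent.H16.FV GDaux

namespace TWOaux

variable {V E : Type} [Fintype V] [DecidableEq V] [DecidableEq E]

theorem pt_zero (v : V) : pt v (0 : F) = fun _ => 0 := by
  funext u
  unfold pt
  split_ifs <;> rfl

theorem cnt_union {s t : E → V} {S : Finset E} {x : Fin 4 → V} {A A' : Finset V} (h : Disjoint A A')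
    (i : Fin 4) : cnt s t S x (A ∪ A') i = cnt s t S x A i + cnt s t S x A' i := by
  classical
  unfold cnt
  rw [filter_union, card_union_of_disjoint (disjoint_filter_filter h)]

/-- no edge between two components -/
theorem no_edge (hFOR : S_FOR) {s t : E → V} {S : Finset E} {x : Fin 4 → V} (hg : Hg s t S x)
    {v v' : V} (h1 : ∀ i, x i ∉ pa (Fo s t S x) v (nb' (Fo s t S x) v))
    (h2 : ∀ i, x i ∉ pa (Fo s t S x) v' (nb' (Fo s t S x) v'))
    (hd : Disjoint (pa (Fo s t S x) v (nb' (Fo s t S x) v))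
      (pa (Fo s t S x) v' (nb' (Fo s t S x) v'))) (e : E) (he : e ∈ S) (a b : V)
    (ha : a ∈ pa (Fo s t S x) v (nb' (Fo s t S x) v))
    (hb : b ∈ pa (Fo s t S x) v' (nb' (Fo s t S x) v')) (hab : Ends s t a b e) : False := by
  have hF := hFOR V (Fo s t S x) hg.acy
  have hne : a ≠ b := fun h => (Finset.disjoint_left.1 hd) ha (h ▸ hb)
  have hadj : (Fo s t S x).Adj a b :=
    ⟨hne, fun i hi => h1 i (hi ▸ ha), fun i hi => h2 i (hi ▸ hb), e, he, hab⟩
  have h3 : (Fo s t S x).Reachable v a := (hF.2.2.2.2.2.1 v a).1 ha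
  have h4 : b ∈ pa (Fo s t S x) v (nb' (Fo s t S x) v) :=
    (hF.2.2.2.2.2.1 v b).2 (h3.trans hadj.reachable)
  exact (Finset.disjoint_left.1 hd) h4 hb

end TWOaux

open TWOaux

theorem two : S_TWO := by
  classical
  intro hUNI hPIG hFOR hCON hROOT V E _ _ _ s t S x hg v v' hv hv' hd hK
  set K := pa (Fo s t S x) v (nb' (Fo s t S x) v) with hKd
  set K' := pa (Fo s t S x) v' (nb' (Fo s t S x) v') with hKd'
  have hR := hROOT hFOR V E s t S x hg
  have hx : ∀ i, x i ∉ K := hR.1 v _ (Subset.refl _) hv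
  have hx' : ∀ i, x i ∉ K' := hR.1 v' _ (Subset.refl _) hv'
  have hRA : RA s t S x (K ∪ K') = ∅ := hR.2.2.2.1 v v' hv hv'
  have hvK : v ∈ K ∪ K' := mem_union_left _ (mem_insert_self _ _)
  have hno : ∀ e ∈ S, ¬ (s e ∈ K ∧ t e ∈ K' ∨ s e ∈ K' ∧ t e ∈ K) := by
    rintro e he (⟨h1, h2⟩ | ⟨h1, h2⟩)
    · exact no_edge hFOR hg hx hx' hd e he (s e) (t e) h1 h2 (Or.inl ⟨rfl, rfl⟩)
    · exact no_edge hFOR hg hx hx' hd e he (t e) (s e) h2 h1 (Or.inr ⟨rfl, rfl⟩)
  have hxx : ∀ i, x i ∉ K ∪ K' := fun i hi => by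
    rcases mem_union.1 hi with h | h
    · exact hx i h
    · exact hx' i h
  -- the conclusion
  have fin : (∀ r : Fin 4 → F, ∑ i, r i = 0 → ∃ p q : Fin 4 → F, p + q = r ∧
      Re s t S x K (fun _ => 0) p ∧ Re s t S x K' (fun _ => 0) q) →
      (∃ i, 2 ≤ cnt s t S x (K ∪ K') i) → (∃ i, 1 ≤ cnt s t S x K i ∧ 1 ≤ cnt s t S x K' i) →
      False := by
    intro h1 h2 h3
    have hC := (hCON hFOR V E s t S x hg).2 v _ (Subset.refl _) hv v' _ (Subset.refl _) hv' hd h3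
    refine hg.red (K ∪ K') v hxx hvK (by rw [hRA]; simp) (by rw [hRA]; simp) ?_ h2 hC
    intro c p hc _ hsum _ _
    have hc0 : c = 0 := hc hRA
    subst hc0
    obtain ⟨p1, q1, hpq, hp1, hq1⟩ := h1 p hsum
    rw [pt_zero, ← hpq]
    exact hUNI V E s t S x K K' hx hx' hd hno p1 q1 hp1 hq1
  constructor
  · intro hK'
    refine fin ?_ ⟨0, ?_⟩ ⟨0, hK.2.1 0, hK'.2.1 0⟩
    · intro r hr
      obtain ⟨p, hp, q, hq, hpq⟩ := hPIG 0 0
        (univ.filter (fun p : Fin 4 → F => ∑ i, p i = 0 ∧ Re s t S x K (fun _ => 0) p))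
        (univ.filter (fun p : Fin 4 → F => ∑ i, p i = 0 ∧ Re s t S x K' (fun _ => 0) p))
        (fun p hp => (mem_filter.1 hp).2.1) (fun p hp => (mem_filter.1 hp).2.1)
        (by
          have h1 := hK.1
          have h2 := hK'.1
          omega) r (by rw [hr, add_zero])
      exact ⟨p, q, hpq, (mem_filter.1 hp).2.2, (mem_filter.1 hq).2.2⟩
    · rw [cnt_union hd]
      have h1 := hK.2.1 0
      have h2 := hK'.2.1 0
      omega
  · intro j hP hpr
    rcases hK.2.2 j hpr with h | ⟨h1, h2⟩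
    · exact h
    · exfalso
      obtain ⟨i, hi⟩ : ∃ i : Fin 4, i ≠ j := by
        by_cases h : j = 0
        · exact ⟨1, by rw [h]; decide⟩
        · exact ⟨0, fun h' => h h'.symm⟩
      refine fin ?_ ⟨j, ?_⟩ ⟨i, hK.2.1 i, hP.2 i hi⟩
      · intro r hr
        obtain ⟨p, q, hpq, hp0, hpj, hpn, hq⟩ := h2 r hr
        exact ⟨q, p, by rw [add_comm]; exact hpq, hq, hP.1 p hp0 hpj hpn⟩
      · rw [cnt_union hd]
        omega

end Pool.Agent.H16.FW
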