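import Pool.Agent.H16.FW.Fvn
import Pool.Agent.H16.FW.ACY
import Pool.Agent.H16.FW.ATT
import Pool.Agent.H16.FW.BASE
import Pool.Agent.H16.FW.BSt
import Pool.Agent.H16.FW.CLS
import Pool.Agent.H16.FW.CM
import Pool.Agent.H16.FW.CNT
import Pool.Agent.H16.FW.Conn
import Pool.Agent.H16.FW.DEG
import Pool.Agent.H16.FW.EDG
import Pool.Agent.H16.FW.FA
import Pool.Agent.H16.FW.FEW
import Pool.Agent.H16.FW.Forest
import Pool.Agent.H16.FW.GD0
import Pool.Agent.H16.FW.GD1
import Pool.Agent.H16.FW.IDL
import Pool.Agent.H16.FW.LOW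
import Pool.Agent.H16.FW.LPN
import Pool.Agent.H16.FW.MON
import Pool.Agent.H16.FW.Mnh
import Pool.Agent.H16.FW.NEM
import Pool.Agent.H16.FW.NUM
import Pool.Agent.H16.FW.PC
import Pool.Agent.H16.FW.PIG
import Pool.Agent.H16.FW.RED
import Pool.Agent.H16.FW.Root
import Pool.Agent.H16.FW.SCL
import Pool.Agent.H16.FW.SS
import Pool.Agent.H16.FW.STEP
import Pool.Agent.H16.FW.STP
import Pool.Agent.H16.FW.SUM
import Pool.Agent.H16.FW.SUPP
import Pool.Agent.H16.FW.TAU
import Pool.Agent.H16.FW.TWO
import Pool.Agent.H16.FW.UNI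
import Pool.Agent.H16.FW.Res

/-!
# PROJECT FW (helper16): the theorem without hypotheses
-/

set_option autoImplicit false

namespace Pool.Agent.H16.FW

/-- Graphs without isthmuses and of feedback vertex number at most four have a nowhere-zero flow
over the group of order four or a Petersen quotient. -/
theorem fvn4 : S_FVN := by
  intro V E _ _ _ s t S hn X hX hF
  exact fvn4_of red base step uni sum supp acy deg forest ss pcs tau att_sound idl_sound pig num
    few lpn_sound mn_sound scl stp nem mon con root edg low bs_sound fa cm gd1 gd0 cnt_final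
    cls_sound two hn hX hF

end Pool.Agent.H16.FW
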