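import Pool.Agent.H16.FW.Clo

/-!
# PROJECT FW (helper16): at most 13 vertices of odd degree outside of the hubs
-/

set_option autoImplicit false
set_option linter.unusedSectionVars false

namespace Pool.Agent.H16.FW

open Finset Pool.Agent.TH362.TF Pool.Agent.TH362.TF.Four Q116.FF Pool.Agent.H16.FV

section
variable {V E : Type} [Fintype V] [DecidableEq V] [DecidableEq E]

theorem ne_of_dgr {s t : E → V} {S : Finset E} {v : V} (h : Odd (dgr s t S v)) :
    (cut s t S (fun w => decide (w = v))).Nonempty := by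
  rw [← card_pos]
  exact h.pos

/-- the component of `v` -/
noncomputable def cmp' (G : SimpleGraph V) (v : V) : Finset V := pa G v (nb' G v)

theorem cmp'_eq (fr : S_FOR) {G : SimpleGraph V} (hG : G.IsAcyclic) {v w : V}
    (h : G.Reachable v w) : cmp' G v = cmp' G w := by
  obtain ⟨-, -, -, -, -, f6, -⟩ := fr V G hG
  ext z
  unfold cmp'
  rw [f6, f6]
  exact ⟨fun h1 => h.symm.trans h1, fun h1 => h.trans h1⟩

theorem cmp'_disj (fr : S_FOR) {G : SimpleGraph V} (hG : G.IsAcyclic) {v w : V}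
    (h : cmp' G v ≠ cmp' G w) : Disjoint (cmp' G v) (cmp' G w) := by
  rw [disjoint_left]
  intro z h1 h2
  apply h
  obtain ⟨-, -, -, -, -, f6, -⟩ := fr V G hG
  unfold cmp' at h1 h2
  rw [f6] at h1 h2
  exact cmp'_eq fr hG (h1.trans h2.symm)

theorem nb'_emp {G : SimpleGraph V} {v w : V} (h : nb' G v = ∅) (hw : G.Reachable v w) :
    w = v := by
  obtain ⟨p⟩ := hw
  cases p with
  | nil => rfl
  | cons h1 _ =>
    have := mem_nb'.2 h1
    rw [h] at this
    exact absurd this (notMem_empty _)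

variable {s t : E → V} {S : Finset E} {x : Fin 4 → V}

theorem not_hub_of_reach {v w : V} (hv : ∀ i, x i ≠ v) (h : (Fo s t S x).Reachable v w) :
    ∀ i, x i ≠ w := by
  obtain ⟨p⟩ := h.symm
  cases p with
  | nil => exact hv
  | cons h1 _ => exact h1.2.1

open Classical in
/-- the pairs of labels of `K` -/
noncomputable def PRs (s t : E → V) (S : Finset E) (x : Fin 4 → V) (K : Finset V) :
    Finset (Fin 4 × Fin 4) := prs.filter (fun z => Pr s t S x K z.1 z.2)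

theorem Fy.typ (h : Fy s t S x) (cls : S_CLS) (ss : S_SS) {v : V} (hv : ∀ i, x i ≠ v)
    (hodd : Odd (dgr s t S v)) :
    (od s t S (cmp' (Fo s t S x) v) ≤ 2 ∧ 2 ≤ (PRs s t S x (cmp' (Fo s t S x) v)).card) ∨
    (∃ j, od s t S (cmp' (Fo s t S x) v) ≤ 7 ∧ TyP s t S x (cmp' (Fo s t S x) v) j ∧
      ∀ a b : Fin 4, a < b → a ≠ j → b ≠ j → (a, b) ∈ PRs s t S x (cmp' (Fo s t S x) v)) ∨
    (od s t S (cmp' (Fo s t S x) v) ≤ 8 ∧ 2 ≤ (PRs s t S x (cmp' (Fo s t S x) v)).card ∧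
      TyR s t S x (cmp' (Fo s t S x) v)) := by
  classical
  obtain ⟨r, hr, hl⟩ := h.centre v hv
  have hr' : ∀ i, x i ≠ r := not_hub_of_reach hv hr
  have hcut : (cut s t S (fun w => decide (w = r))).Nonempty := by
    by_cases hn : nb' (Fo s t S x) r = ∅
    · have := nb'_emp hn hr.symm
      rw [← this]
      exact ne_of_dgr hodd
    · obtain ⟨y, hy⟩ := nonempty_of_ne_empty hn
      exact h.cutne (mem_nb'.1 hy)
  obtain ⟨π, o, hf, ho, hc⟩ := h.comp hr' hcut hl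
  have h1 : r ∈ pa (Fo s t S x) r (nb' (Fo s t S x) r) := by
    unfold pa
    exact mem_insert_self _ _
  have h2 := cls h.pcs h.num ss V E s t S x r _ _ π o h1 hf ho hc
  have hK : pa (Fo s t S x) r (nb' (Fo s t S x) r) = cmp' (Fo s t S x) v :=
    (cmp'_eq h.fr h.acy hr).symm
  rw [hK] at h2
  have key : ∀ {PR : Finset (Fin 4 × Fin 4)}, PR ⊆ prs → 2 ≤ PR.card →
      (∀ z ∈ PR, Pr s t S x (cmp' (Fo s t S x) v) z.1 z.2) →
      2 ≤ (PRs s t S x (cmp' (Fo s t S x) v)).card := by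
    intro PR k1 k2 k3
    refine k2.trans (card_le_card ?_)
    intro z hz
    unfold PRs
    rw [mem_filter]
    exact ⟨k1 hz, k3 z hz⟩
  rcases h2 with ⟨k1, PR, k2, k3, k4⟩ | ⟨j, k1, k2, k3⟩ | ⟨k1, ⟨PR, k2, k3, k4⟩, k5⟩
  · exact Or.inl ⟨k1, key k2 k3 k4⟩
  · refine Or.inr (Or.inl ⟨j, k1, k2, fun a b hab ha hb => ?_⟩)
    unfold PRs
    rw [mem_filter]
    refine ⟨?_, k3 a b hab ha hb⟩
    unfold prs
    rw [mem_filter]
    exact ⟨mem_univ _, hab⟩
  · exact Or.inr (Or.inr ⟨k1, key k2 k3 k4, k5⟩)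

theorem Fy.pr_disj (h : Fy s t S x) {v w : V} (hv : ∀ i, x i ≠ v) (hw : ∀ i, x i ≠ w)
    (hne : cmp' (Fo s t S x) v ≠ cmp' (Fo s t S x) w) {i j : Fin 4} (hij : i ≠ j)
    (h1 : Pr s t S x (cmp' (Fo s t S x) v) i j) (h2 : Pr s t S x (cmp' (Fo s t S x) w) i j) :
    False := by
  have hd := cmp'_disj h.fr h.acy hne
  obtain ⟨-, -, -, -, -, f6, -⟩ := h.fr V (Fo s t S x) h.acy
  obtain ⟨a, ha, ⟨e1, m1, k1⟩, e2, m2, k2⟩ := h1
  obtain ⟨b, hb, ⟨e3, m3, k3⟩, e4, m4, k4⟩ := h2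
  have hab : a ≠ b := by
    rintro rfl
    exact disjoint_left.1 hd ha hb
  have ha' : ∀ i, x i ≠ a := by
    unfold cmp' at ha
    rw [f6] at ha
    exact not_hub_of_reach hv ha
  have hb' : ∀ i, x i ≠ b := by
    unfold cmp' at hb
    rw [f6] at hb
    exact not_hub_of_reach hw hb
  exact h.quad a (x i) b (x j) (ha' i).symm (hb' i) (hb' j).symm (ha' j) hab
    (fun hc => hij (h.inj hc)) e1 m1 e3 m3 e4 m4 e2 m2 k1 (ends_sy k3) k4 (ends_sy k2)

/-- at most 13 odd vertices which are not hubs -/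
theorem Fy.total (h : Fy s t S x) (cls : S_CLS) (ss : S_SS) (cntf : S_CNT)
    (two : ∀ v v', (∀ i, x i ≠ v) → (∀ i, x i ≠ v') →
      Disjoint (cmp' (Fo s t S x) v) (cmp' (Fo s t S x) v') →
      TyR s t S x (cmp' (Fo s t S x) v) →
      (TyR s t S x (cmp' (Fo s t S x) v') → False) ∧
      ∀ j, TyP s t S x (cmp' (Fo s t S x) v') j →
        (∀ a b : Fin 4, a < b → Pr s t S x (cmp' (Fo s t S x) v) a b → a = j ∨ b = j) →
        od s t S (cmp' (Fo s t S x) v) ≤ 6) :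
    (univ.filter (fun a => (∀ i, x i ≠ a) ∧ Odd (dgr s t S a))).card ≤ 13 := by
  classical
  obtain ⟨-, -, -, -, -, f6, -⟩ := h.fr V (Fo s t S x) h.acy
  set O := univ.filter (fun a => (∀ i, x i ≠ a) ∧ Odd (dgr s t S a)) with hO
  set K := O.image (cmp' (Fo s t S x)) with hK
  have hOK : O ⊆ K.biUnion (fun k => k.filter (fun a => Odd (dgr s t S a))) := by
    intro a ha
    rw [mem_biUnion]
    refine ⟨cmp' (Fo s t S x) a, mem_image_of_mem _ ha, ?_⟩
    rw [mem_filter]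
    refine ⟨?_, ?_⟩
    · unfold cmp' pa
      exact mem_insert_self _ _
    · rw [hO, mem_filter] at ha
      exact ha.2.2
  refine (card_le_card hOK).trans (card_biUnion_le.trans ?_)
  refine cntf (Finset V) K (fun k => od s t S k) (fun k => PRs s t S x k)
    (fun k j => TyP s t S x k j ∧ ∀ a b : Fin 4, a < b → a ≠ j → b ≠ j → (a, b) ∈ PRs s t S x k)
    (fun k => TyR s t S x k) ?_ ?_ ?_ ?_ ?_
  · intro k _
    unfold PRs
    exact filter_subset _ _
  · intro k hk k' hk' hne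
    rw [hK, mem_image] at hk hk'
    obtain ⟨v, hv, rfl⟩ := hk
    obtain ⟨w, hw, rfl⟩ := hk'
    rw [hO, mem_filter] at hv hw
    rw [disjoint_left]
    intro z h1 h2
    unfold PRs at h1 h2
    rw [mem_filter] at h1 h2
    have h3 : z.1 < z.2 := by
      have := h1.1
      unfold prs at this
      rw [mem_filter] at this
      exact this.2
    exact h.pr_disj hv.2.1 hw.2.1 hne h3.ne h1.2 h2.2
  · intro k hk
    rw [hK, mem_image] at hk
    obtain ⟨v, hv, rfl⟩ := hk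
    rw [hO, mem_filter] at hv
    rcases h.typ cls ss hv.2.1 hv.2.2 with h1 | ⟨j, h1, h2, h3⟩ | h1
    · exact Or.inl h1
    · exact Or.inr (Or.inl ⟨j, h1, ⟨h2, h3⟩, h3⟩)
    · exact Or.inr (Or.inr h1)
  · intro k hk k' hk' hne h1 h2
    rw [hK, mem_image] at hk hk'
    obtain ⟨v, hv, rfl⟩ := hk
    obtain ⟨w, hw, rfl⟩ := hk'
    rw [hO, mem_filter] at hv hw
    exact (two v w hv.2.1 hw.2.1 (cmp'_disj h.fr h.acy hne) h1).1 h2
  · intro k hk k' hk' hne h1 j h2
    rw [hK, mem_image] at hk hk'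
    obtain ⟨v, hv, rfl⟩ := hk
    obtain ⟨w, hw, rfl⟩ := hk'
    rw [hO, mem_filter] at hv hw
    refine (two v w hv.2.1 hw.2.1 (cmp'_disj h.fr h.acy hne) h1).2 j h2.1 ?_
    intro a b hab hP
    by_contra hcon
    push Not at hcon
    have h3 := h2.2 a b hab hcon.1 hcon.2
    unfold PRs at h3
    rw [mem_filter] at h3
    exact h.pr_disj hv.2.1 hw.2.1 hne hab.ne hP h3.2

end

end Pool.Agent.H16.FW
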