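import Pool.Agent.H16.FW.H73

/-!
# PROJECT FW: S_UNI (helper73)
-/

set_option autoImplicit false

namespace Pool.Agent.H16.FW

open Finset Pool.Agent.TH362.TF Pool.Agent.TH362.TF.Four Q116.FF Pool.Agent.H16.FV
open H73

theorem uni : S_UNI := by
  intro V E _ _ _ s t S x A A' hA hA' hd hno p q ⟨ψ, h1, h2, h3⟩ ⟨ψ', h1', h2', h3'⟩
  have hD : ∀ e, e ∈ (∅ : Finset E) ↔
      e ∈ S ∧ (s e ∈ A ∧ t e ∈ A' ∨ s e ∈ A' ∧ t e ∈ A) := by
    intro e
    constructor
    · intro h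
      exact absurd h (Finset.notMem_empty e)
    · rintro ⟨hs, hh⟩
      exact absurd hh (hno e hs)
  obtain ⟨χ, g1, g2⟩ := glue (s := s) (t := t) (S := S) hA hA' hd ∅ hD ψ ψ' (fun _ => 0) h1 h1'
    (fun e he => absurd he (Finset.notMem_empty e))
  have hB : ∀ u, B s t (∅ : Finset E) (fun _ => (0 : F)) u = 0 := by
    intro u
    unfold B
    rw [Finset.sum_empty]
  refine ⟨χ, g1, ?_, ?_⟩
  · intro u hu
    rw [g2, hB]
    rcases Finset.mem_union.1 hu with hu | hu
    · have e2 : B s t (CA s t S x A') ψ' u = 0 := B_other hA hd.symm ψ' hu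
      rw [h2 u hu, e2, add_zero, add_zero]
    · have e2 : B s t (CA s t S x A) ψ u = 0 := B_other hA' hd ψ hu
      rw [h2' u hu, e2, add_zero, add_zero]
  · intro i
    rw [g2, hB, h3, h3', add_zero]
    rfl

end Pool.Agent.H16.FW
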